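import Pool.Agent.N0.D7

/-!
Output of block N0 in the form of ETM/If.lean.
-/

open Set Metric Topology Filter
open Pool.JS Pool.ETM

namespace Pool.ETM

variable {X : Type*} [MetricSpace X] [CompactSpace X] [Sph X]

theorem NetOk_congr {c c' : Ctx X} (h : c.NetOk) (h1 : c'.f = c.f) (h2 : c'.P = c.P) (h3 : c'.η = c.η)
    (h4 : c'.V = c.V) (h5 : c'.E = c.E) (h6 : c'.D = c.D) (h7 : c'.q = c.q) (h8 : c'.m = c.m) (h9 : c'.ε = c.ε)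
    (h10 : c'.s = c.s) : c'.NetOk := by
  cases c
  cases c'
  dsimp only at h1 h2 h3 h4 h5 h6 h7 h8 h9 h10
  subst h1 h2 h3 h4 h5 h6 h7 h8 h9 h10
  exact ⟨h.εpos, h.sε, h.mpos, h.good, h.avoid, h.star, h.Dopen, h.Dsub, h.Dsc, h.Davoid, h.Ddiam, h.Qcont, h.Qinj,
    h.Qimg, h.Qinv, h.Qseg, h.contr, h.small, h.two, h.ball, h.third⟩

theorem exists_net [Nonempty X] {f : X → X} {P : Set X} {η : ℝ} (h : Dyn f P) (he : Expd f P η) :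
    ∃ (V : ℕ → Set X) (E : ℕ → Set (Set X)) (D : ℕ → Set X → Set X) (q : X → ℂ) (m : ℕ) (ε s : ℝ), ∀ c : Ctx X, c.f = f →
      c.P = P → c.η = η → c.V = V → c.E = E → c.D = D → c.q = q → c.m = m → c.ε = ε → c.s = s → c.NetOk := by
  obtain ⟨c, rfl, rfl, rfl, hc⟩ := Pool.N0.exists_net h he
  exact ⟨c.V, c.E, c.D, c.q, c.m, c.ε, c.s, fun c' h1 h2 h3 h4 h5 h6 h7 h8 h9 h10 =>
    NetOk_congr hc h1 h2 h3 h4 h5 h6 h7 h8 h9 h10⟩

end Pool.ETM
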