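import Pool.Agent.N0.Defs

/-!
MODULE A1 (difficulty 2).  Intervals with integer end points and the projection to an interval.

RECIPE.  `latI_*`: `Int.floor` / `Int.ceil` (`Int.le_floor`, `Int.ceil_le`).  `cl_mem_of`: let `y ∈ I ∩ [p, q]`; if `x ∈ [p, q]` then `cl p q x = x`; if `q < x` then `cl p q x = q` and `y ≤ q < x`, so `q ∈ I` (`OrdConnected.out`); if `x < p` then `cl p q x = p` and `x < p ≤ y`.
`LatI.meet`: by symmetry `x ≤ x'`.  Suppose `I ∩ I' = ∅`.  `⌈x⌉ ∈ I`, `⌊x'⌋ ∈ I'`.  If `⌈x⌉ ≤ ⌊x'⌋`: they are different integers, so `x' - x ≥ ⌊x'⌋ - ⌈x⌉ ≥ 1`, contradiction.  If `⌊x'⌋ < ⌈x⌉`: if `⌊x'⌋ < x` then `x ∈ [⌊x'⌋, x'] ⊆ I'`, contradiction;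
otherwise `x ≤ ⌊x'⌋ ≤ ⌈x⌉` so `⌊x'⌋ ∈ I`, contradiction.
-/

open Set Metric Topology

namespace Pool.N0

theorem latI_Icc (p q : ℤ) : LatI (Icc (p : ℝ) q) := by
  refine ⟨ordConnected_Icc, isClosed_Icc, ?_, ?_⟩
  · intro x hx
    refine ⟨?_, (Int.floor_le x).trans hx.2⟩
    exact_mod_cast Int.le_floor.2 hx.1
  · intro x hx
    refine ⟨hx.1.trans (Int.le_ceil x), ?_⟩
    exact_mod_cast Int.ceil_le.2 hx.2

theorem latI_Iic (p : ℤ) : LatI (Iic (p : ℝ)) := by
  refine ⟨ordConnected_Iic, isClosed_Iic, ?_, ?_⟩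
  · intro x hx
    exact (Int.floor_le x).trans hx
  · intro x hx
    show ((⌈x⌉ : ℤ) : ℝ) ≤ p
    exact_mod_cast Int.ceil_le.2 hx

theorem latI_Ici (p : ℤ) : LatI (Ici (p : ℝ)) := by
  refine ⟨ordConnected_Ici, isClosed_Ici, ?_, ?_⟩
  · intro x hx
    show (p : ℝ) ≤ ((⌊x⌋ : ℤ) : ℝ)
    exact_mod_cast Int.le_floor.2 hx
  · intro x hx
    exact le_trans hx (Int.le_ceil x)

theorem latI_univ : LatI (univ : Set ℝ) := by
  exact ⟨ordConnected_univ, isClosed_univ, fun _ _ => mem_univ _, fun _ _ => mem_univ _⟩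

theorem LatI.meet {I I' : Set ℝ} (h : LatI I) (h' : LatI I') {x x' : ℝ} (hx : x ∈ I) (hx' : x' ∈ I')
    (hd : |x - x'| < 1) : (I ∩ I').Nonempty := by
  have main : ∀ {I I' : Set ℝ}, LatI I → LatI I' → ∀ {x x' : ℝ}, x ∈ I → x' ∈ I' → x ≤ x' → x' - x < 1 →
      (I ∩ I').Nonempty := by
    intro I I' h h' x x' hx hx' hle hd
    by_contra hne
    rw [not_nonempty_iff_eq_empty] at hne
    have hno : ∀ z, z ∈ I → z ∈ I' → False := by
      intro z hz hz'
      have : z ∈ I ∩ I' := ⟨hz, hz'⟩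
      rw [hne] at this
      exact this
    have h1 := h.ceil x hx
    have h2 := h'.floor x' hx'
    have h3 := Int.le_ceil x
    have h4 := Int.floor_le x'
    rcases lt_trichotomy ⌈x⌉ ⌊x'⌋ with h5 | h5 | h5
    · have h6 : ((⌈x⌉ : ℤ) : ℝ) + 1 ≤ ((⌊x'⌋ : ℤ) : ℝ) := by exact_mod_cast h5
      linarith
    · rw [h5] at h1
      exact hno _ h1 h2
    · have h6 : ((⌊x'⌋ : ℤ) : ℝ) < ((⌈x⌉ : ℤ) : ℝ) := by exact_mod_cast h5
      by_cases h7 : ((⌊x'⌋ : ℤ) : ℝ) < x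
      · exact hno x hx (h'.ord.out h2 hx' ⟨h7.le, hle⟩)
      · exact hno _ (h.ord.out hx h1 ⟨not_lt.1 h7, h6.le⟩) h2
  rcases le_total x x' with hle | hle
  · exact main h h' hx hx' hle (by rw [abs_sub_comm, abs_of_nonneg (by linarith)] at hd; exact hd)
  · rw [inter_comm]
    exact main h' h hx' hx hle (by rw [abs_of_nonneg (by linarith)] at hd; exact hd)

theorem cl_mem {p q : ℝ} (h : p ≤ q) (x : ℝ) : cl p q x ∈ Icc p q := by
  unfold cl
  exact ⟨le_max_left _ _, max_le h (min_le_left _ _)⟩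

theorem cl_eq {p q x : ℝ} (h : x ∈ Icc p q) : cl p q x = x := by
  unfold cl
  rw [min_eq_right h.2, max_eq_right h.1]

theorem abs_cl_le {p q y : ℝ} (h : p ≤ q) (hy : y ∈ Icc p q) (x : ℝ) : |x - cl p q x| ≤ |x - y| := by
  rcases lt_trichotomy x p with h1 | h1 | h1
  · have h2 : cl p q x = p := by
      unfold cl
      exact max_eq_left ((min_le_right _ _).trans h1.le)
    rw [h2, abs_of_nonpos (by linarith), abs_of_nonpos (by linarith [hy.1])]
    linarith [hy.1]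
  · rw [cl_eq ⟨h1.ge, h1.le.trans h⟩, sub_self, abs_zero]
    exact abs_nonneg _
  · rcases le_total x q with h2 | h2
    · rw [cl_eq ⟨h1.le, h2⟩, sub_self, abs_zero]
      exact abs_nonneg _
    · have h3 : cl p q x = q := by
        unfold cl
        rw [min_eq_left h2, max_eq_right h]
      rw [h3, abs_of_nonneg (by linarith), abs_of_nonneg (by linarith [hy.2])]
      linarith [hy.2]

theorem cl_mem_of {I : Set ℝ} (hI : OrdConnected I) {p q x : ℝ} (hx : x ∈ I) (hne : (I ∩ Icc p q).Nonempty) :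
    cl p q x ∈ I := by
  obtain ⟨y, hy, hy1, hy2⟩ := hne
  have h : p ≤ q := hy1.trans hy2
  rcases le_total x p with h1 | h1
  · have h2 : cl p q x = p := by
      unfold cl
      exact max_eq_left ((min_le_right _ _).trans h1)
    rw [h2]
    exact hI.out hx hy ⟨h1, hy1⟩
  · rcases le_total x q with h2 | h2
    · rw [cl_eq ⟨h1, h2⟩]
      exact hx
    · have h3 : cl p q x = q := by
        unfold cl
        rw [min_eq_left h2, max_eq_right h]
      rw [h3]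
      exact hI.out hy hx ⟨hy2, h2⟩

end Pool.N0
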