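import Pool.Agent.N0.A1

/-!
MODULE A2 (difficulty 2).  Boxes.

RECIPE.  `Bx I J = re ⁻¹' I ∩ im ⁻¹' J` (`Complex.continuous_re`); compare `Complex.reProdIm` (`I ×ℂ J`), `closure_reProdIm`, `interior_reProdIm`, `frontier_reProdIm` in `Mathlib.Analysis.Complex.ReImTopology`.  Convexity: `OrdConnected.convex`, preimage under linear maps.
`infDist_box`: `pr z` is in the box (`cl_mem`) and for `w` in the box `dist z (pr z) ≤ dist z w`: compare the squares of the coordinates (`abs_cl_le`, `Complex.dist_eq_re_im`, `Real.sqrt_le_sqrt`).  `pr_mem_of`: `z.re ∈ I` and `cl p q z.re ∈ [p, q]` with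
`|z.re - cl p q z.re| ≤ dist z (pr z) < 1` (`Complex.abs_re_le_norm`), `LatI.meet`, then `cl_mem_of`; the same for `im`.
-/

open Set Metric Topology

namespace Pool.N0

variable {I J : Set ℝ}

private theorem A2_eq (I J : Set ℝ) : Bx I J = I ×ℂ J := rfl

theorem isClosed_Bx (hI : IsClosed I) (hJ : IsClosed J) : IsClosed (Bx I J) := by
  rw [A2_eq]
  exact hI.reProdIm hJ

theorem isOpen_Bx (hI : IsOpen I) (hJ : IsOpen J) : IsOpen (Bx I J) := by
  rw [A2_eq]
  exact hI.reProdIm hJ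

theorem convex_Bx (hI : OrdConnected I) (hJ : OrdConnected J) : Convex ℝ (Bx I J) := by
  intro z hz w hw a b ha hb hab
  refine ⟨?_, ?_⟩
  · have h := hI.convex hz.1 hw.1 ha hb hab
    simpa using h
  · have h := hJ.convex hz.2 hw.2 ha hb hab
    simpa using h

theorem isCompact_Bx (p q r s : ℝ) : IsCompact (Bx (Icc p q) (Icc r s)) := by
  rw [A2_eq]
  exact isCompact_Icc.reProdIm isCompact_Icc

theorem closure_Bx {p q r s : ℝ} (hpq : p < q) (hrs : r < s) :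
    closure (Bx (Ioo p q) (Ioo r s)) = Bx (Icc p q) (Icc r s) := by
  rw [A2_eq, A2_eq, Complex.closure_reProdIm, closure_Ioo hpq.ne, closure_Ioo hrs.ne]

theorem frontier_Bx {p q r s : ℝ} (hpq : p < q) (hrs : r < s) :
    frontier (Bx (Ioo p q) (Ioo r s)) = Bx (Icc p q) (Icc r s) \ Bx (Ioo p q) (Ioo r s) := by
  rw [frontier, closure_Bx hpq hrs, (isOpen_Bx isOpen_Ioo isOpen_Ioo).interior_eq]

theorem interior_Bx (p q r s : ℝ) : interior (Bx (Icc p q) (Icc r s)) = Bx (Ioo p q) (Ioo r s) := by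
  rw [A2_eq, A2_eq, Complex.interior_reProdIm, interior_Icc, interior_Icc]

theorem pr_mem_box {p q r s : ℝ} (hpq : p ≤ q) (hrs : r ≤ s) (z : ℂ) : pr p q r s z ∈ Bx (Icc p q) (Icc r s) :=
  ⟨cl_mem hpq _, cl_mem hrs _⟩

theorem infDist_box {p q r s : ℝ} (hpq : p ≤ q) (hrs : r ≤ s) (z : ℂ) :
    infDist z (Bx (Icc p q) (Icc r s)) = dist z (pr p q r s z) := by
  apply le_antisymm
  · exact infDist_le_dist_of_mem (pr_mem_box hpq hrs z)
  · rw [le_infDist ⟨_, pr_mem_box hpq hrs z⟩]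
    intro w hw
    rw [Complex.dist_eq_re_im, Complex.dist_eq_re_im]
    apply Real.sqrt_le_sqrt
    exact add_le_add (sq_le_sq.mpr (abs_cl_le hpq hw.1 _)) (sq_le_sq.mpr (abs_cl_le hrs hw.2 _))

theorem pr_mem_of (hI : LatI I) (hJ : LatI J) {p q r s : ℤ} (hpq : p ≤ q) (hrs : r ≤ s) {z : ℂ} (hz : z ∈ Bx I J)
    (hd : infDist z (Bx (Icc (p : ℝ) q) (Icc (r : ℝ) s)) < 1) : pr p q r s z ∈ Bx I J := by
  have hpq' : (p : ℝ) ≤ q := by exact_mod_cast hpq
  have hrs' : (r : ℝ) ≤ s := by exact_mod_cast hrs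
  rw [infDist_box hpq' hrs', dist_eq_norm] at hd
  refine ⟨?_, ?_⟩
  · have h1 : |z.re - cl p q z.re| < 1 := lt_of_le_of_lt (Complex.abs_re_le_norm (z - pr p q r s z)) hd
    exact cl_mem_of hI.ord hz.1 (hI.meet (latI_Icc p q) hz.1 (cl_mem hpq' _) h1)
  · have h1 : |z.im - cl r s z.im| < 1 := lt_of_le_of_lt (Complex.abs_im_le_norm (z - pr p q r s z)) hd
    exact cl_mem_of hJ.ord hz.2 (hJ.meet (latI_Icc r s) hz.2 (cl_mem hrs' _) h1)

end Pool.N0
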