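import Pool.Agent.N0.A2

/-!
MODULE A3 (difficulty 3).  Two edges of the wall which are close to a point.

RECIPE.  Every edge is a box `Bx (Icc p q) (Icc r s)` with integers and `(q = p + 1 ∧ s = r) ∨ (q = p ∧ s = r + 1)` (`EB_form`).  `EB_meet`: `w ∈ θ'` with `infDist w θ < 1`: `pr_mem_of` for the box `θ'` (`latI_Icc`) and `pr_mem_box`.
`EB_close`: let `w = pr' z ∈ θ'`; `infDist w θ ≤ dist w z + infDist z θ ≤ 2 r < 1`, so the boxes `θ = [p, q] × [u, v]`, `θ' = [p', q'] × [u', v']` have a common point.  Four cases.  Both horizontal (`v = u`, `v' = u'`): `u = u'`, and `p ≠ p'` (otherwise `θ = θ'`), the intervals `[p, p + 1]`, `[p', p' + 1]` meet,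
so `p' = p + 1` or `p' = p - 1`; the common point is `v₀ = (p + 1, u)` (first case).  `z` is within `r` of both: `z.re ≤ p + 1 + r`, `z.re ≥ p' - r = p + 1 - r`, `|z.im - u| ≤ r`.  Horizontal and vertical: the common point is `(p', u)` where `p' = q'`, `u = v`: `|z.re - p'| ≤ r` and `|z.im - u| ≤ r`.
Always `|z.re - v₀.re| ≤ r`, `|z.im - v₀.im| ≤ r`, so `dist z v₀ ≤ √2 * r` (`r ≥ 0` because `infDist` is nonnegative).  The common point is a lattice point of both edges and so a vertex of the wall (`0 ≤ . ≤ 2 M`, `0 ≤ . ≤ N`).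
-/

open Set Metric Topology

namespace Pool.N0

variable {M N : ℤ} {θ θ' : Set ℂ}

theorem EB_form (h : θ ∈ EB M N) : ∃ p q r s : ℤ, θ = Bx (Icc (p : ℝ) q) (Icc (r : ℝ) s) ∧
    ((q = p + 1 ∧ s = r) ∨ (q = p ∧ s = r + 1)) ∧ 0 ≤ p ∧ q ≤ 2 * M ∧ 0 ≤ r ∧ s ≤ N := by
  rcases h with ⟨a, b, h1, h2, h3, h4, rfl⟩ | ⟨a, b, h1, h2, h3, h4, -, rfl⟩
  · refine ⟨a, a + 1, b, b, ?_, Or.inl ⟨rfl, rfl⟩, h1, by omega, h3, h4⟩
    rw [hE]
    push_cast
    rfl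
  · refine ⟨a, a, b, b + 1, ?_, Or.inr ⟨rfl, rfl⟩, h1, h2, h3, by omega⟩
    rw [vE]
    push_cast
    rfl

theorem EB_meet (h : θ ∈ EB M N) (h' : θ' ∈ EB M N) {w : ℂ} (hw : w ∈ θ') (hd : infDist w θ < 1) :
    (θ ∩ θ').Nonempty := by
  obtain ⟨p, q, r, s, rfl, h1, -⟩ := EB_form h
  obtain ⟨p', q', r', s', rfl, h1', -⟩ := EB_form h'
  have hpq : p ≤ q := by omega
  have hrs : r ≤ s := by omega
  exact ⟨pr p q r s w, pr_mem_box (by exact_mod_cast hpq) (by exact_mod_cast hrs) w,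
    pr_mem_of (latI_Icc p' q') (latI_Icc r' s') hpq hrs hw hd⟩

private theorem a3_near {p q r s : ℤ} (hpq : p ≤ q) (hrs : r ≤ s) {z : ℂ} {ρ : ℝ}
    (hz : infDist z (Bx (Icc (p : ℝ) q) (Icc (r : ℝ) s)) ≤ ρ) :
    (p : ℝ) - ρ ≤ z.re ∧ z.re ≤ q + ρ ∧ (r : ℝ) - ρ ≤ z.im ∧ z.im ≤ s + ρ := by
  have hpq' : (p : ℝ) ≤ q := by exact_mod_cast hpq
  have hrs' : (r : ℝ) ≤ s := by exact_mod_cast hrs
  have h1 := pr_mem_box hpq' hrs' z
  rw [infDist_box hpq' hrs'] at hz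
  set w := pr (p : ℝ) q r s z with hw
  have h2 : |z.re - w.re| ≤ ρ := by
    refine le_trans ?_ hz
    rw [dist_eq_norm, ← Complex.sub_re]
    exact Complex.abs_re_le_norm _
  have h3 : |z.im - w.im| ≤ ρ := by
    refine le_trans ?_ hz
    rw [dist_eq_norm, ← Complex.sub_im]
    exact Complex.abs_im_le_norm _
  obtain ⟨⟨h4, h5⟩, h6, h7⟩ := h1
  rw [abs_le] at h2 h3
  refine ⟨?_, ?_, ?_, ?_⟩ <;> linarith [h2.1, h2.2, h3.1, h3.2]

theorem EB_close (h : θ ∈ EB M N) (h' : θ' ∈ EB M N) (hne : θ ≠ θ') {z : ℂ} {r : ℝ} (hr : r < 1 / 2)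
    (hz : infDist z θ ≤ r) (hz' : infDist z θ' ≤ r) :
    ∃ v ∈ VB M N, θ ∩ θ' = {v} ∧ dist z v ≤ √2 * r := by
  have hm : (θ ∩ θ').Nonempty := by
    obtain ⟨p', q', u', v', e', h1', -⟩ := EB_form h'
    have hpq' : (p' : ℝ) ≤ q' := by exact_mod_cast (show p' ≤ q' by omega)
    have hrs' : (u' : ℝ) ≤ v' := by exact_mod_cast (show u' ≤ v' by omega)
    have hw : pr p' q' u' v' z ∈ θ' := by
      rw [e']
      exact pr_mem_box hpq' hrs' z
    have hd : dist z (pr p' q' u' v' z) ≤ r := by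
      rw [← infDist_box hpq' hrs', ← e']
      exact hz'
    refine EB_meet h h' hw ?_
    have h2 : infDist (pr p' q' u' v' z) θ ≤ infDist z θ + dist (pr p' q' u' v' z) z := infDist_le_infDist_add_dist
    rw [dist_comm] at hd
    linarith
  obtain ⟨p, q, u, v, e, h1, h2, h3, h4, h5⟩ := EB_form h
  obtain ⟨p', q', u', v', e', h1', h2', h3', h4', h5'⟩ := EB_form h'
  have hn := a3_near (z := z) (ρ := r) (show p ≤ q by omega) (show u ≤ v by omega) (by rw [← e]; exact hz)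
  have hn' := a3_near (z := z) (ρ := r) (show p' ≤ q' by omega) (show u' ≤ v' by omega) (by rw [← e']; exact hz')
  obtain ⟨c, hc, hc'⟩ := hm
  rw [e] at hc
  rw [e'] at hc'
  obtain ⟨⟨c1, c2⟩, c3, c4⟩ := hc
  obtain ⟨⟨c1', c2'⟩, c3', c4'⟩ := hc'
  have i1 : p ≤ q' := by exact_mod_cast c1.trans c2'
  have i2 : p' ≤ q := by exact_mod_cast c1'.trans c2
  have i3 : u ≤ v' := by exact_mod_cast c3.trans c4'
  have i4 : u' ≤ v := by exact_mod_cast c3'.trans c4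
  have hne' : ¬ (p = p' ∧ q = q' ∧ u = u' ∧ v = v') := by
    rintro ⟨rfl, rfl, rfl, rfl⟩
    exact hne (e.trans e'.symm)
  obtain ⟨P, hP1, hP2, hP3, hP4, hP5⟩ : ∃ P : ℤ, p ≤ P ∧ p' ≤ P ∧ P ≤ q ∧ P ≤ q' ∧ ((P = p ∨ P = p') ∧ (P = q ∨ P = q')) :=
    ⟨max p p', by omega, by omega, by omega, by omega, by omega⟩
  obtain ⟨Q, hQ1, hQ2, hQ3, hQ4, hQ5⟩ : ∃ Q : ℤ, u ≤ Q ∧ u' ≤ Q ∧ Q ≤ v ∧ Q ≤ v' ∧ ((Q = u ∨ Q = u') ∧ (Q = v ∨ Q = v')) :=
    ⟨max u u', by omega, by omega, by omega, by omega, by omega⟩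
  have lo : ∀ {x t : ℝ} {a a' A : ℤ}, (A = a ∨ A = a') → (a : ℝ) - t ≤ x → (a' : ℝ) - t ≤ x → (A : ℝ) - t ≤ x := by
    rintro x t a a' A (rfl | rfl) h1 h2
    · exact h1
    · exact h2
  have hi : ∀ {x t : ℝ} {a a' A : ℤ}, (A = a ∨ A = a') → x ≤ (a : ℝ) + t → x ≤ (a' : ℝ) + t → x ≤ (A : ℝ) + t := by
    rintro x t a a' A (rfl | rfl) h1 h2
    · exact h1
    · exact h2
  refine ⟨⟨P, Q⟩, ⟨P, Q, by omega, by omega, by omega, by omega, rfl⟩, ?_, ?_⟩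
  · ext w
    rw [e, e', mem_singleton_iff]
    constructor
    · rintro ⟨⟨⟨w1, w2⟩, w3, w4⟩, ⟨w1', w2'⟩, w3', w4'⟩
      have a1 := lo (x := w.re) (t := 0) hP5.1 (by linarith) (by linarith)
      have a2 := hi (x := w.re) (t := 0) hP5.2 (by linarith) (by linarith)
      have a3 := lo (x := w.im) (t := 0) hQ5.1 (by linarith) (by linarith)
      have a4 := hi (x := w.im) (t := 0) hQ5.2 (by linarith) (by linarith)
      apply Complex.ext
      · simp only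
        linarith
      · simp only
        linarith
    · rintro rfl
      have b1 : (p : ℝ) ≤ P := by exact_mod_cast hP1
      have b2 : (p' : ℝ) ≤ P := by exact_mod_cast hP2
      have b3 : (P : ℝ) ≤ q := by exact_mod_cast hP3
      have b4 : (P : ℝ) ≤ q' := by exact_mod_cast hP4
      have b5 : (u : ℝ) ≤ Q := by exact_mod_cast hQ1
      have b6 : (u' : ℝ) ≤ Q := by exact_mod_cast hQ2
      have b7 : (Q : ℝ) ≤ v := by exact_mod_cast hQ3
      have b8 : (Q : ℝ) ≤ v' := by exact_mod_cast hQ4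
      exact ⟨⟨⟨b1, b3⟩, b5, b7⟩, ⟨b2, b4⟩, b6, b8⟩
  · have a1 := lo (x := z.re) (t := r) hP5.1 hn.1 hn'.1
    have a2 := hi (x := z.re) (t := r) hP5.2 hn.2.1 hn'.2.1
    have a3 := lo (x := z.im) (t := r) hQ5.1 hn.2.2.1 hn'.2.2.1
    have a4 := hi (x := z.im) (t := r) hQ5.2 hn.2.2.2 hn'.2.2.2
    have r0 : 0 ≤ r := infDist_nonneg.trans hz
    rw [Complex.dist_eq_re_im]
    have e2 : √2 * r = √(2 * r ^ 2) := by
      rw [Real.sqrt_mul (by norm_num), Real.sqrt_sq r0]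
    rw [e2]
    apply Real.sqrt_le_sqrt
    have b1 : (z.re - P) ^ 2 ≤ r ^ 2 := by
      apply sq_le_sq'
      · linarith
      · linarith
    have b2 : (z.im - Q) ^ 2 ≤ r ^ 2 := by
      apply sq_le_sq'
      · linarith
      · linarith
    linarith

end Pool.N0
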