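import Pool.Agent.N0.A3

/-!
MODULE A4 (difficulty 3).  The wall is a finite graph.

RECIPE.  Finiteness: images of finite sets of pairs of integers.  `hE_arc`, `vE_arc`: `γ t = ⟨a + t, b⟩`, `γ t = ⟨a, b + t⟩`.  `e ∩ VB`: the integers in `[a, a + 1]` are `a` and `a + 1` (casts).  `inter`: `EB_close` with `r = 0` for a common point `z` of the two edges: `dist z v ≤ 0`.
`vert`: the vertex `⟨a, b⟩` is in `hE a b` if `a < 2 M`, in `hE (a - 1) b` if `a = 2 M` (`1 ≤ M`).
-/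

open Set Metric Topology

namespace Pool.N0

variable {M N : ℤ}

theorem hE_arc (a b : ℤ) : JS.ArcX (hE a b) (⟨a, b⟩ : ℂ) (⟨a + 1, b⟩ : ℂ) := by
  refine ⟨fun t => (⟨a, b⟩ : ℂ) + (t : ℂ), ?_, ?_, ?_, ?_, ?_⟩
  · apply Continuous.continuousOn
    fun_prop
  · intro t _ t' _ h
    exact Complex.ofReal_injective (add_left_cancel h)
  · ext z
    constructor
    · rintro ⟨t, ⟨ht0, ht1⟩, rfl⟩
      simp only [hE, Bx, mem_ofPred_eq, Complex.add_re, Complex.ofReal_re, Complex.add_im, Complex.ofReal_im, add_zero,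
        mem_Icc, le_refl, and_self, and_true]
      constructor <;> linarith
    · rintro ⟨⟨h1, h2⟩, h3, h4⟩
      refine ⟨z.re - a, ⟨by linarith, by linarith⟩, ?_⟩
      apply Complex.ext
      · simp
      · simp only [Complex.add_im, Complex.ofReal_im, add_zero]
        exact le_antisymm h3 h4
  · simp
  · apply Complex.ext <;> simp

theorem vE_arc (a b : ℤ) : JS.ArcX (vE a b) (⟨a, b⟩ : ℂ) (⟨a, b + 1⟩ : ℂ) := by
  refine ⟨fun t => (⟨a, b⟩ : ℂ) + (t : ℂ) * Complex.I, ?_, ?_, ?_, ?_, ?_⟩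
  · apply Continuous.continuousOn
    fun_prop
  · intro t _ t' _ h
    exact Complex.ofReal_injective (mul_right_cancel₀ Complex.I_ne_zero (add_left_cancel h))
  · ext z
    constructor
    · rintro ⟨t, ⟨ht0, ht1⟩, rfl⟩
      simp only [vE, Bx, mem_ofPred_eq, Complex.add_re, Complex.mul_re, Complex.ofReal_re, Complex.I_re, mul_zero,
        Complex.ofReal_im, Complex.I_im, mul_one, sub_self, add_zero, Complex.add_im, Complex.mul_im,
        mem_Icc, le_refl, and_self, true_and]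
      constructor <;> linarith
    · rintro ⟨⟨h1, h2⟩, h3, h4⟩
      refine ⟨z.im - b, ⟨by linarith, by linarith⟩, ?_⟩
      apply Complex.ext
      · simp only [Complex.add_re, Complex.mul_re, Complex.ofReal_re, Complex.I_re, mul_zero, Complex.ofReal_im,
          Complex.I_im, mul_one, sub_self, add_zero]
        exact le_antisymm h1 h2
      · simp
  · simp
  · apply Complex.ext <;> simp

private theorem a4_finV (M N : ℤ) : (VB M N).Finite := by
  refine (((finite_Icc (0 : ℤ) (2 * M)).prod (finite_Icc (0 : ℤ) N)).image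
    (fun x : ℤ × ℤ => (⟨x.1, x.2⟩ : ℂ))).subset ?_
  rintro z ⟨a, b, h1, h2, h3, h4, rfl⟩
  exact ⟨(a, b), ⟨⟨h1, h2⟩, h3, h4⟩, rfl⟩

private theorem a4_finE (M N : ℤ) : (EB M N).Finite := by
  refine ((((finite_Icc (0 : ℤ) (2 * M)).prod (finite_Icc (0 : ℤ) N)).image
    (fun x : ℤ × ℤ => hE x.1 x.2)).union (((finite_Icc (0 : ℤ) (2 * M)).prod (finite_Icc (0 : ℤ) N)).image
    (fun x : ℤ × ℤ => vE x.1 x.2))).subset ?_
  rintro e (⟨a, b, h1, h2, h3, h4, rfl⟩ | ⟨a, b, h1, h2, h3, h4, -, rfl⟩)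
  · exact Or.inl ⟨(a, b), ⟨⟨h1, h2.le⟩, h3, h4⟩, rfl⟩
  · exact Or.inr ⟨(a, b), ⟨⟨h1, h2⟩, h3, h4.le⟩, rfl⟩

theorem grX_wall (hM : 1 ≤ M) (hN : 1 ≤ N) : JS.GrX (VB M N) (EB M N) where
  finV := a4_finV M N
  finE := a4_finE M N
  arc := by
    rintro e (⟨a, b, h1, h2, h3, h4, rfl⟩ | ⟨a, b, h1, h2, h3, h4, -, rfl⟩)
    · have e1 : (⟨a, b⟩ : ℂ) ∈ VB M N := ⟨a, b, h1, h2.le, h3, h4, rfl⟩
      have e2 : (⟨a + 1, b⟩ : ℂ) ∈ VB M N := ⟨a + 1, b, by omega, by omega, h3, h4, by push_cast; rfl⟩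
      refine ⟨_, e1, _, e2, hE_arc a b, ?_⟩
      ext z
      constructor
      · rintro ⟨⟨⟨k1, k2⟩, k3, k4⟩, c, d, l1, l2, l3, l4, rfl⟩
        simp only at k1 k2 k3 k4
        have i1 : a ≤ c := by exact_mod_cast k1
        have i2 : c ≤ a + 1 := by exact_mod_cast k2
        have i3 : b = d := by
          apply le_antisymm
          · exact_mod_cast k3
          · exact_mod_cast k4
        subst i3
        rcases (show c = a ∨ c = a + 1 by omega) with rfl | rfl
        · exact Or.inl rfl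
        · right
          push_cast
          rfl
      · rintro (rfl | rfl)
        · exact ⟨⟨⟨le_refl _, by simp⟩, le_refl _, le_refl _⟩, e1⟩
        · exact ⟨⟨⟨by simp, le_refl _⟩, le_refl _, le_refl _⟩, e2⟩
    · have e1 : (⟨a, b⟩ : ℂ) ∈ VB M N := ⟨a, b, h1, h2, h3, h4.le, rfl⟩
      have e2 : (⟨a, b + 1⟩ : ℂ) ∈ VB M N := ⟨a, b + 1, h1, h2, by omega, by omega, by push_cast; rfl⟩
      refine ⟨_, e1, _, e2, vE_arc a b, ?_⟩
      ext z
      constructor
      · rintro ⟨⟨⟨k1, k2⟩, k3, k4⟩, c, d, l1, l2, l3, l4, rfl⟩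
        simp only at k1 k2 k3 k4
        have i1 : b ≤ d := by exact_mod_cast k3
        have i2 : d ≤ b + 1 := by exact_mod_cast k4
        have i3 : a = c := by
          apply le_antisymm
          · exact_mod_cast k1
          · exact_mod_cast k2
        subst i3
        rcases (show d = b ∨ d = b + 1 by omega) with rfl | rfl
        · exact Or.inl rfl
        · right
          push_cast
          rfl
      · rintro (rfl | rfl)
        · exact ⟨⟨⟨le_refl _, le_refl _⟩, le_refl _, by simp⟩, e1⟩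
        · exact ⟨⟨⟨le_refl _, le_refl _⟩, by simp, le_refl _⟩, e2⟩
  inter := by
    rintro e he e' he' hne z ⟨hz, hz'⟩
    obtain ⟨v, hv, h1, -⟩ := EB_close he he' hne (z := z) (r := 0) (by norm_num)
      (infDist_zero_of_mem hz).le (infDist_zero_of_mem hz').le
    have : z ∈ ({v} : Set ℂ) := h1 ▸ ⟨hz, hz'⟩
    rw [mem_singleton_iff.1 this]
    exact hv

theorem vert_wall (hM : 1 ≤ M) (hN : 1 ≤ N) {v : ℂ} (hv : v ∈ VB M N) : ∃ e ∈ EB M N, v ∈ e := by
  obtain ⟨a, b, h1, h2, h3, h4, rfl⟩ := hv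
  rcases h2.lt_or_eq with h | h
  · refine ⟨hE a b, Or.inl ⟨a, b, h1, h, h3, h4, rfl⟩, ⟨⟨le_refl _, by simp⟩, le_refl _, le_refl _⟩⟩
  · refine ⟨hE (a - 1) b, Or.inl ⟨a - 1, b, by omega, by omega, h3, h4, rfl⟩, ⟨⟨?_, ?_⟩, le_refl _, le_refl _⟩⟩
    · push_cast
      simp
    · push_cast
      simp

end Pool.N0
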