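import Pool.Agent.N0.A3

/-!
MODULE A5 (difficulty 2).  Valences; the wall is simple; edges are compact convex sets.
-/

open Set Metric Topology

namespace Pool.N0

variable {M N : ℤ}

/-- an integer unit edge with its two lattice points -/
private theorem a5_form {e : Set ℂ} (he : e ∈ EB M N) : ∃ a b : ℤ,
    ((e = hE a b ∧ 0 ≤ a ∧ a < 2 * M ∧ 0 ≤ b ∧ b ≤ N) ∨
      (e = vE a b ∧ 0 ≤ a ∧ a ≤ 2 * M ∧ 0 ≤ b ∧ b < N ∧ (Even (a + b) ∨ a = 0 ∨ a = 2 * M))) := by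
  rcases he with ⟨a, b, h1, h2, h3, h4, rfl⟩ | ⟨a, b, h1, h2, h3, h4, h5, rfl⟩
  · exact ⟨a, b, Or.inl ⟨rfl, h1, h2, h3, h4⟩⟩
  · exact ⟨a, b, Or.inr ⟨rfl, h1, h2, h3, h4, h5⟩⟩

private theorem a5_mem_h {a b c d : ℤ} : ((⟨(c : ℝ), (d : ℝ)⟩ : ℂ) ∈ hE a b) ↔ (c = a ∨ c = a + 1) ∧ d = b := by
  simp only [hE, Bx, mem_ofPred_eq, mem_Icc]
  constructor
  · rintro ⟨⟨h1, h2⟩, h3, h4⟩
    have h1' : a ≤ c := by exact_mod_cast h1
    have h2' : c ≤ a + 1 := by exact_mod_cast h2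
    have h3' : b ≤ d := by exact_mod_cast h3
    have h4' : d ≤ b := by exact_mod_cast h4
    refine ⟨?_, ?_⟩ <;> omega
  · rintro ⟨h, rfl⟩
    refine ⟨?_, le_rfl, le_rfl⟩
    rcases h with rfl | rfl <;> push_cast <;> constructor <;> linarith

private theorem a5_mem_v {a b c d : ℤ} : ((⟨(c : ℝ), (d : ℝ)⟩ : ℂ) ∈ vE a b) ↔ c = a ∧ (d = b ∨ d = b + 1) := by
  simp only [vE, Bx, mem_ofPred_eq, mem_Icc]
  constructor
  · rintro ⟨⟨h1, h2⟩, h3, h4⟩
    have h1' : a ≤ c := by exact_mod_cast h1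
    have h2' : c ≤ a := by exact_mod_cast h2
    have h3' : b ≤ d := by exact_mod_cast h3
    have h4' : d ≤ b + 1 := by exact_mod_cast h4
    refine ⟨?_, ?_⟩ <;> omega
  · rintro ⟨rfl, h⟩
    refine ⟨⟨le_rfl, le_rfl⟩, ?_⟩
    rcases h with rfl | rfl <;> push_cast <;> constructor <;> linarith

theorem valence {v : ℂ} (hv : v ∈ VB M N) : {e ∈ EB M N | v ∈ e}.ncard ≤ 3 := by
  obtain ⟨a, b, ha, ha', hb, hb', rfl⟩ := hv
  have key : ∃ x y z : Set ℂ, {e ∈ EB M N | (⟨(a : ℝ), (b : ℝ)⟩ : ℂ) ∈ e} ⊆ {x, y, z} := by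
    by_cases h0 : a = 0
    · refine ⟨hE a b, vE a b, vE a (b - 1), ?_⟩
      rintro e ⟨he, hm⟩
      simp only [mem_insert_iff, mem_singleton_iff]
      obtain ⟨p, q, ⟨rfl, h1, h2, h3, h4⟩ | ⟨rfl, h1, h2, h3, h4, h5⟩⟩ := a5_form he
      · rw [a5_mem_h] at hm
        obtain ⟨h6, rfl⟩ := hm
        left
        rcases h6 with rfl | h6
        · rfl
        · omega
      · rw [a5_mem_v] at hm
        obtain ⟨rfl, h6⟩ := hm
        right
        rcases h6 with rfl | rfl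
        · left; rfl
        · right; congr 1; ring
    by_cases h0' : a = 2 * M
    · refine ⟨hE (a - 1) b, vE a b, vE a (b - 1), ?_⟩
      rintro e ⟨he, hm⟩
      simp only [mem_insert_iff, mem_singleton_iff]
      obtain ⟨p, q, ⟨rfl, h1, h2, h3, h4⟩ | ⟨rfl, h1, h2, h3, h4, h5⟩⟩ := a5_form he
      · rw [a5_mem_h] at hm
        obtain ⟨h6, rfl⟩ := hm
        left
        rcases h6 with rfl | h6
        · omega
        · congr 1; omega
      · rw [a5_mem_v] at hm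
        obtain ⟨rfl, h6⟩ := hm
        right
        rcases h6 with rfl | rfl
        · left; rfl
        · right; congr 1; ring
    refine ⟨hE a b, hE (a - 1) b, vE a (if Even (a + b) then b else b - 1), ?_⟩
    rintro e ⟨he, hm⟩
    simp only [mem_insert_iff, mem_singleton_iff]
    obtain ⟨p, q, ⟨rfl, h1, h2, h3, h4⟩ | ⟨rfl, h1, h2, h3, h4, h5⟩⟩ := a5_form he
    · rw [a5_mem_h] at hm
      obtain ⟨h6, rfl⟩ := hm
      rcases h6 with rfl | h6
      · left; rfl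
      · right; left; congr 1; omega
    · rw [a5_mem_v] at hm
      obtain ⟨rfl, h6⟩ := hm
      have h7 : Even (a + q) := by
        rcases h5 with h5 | h5 | h5
        · exact h5
        · exact absurd h5 h0
        · exact absurd h5 h0'
      right; right
      rcases h6 with rfl | rfl
      · rw [if_pos h7]
      · rw [if_neg]
        · congr 1; ring
        · intro h8
          have h9 : Even ((a + (q + 1)) - (a + q)) := h8.sub h7
          have h10 : (a + (q + 1)) - (a + q) = 1 := by ring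
          rw [h10] at h9
          exact absurd h9 (by decide)
  obtain ⟨x, y, z, hxyz⟩ := key
  refine (ncard_le_ncard hxyz (by simp)).trans ?_
  refine (ncard_insert_le _ _).trans ?_
  have h1 := ncard_insert_le y ({z} : Set (Set ℂ))
  rw [ncard_singleton] at h1
  omega

theorem simple {e e' : Set ℂ} (he : e ∈ EB M N) (he' : e' ∈ EB M N) (h : e ∩ VB M N = e' ∩ VB M N) : e = e' := by
  have hV : ∀ {c d : ℤ}, 0 ≤ c → c ≤ 2 * M → 0 ≤ d → d ≤ N → (⟨(c : ℝ), (d : ℝ)⟩ : ℂ) ∈ e →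
      (⟨(c : ℝ), (d : ℝ)⟩ : ℂ) ∈ e' := by
    intro c d h1 h2 h3 h4 h5
    have : (⟨(c : ℝ), (d : ℝ)⟩ : ℂ) ∈ e ∩ VB M N := ⟨h5, c, d, h1, h2, h3, h4, rfl⟩
    rw [h] at this
    exact this.1
  obtain ⟨p, q, ⟨rfl, h1, h2, h3, h4⟩ | ⟨rfl, h1, h2, h3, h4, h5⟩⟩ := a5_form he
  · have k1 := hV (c := p) (d := q) h1 (by omega) h3 h4 (a5_mem_h.2 ⟨Or.inl rfl, rfl⟩)
    have k2 := hV (c := p + 1) (d := q) (by omega) (by omega) h3 h4 (a5_mem_h.2 ⟨Or.inr rfl, rfl⟩)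
    obtain ⟨p', q', ⟨rfl, -⟩ | ⟨rfl, -⟩⟩ := a5_form he'
    · rw [a5_mem_h] at k1 k2
      obtain ⟨k3, rfl⟩ := k1
      obtain ⟨k4, -⟩ := k2
      have : p = p' := by omega
      rw [this]
    · rw [a5_mem_v] at k1 k2
      omega
  · have k1 := hV (c := p) (d := q) h1 (by omega) h3 (by omega) (a5_mem_v.2 ⟨rfl, Or.inl rfl⟩)
    have k2 := hV (c := p) (d := q + 1) (by omega) (by omega) (by omega) (by omega) (a5_mem_v.2 ⟨rfl, Or.inr rfl⟩)
    obtain ⟨p', q', ⟨rfl, -⟩ | ⟨rfl, -⟩⟩ := a5_form he'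
    · rw [a5_mem_h] at k1 k2
      omega
    · rw [a5_mem_v] at k1 k2
      obtain ⟨rfl, k3⟩ := k1
      obtain ⟨-, k4⟩ := k2
      have : q = q' := by omega
      rw [this]

theorem EB_compact {e : Set ℂ} (he : e ∈ EB M N) : IsCompact e ∧ Convex ℝ e ∧ e.Nonempty := by
  obtain ⟨a, b, ⟨rfl, -⟩ | ⟨rfl, -⟩⟩ := a5_form he
  · exact ⟨isCompact_Bx _ _ _ _, convex_Bx ordConnected_Icc ordConnected_Icc, ⟨_, a5_mem_h.2 ⟨Or.inl rfl, rfl⟩⟩⟩
  · exact ⟨isCompact_Bx _ _ _ _, convex_Bx ordConnected_Icc ordConnected_Icc, ⟨_, a5_mem_v.2 ⟨rfl, Or.inl rfl⟩⟩⟩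

theorem EB_dist {e : Set ℂ} (he : e ∈ EB M N) {z w : ℂ} (hz : z ∈ e) (hw : w ∈ e) : dist z w ≤ 1 := by
  rw [Complex.dist_eq_re_im]
  apply Real.sqrt_le_one.2
  obtain ⟨a, b, ⟨rfl, -⟩ | ⟨rfl, -⟩⟩ := a5_form he
  · obtain ⟨⟨h1, h2⟩, h3, h4⟩ := hz
    obtain ⟨⟨k1, k2⟩, k3, k4⟩ := hw
    have h5 : z.im - w.im = 0 := by linarith
    rw [h5]
    nlinarith
  · obtain ⟨⟨h1, h2⟩, h3, h4⟩ := hz
    obtain ⟨⟨k1, k2⟩, k3, k4⟩ := hw
    have h5 : z.re - w.re = 0 := by linarith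
    rw [h5]
    nlinarith

/-- the end points of an edge have distance one -/
theorem EB_ends {e : Set ℂ} (he : e ∈ EB M N) : ∃ v ∈ VB M N, ∃ w ∈ VB M N, e ∩ VB M N = {v, w} ∧ dist v w = 1 ∧
    e = segment ℝ v w := by
  obtain ⟨a, b, ⟨rfl, h1, h2, h3, h4⟩ | ⟨rfl, h1, h2, h3, h4, h5⟩⟩ := a5_form he
  · refine ⟨⟨(a : ℝ), (b : ℝ)⟩, ⟨a, b, h1, by omega, h3, h4, rfl⟩, ⟨((a + 1 : ℤ) : ℝ), (b : ℝ)⟩,
      ⟨a + 1, b, by omega, by omega, h3, h4, rfl⟩, ?_, ?_, ?_⟩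
    · ext z
      simp only [mem_inter_iff, mem_insert_iff, mem_singleton_iff]
      constructor
      · rintro ⟨hz, c, d, -, -, -, -, rfl⟩
        rw [a5_mem_h] at hz
        obtain ⟨rfl | rfl, rfl⟩ := hz
        · left; rfl
        · right; rfl
      · rintro (rfl | rfl)
        · exact ⟨a5_mem_h.2 ⟨Or.inl rfl, rfl⟩, a, b, h1, by omega, h3, h4, rfl⟩
        · exact ⟨a5_mem_h.2 ⟨Or.inr rfl, rfl⟩, a + 1, b, by omega, by omega, h3, h4, rfl⟩
    · rw [Complex.dist_eq_re_im]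
      push_cast
      simp
    · ext z
      rw [segment_eq_image_lineMap, mem_image]
      constructor
      · rintro ⟨⟨k1, k2⟩, k3, k4⟩
        refine ⟨z.re - a, ⟨by linarith, by linarith⟩, ?_⟩
        apply Complex.ext
        · simp [AffineMap.lineMap_apply]
        · simp [AffineMap.lineMap_apply]; linarith
      · rintro ⟨t, ⟨k1, k2⟩, rfl⟩
        simp only [hE, Bx, mem_ofPred_eq, mem_Icc]
        simp [AffineMap.lineMap_apply]
        exact ⟨k1, by linarith⟩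
  · refine ⟨⟨(a : ℝ), (b : ℝ)⟩, ⟨a, b, h1, h2, h3, by omega, rfl⟩, ⟨(a : ℝ), ((b + 1 : ℤ) : ℝ)⟩,
      ⟨a, b + 1, by omega, by omega, by omega, by omega, rfl⟩, ?_, ?_, ?_⟩
    · ext z
      simp only [mem_inter_iff, mem_insert_iff, mem_singleton_iff]
      constructor
      · rintro ⟨hz, c, d, -, -, -, -, rfl⟩
        rw [a5_mem_v] at hz
        obtain ⟨rfl, rfl | rfl⟩ := hz
        · left; rfl
        · right; rfl
      · rintro (rfl | rfl)
        · exact ⟨a5_mem_v.2 ⟨rfl, Or.inl rfl⟩, a, b, h1, h2, h3, by omega, rfl⟩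
        · exact ⟨a5_mem_v.2 ⟨rfl, Or.inr rfl⟩, a, b + 1, by omega, by omega, by omega, by omega, rfl⟩
    · rw [Complex.dist_eq_re_im]
      push_cast
      simp
    · ext z
      rw [segment_eq_image_lineMap, mem_image]
      constructor
      · rintro ⟨⟨k1, k2⟩, k3, k4⟩
        refine ⟨z.im - b, ⟨by linarith, by linarith⟩, ?_⟩
        apply Complex.ext
        · simp [AffineMap.lineMap_apply]; linarith
        · simp [AffineMap.lineMap_apply]
      · rintro ⟨t, ⟨k1, k2⟩, rfl⟩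
        simp only [vE, Bx, mem_ofPred_eq, mem_Icc]
        simp [AffineMap.lineMap_apply]
        exact ⟨k1, by linarith⟩

end Pool.N0
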