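import Pool.Agent.N0.A2

/-!
MODULE A6 (difficulty 3).  The faces of the wall.

RECIPE.  A brick is `Bx (Ioo c d) (Ioo b (b + 1))` with integers `c = max a 0 < d = min (a + 2) (2 M)`; `closure_Bx`, `frontier_Bx`.  `disjoint`: a point `z` of the brick has `z.im ∈ (b, b + 1)`, so it is not on a horizontal edge (integer imaginary part), and if it is on a vertical edge `vE a' b'`,
then `b' = b` and `a' = z.re ∈ (c, d)` so `a' = a + 1`, which is not `0` or `2 M` and `a' + b` is odd.  `frontier`: the bottom `[c, d] × {b}` and the top are covered by horizontal edges (`⌊z.re⌋` or `⌊z.re⌋ - 1`), the left side is `{c} × [b, b + 1] = vE c b` with `c = a` (`Even (a + b)`) or `c = 0`,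
the right side is `vE d b` with `d = a + 2` or `d = 2 M`.  `OB`: complement of a closed box, the frontier is contained in the four sides.
`cover`: if `z ∉ OB` then `0 ≤ z.re ≤ 2 M`, `0 ≤ z.im ≤ N`; `z.im` is not an integer (otherwise `z` is on a horizontal edge); `b = ⌊z.im⌋`; `a = ⌊z.re⌋` if `Even (⌊z.re⌋ + b)` and `a = ⌊z.re⌋ - 1` otherwise.  `z.re ≠ 0, 2 M`, and `z.re ≠ a` since otherwise `z ∈ vE a b`.
`small`: the brick has width at most 2 and height 1.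
-/

open Set Metric Topology

namespace Pool.N0

variable {M N : ℤ}

theorem a6_box {U : Set ℂ} (hM : 1 ≤ M) (hU : U ∈ FB M N) : ∃ c d b : ℤ, c < d ∧ d ≤ c + 2 ∧ 0 ≤ c ∧ d ≤ 2 * M ∧
    0 ≤ b ∧ b < N ∧ U = Bx (Ioo (c : ℝ) d) (Ioo (b : ℝ) (b + 1)) ∧ (Even (c + b) ∨ c = 0) ∧
    (Even (d + b) ∨ d = 2 * M) ∧ ∀ a : ℤ, c < a → a < d → ¬ Even (a + b) ∧ a ≠ 0 ∧ a ≠ 2 * M := by
  obtain ⟨a, b, h1, h2, h3, h4, h5, h6⟩ := hU
  refine ⟨max a 0, min (a + 2) (2 * M), b, ?_, ?_, ?_, ?_, h3, h4, h6, ?_, ?_, ?_⟩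
  · omega
  · omega
  · omega
  · omega
  · rcases le_or_gt 0 a with h | h
    · left
      rw [max_eq_left h]
      exact h5
    · right
      exact max_eq_right h.le
  · rcases le_or_gt (a + 2) (2 * M) with h | h
    · left
      rw [min_eq_left h, show a + 2 + b = a + b + 2 by ring]
      exact h5.add (by decide)
    · right
      exact min_eq_right h.le
  · intro a' h7 h8
    have h9 : a' = a + 1 := by omega
    refine ⟨?_, by omega, by omega⟩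
    rw [h9, show a + 1 + b = a + b + 1 by ring, Int.not_even_iff_odd]
    exact h5.add_one

/-- points at integer height -/
theorem a6_hor (hM : 1 ≤ M) {z : ℂ} {b : ℤ} (h1 : 0 ≤ z.re) (h2 : z.re ≤ 2 * M) (hb : 0 ≤ b) (hbN : b ≤ N)
    (h3 : z.im = b) : z ∈ ⋃₀ EB M N := by
  have him : z.im ∈ Icc (b : ℝ) b := by
    rw [h3]
    exact ⟨le_rfl, le_rfl⟩
  have hf0 : 0 ≤ ⌊z.re⌋ := Int.floor_nonneg.mpr h1
  rcases lt_or_ge ⌊z.re⌋ (2 * M) with h | h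
  · exact ⟨hE ⌊z.re⌋ b, Or.inl ⟨⌊z.re⌋, b, hf0, h, hb, hbN, rfl⟩,
      ⟨Int.floor_le _, (Int.lt_floor_add_one _).le⟩, him⟩
  · have h4 : ((2 * M : ℤ) : ℝ) ≤ z.re := (Int.cast_le.mpr h).trans (Int.floor_le _)
    have h5 : ((2 * M : ℤ) : ℝ) = 2 * (M : ℝ) := by push_cast; ring
    rw [h5] at h4
    have h6 : z.re = 2 * M := le_antisymm h2 h4
    refine ⟨hE (2 * M - 1) b, Or.inl ⟨2 * M - 1, b, by omega, by omega, hb, hbN, rfl⟩, ⟨?_, ?_⟩, him⟩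
    · rw [h6]
      push_cast
      linarith
    · rw [h6]
      push_cast
      linarith

/-- points on the left and on the right side -/
theorem a6_ver (hN : 1 ≤ N) (hM : 1 ≤ M) {z : ℂ} {a : ℤ} (ha : a = 0 ∨ a = 2 * M) (h1 : 0 ≤ z.im) (h2 : z.im ≤ N)
    (h3 : z.re = a) : z ∈ ⋃₀ EB M N := by
  have hre : z.re ∈ Icc (a : ℝ) a := by
    rw [h3]
    exact ⟨le_rfl, le_rfl⟩
  have ha0 : 0 ≤ a := by omega
  have ha1 : a ≤ 2 * M := by omega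
  have hf0 : 0 ≤ ⌊z.im⌋ := Int.floor_nonneg.mpr h1
  rcases lt_or_ge ⌊z.im⌋ N with h | h
  · exact ⟨vE a ⌊z.im⌋, Or.inr ⟨a, ⌊z.im⌋, ha0, ha1, hf0, h, Or.inr ha, rfl⟩, hre,
      ⟨Int.floor_le _, (Int.lt_floor_add_one _).le⟩⟩
  · have h4 : (N : ℝ) ≤ z.im := (Int.cast_le.mpr h).trans (Int.floor_le _)
    have h6 : z.im = N := le_antisymm h2 h4
    refine ⟨vE a (N - 1), Or.inr ⟨a, N - 1, ha0, ha1, by omega, by omega, Or.inr ha, rfl⟩, hre, ⟨?_, ?_⟩⟩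
    · rw [h6]
      push_cast
      linarith
    · rw [h6]
      push_cast
      linarith

theorem FB_box {U : Set ℂ} (hM : 1 ≤ M) (hU : U ∈ FB M N) : ∃ c d b : ℤ, c < d ∧ d ≤ c + 2 ∧ 0 ≤ c ∧ d ≤ 2 * M ∧
    0 ≤ b ∧ b < N ∧ U = Bx (Ioo (c : ℝ) d) (Ioo (b : ℝ) (b + 1)) ∧
    closure U = Bx (Icc (c : ℝ) d) (Icc (b : ℝ) ((b + 1 : ℤ) : ℝ)) := by
  obtain ⟨c, d, b, h1, h2, h3, h4, h5, h6, h7, _⟩ := a6_box hM hU
  refine ⟨c, d, b, h1, h2, h3, h4, h5, h6, h7, ?_⟩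
  rw [h7, closure_Bx (Int.cast_lt.mpr h1) (by linarith)]
  push_cast
  rfl

theorem FB_disjoint {U : Set ℂ} (hM : 1 ≤ M) (hU : U ∈ FB M N) : Disjoint U (⋃₀ EB M N) := by
  obtain ⟨c, d, b, h1, h2, h3, h4, h5, h6, h7, h8, h9, h10⟩ := a6_box hM hU
  rw [Set.disjoint_left]
  rw [h7]
  rintro z ⟨⟨z1, z2⟩, z3, z4⟩ ⟨e, he, hz⟩
  rcases he with ⟨a', b', e1, e2, e3, e4, rfl⟩ | ⟨a', b', e1, e2, e3, e4, e5, rfl⟩
  · obtain ⟨_, y1, y2⟩ := hz
    have k1 : (b : ℝ) < b' := by linarith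
    have k2 : (b' : ℝ) < (b + 1 : ℤ) := by push_cast; linarith
    have k1' : b < b' := Int.cast_lt.mp k1
    have k2' : b' < b + 1 := Int.cast_lt.mp k2
    omega
  · obtain ⟨⟨x1, x2⟩, y1, y2⟩ := hz
    have k1 : (b : ℝ) < (b' + 1 : ℤ) := by push_cast; linarith
    have k2 : (b' : ℝ) < (b + 1 : ℤ) := by push_cast; linarith
    have k1' : b < b' + 1 := Int.cast_lt.mp k1
    have k2' : b' < b + 1 := Int.cast_lt.mp k2
    have hb : b' = b := by omega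
    have l1 : (c : ℝ) < a' := by linarith
    have l2 : (a' : ℝ) < d := by linarith
    obtain ⟨m1, m2, m3⟩ := h10 a' (Int.cast_lt.mp l1) (Int.cast_lt.mp l2)
    rw [hb] at e5
    rcases e5 with e5 | e5 | e5
    · exact m1 e5
    · exact m2 e5
    · exact m3 e5

theorem FB_frontier {U : Set ℂ} (hM : 1 ≤ M) (hU : U ∈ FB M N) : frontier U ⊆ ⋃₀ EB M N := by
  obtain ⟨c, d, b, h1, h2, h3, h4, h5, h6, h7, h8, h9, h10⟩ := a6_box hM hU
  rw [h7, frontier_Bx (Int.cast_lt.mpr h1) (by linarith)]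
  rintro z ⟨⟨⟨z1, z2⟩, z3, z4⟩, hz⟩
  have c0 : (0 : ℝ) ≤ c := by exact_mod_cast h3
  have d0 : (d : ℝ) ≤ 2 * M := by exact_mod_cast h4
  by_cases a1 : z.re = c
  · refine ⟨vE c b, Or.inr ⟨c, b, h3, by omega, h5, h6, ?_, rfl⟩, ⟨?_, ?_⟩, z3, z4⟩
    · rcases h8 with h8 | h8
      · exact Or.inl h8
      · exact Or.inr (Or.inl h8)
    · exact a1.ge
    · exact a1.le
  by_cases a2 : z.re = d
  · refine ⟨vE d b, Or.inr ⟨d, b, by omega, h4, h5, h6, ?_, rfl⟩, ⟨?_, ?_⟩, z3, z4⟩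
    · rcases h9 with h9 | h9
      · exact Or.inl h9
      · exact Or.inr (Or.inr h9)
    · exact a2.ge
    · exact a2.le
  by_cases a3 : z.im = b
  · exact a6_hor hM (by linarith) (by linarith) h5 (by omega) a3
  by_cases a4 : z.im = b + 1
  · exact a6_hor (b := b + 1) hM (by linarith) (by linarith) (by omega) (by omega) (by rw [a4]; push_cast; rfl)
  exfalso
  apply hz
  exact ⟨⟨lt_of_le_of_ne z1 (Ne.symm a1), lt_of_le_of_ne z2 a2⟩, lt_of_le_of_ne z3 (Ne.symm a3),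
    lt_of_le_of_ne z4 a4⟩

theorem OB_disjoint : Disjoint (OB M N) (⋃₀ EB M N) := by
  rw [Set.disjoint_left]
  rintro z hz ⟨e, he, hze⟩
  apply hz
  rcases he with ⟨a, b, e1, e2, e3, e4, rfl⟩ | ⟨a, b, e1, e2, e3, e4, e5, rfl⟩
  · obtain ⟨⟨x1, x2⟩, y1, y2⟩ := hze
    have k1 : (0 : ℝ) ≤ a := by exact_mod_cast e1
    have k2 : (a : ℝ) + 1 ≤ ((2 * M : ℤ) : ℝ) := by
      have : a + 1 ≤ 2 * M := by omega
      exact_mod_cast this
    have k3 : (0 : ℝ) ≤ b := by exact_mod_cast e3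
    have k4 : (b : ℝ) ≤ N := by exact_mod_cast e4
    exact ⟨⟨by linarith, by linarith⟩, by linarith, by linarith⟩
  · obtain ⟨⟨x1, x2⟩, y1, y2⟩ := hze
    have k1 : (0 : ℝ) ≤ a := by exact_mod_cast e1
    have k2 : (a : ℝ) ≤ ((2 * M : ℤ) : ℝ) := by exact_mod_cast e2
    have k3 : (0 : ℝ) ≤ b := by exact_mod_cast e3
    have k4 : (b : ℝ) + 1 ≤ N := by
      have : b + 1 ≤ N := by omega
      exact_mod_cast this
    exact ⟨⟨by linarith, by linarith⟩, by linarith, by linarith⟩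

theorem OB_frontier (hM : 1 ≤ M) (hN : 1 ≤ N) : frontier (OB M N) ⊆ ⋃₀ EB M N := by
  unfold OB
  rw [frontier_compl, (isClosed_Bx isClosed_Icc isClosed_Icc).frontier_eq, interior_Bx]
  rintro z ⟨⟨⟨z1, z2⟩, z3, z4⟩, hz⟩
  have z2' : z.re ≤ 2 * M := by
    have : ((2 * M : ℤ) : ℝ) = 2 * (M : ℝ) := by push_cast; ring
    rw [← this]
    exact z2
  by_cases a1 : z.re = 0
  · exact a6_ver hN hM (a := 0) (Or.inl rfl) z3 z4 (by rw [a1]; exact Int.cast_zero.symm)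
  by_cases a2 : z.re = ((2 * M : ℤ) : ℝ)
  · exact a6_ver hN hM (a := 2 * M) (Or.inr rfl) z3 z4 a2
  by_cases a3 : z.im = 0
  · exact a6_hor hM z1 z2' le_rfl (by omega) (by rw [a3]; exact Int.cast_zero.symm)
  by_cases a4 : z.im = N
  · exact a6_hor hM z1 z2' (by omega) le_rfl a4
  exfalso
  apply hz
  exact ⟨⟨lt_of_le_of_ne z1 (Ne.symm a1), lt_of_le_of_ne z2 a2⟩, lt_of_le_of_ne z3 (Ne.symm a3),
    lt_of_le_of_ne z4 a4⟩

theorem cover (hM : 1 ≤ M) (hN : 1 ≤ N) {z : ℂ} (hz : z ∉ ⋃₀ EB M N) : (∃ U ∈ FB M N, z ∈ U) ∨ z ∈ OB M N := by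
  by_cases hO : z ∈ OB M N
  · exact Or.inr hO
  left
  have hO' : z ∈ Bx (Icc 0 ((2 * M : ℤ) : ℝ)) (Icc 0 (N : ℝ)) := by
    by_contra h
    exact hO h
  obtain ⟨⟨z1, z2⟩, z3, z4⟩ := hO'
  have hcast : ((2 * M : ℤ) : ℝ) = 2 * (M : ℝ) := by push_cast; ring
  have z2' : z.re ≤ 2 * M := by
    rw [← hcast]
    exact z2
  have r0 : z.re ≠ 0 := fun h => hz (a6_ver hN hM (a := 0) (Or.inl rfl) z3 z4 (by rw [h]; exact Int.cast_zero.symm))
  have r1 : z.re ≠ ((2 * M : ℤ) : ℝ) := fun h => hz (a6_ver hN hM (a := 2 * M) (Or.inr rfl) z3 z4 h)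
  have z1' : 0 < z.re := lt_of_le_of_ne z1 (Ne.symm r0)
  have z2'' : z.re < ((2 * M : ℤ) : ℝ) := lt_of_le_of_ne z2 r1
  have b0 : 0 ≤ ⌊z.im⌋ := Int.floor_nonneg.mpr z3
  have a0 : 0 ≤ ⌊z.re⌋ := Int.floor_nonneg.mpr z1
  have a1 : ⌊z.re⌋ < 2 * M := Int.floor_lt.mpr z2''
  have b1 : ((⌊z.im⌋ : ℤ) : ℝ) < z.im := by
    refine lt_of_le_of_ne (Int.floor_le _) fun h => ?_
    have hbN : ⌊z.im⌋ ≤ N := by
      have : ((⌊z.im⌋ : ℤ) : ℝ) ≤ N := (Int.floor_le _).trans z4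
      exact_mod_cast this
    exact hz (a6_hor hM z1 z2' b0 hbN h.symm)
  have b2 : z.im < (⌊z.im⌋ : ℤ) + 1 := Int.lt_floor_add_one _
  have bN : ⌊z.im⌋ < N := by
    have : ((⌊z.im⌋ : ℤ) : ℝ) < N := lt_of_lt_of_le b1 z4
    exact_mod_cast this
  have fl := Int.floor_le z.re
  have fl' := Int.lt_floor_add_one z.re
  by_cases he : Even (⌊z.re⌋ + ⌊z.im⌋)
  · have a2 : ((⌊z.re⌋ : ℤ) : ℝ) < z.re := by
      refine lt_of_le_of_ne fl fun h => hz ?_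
      exact ⟨vE ⌊z.re⌋ ⌊z.im⌋, Or.inr ⟨_, _, a0, a1.le, b0, bN, Or.inl he, rfl⟩, ⟨h.le, h.ge⟩, b1.le, b2.le⟩
    refine ⟨_, ⟨⌊z.re⌋, ⌊z.im⌋, by omega, a1, b0, bN, he, rfl⟩, ⟨?_, ?_⟩, b1, b2⟩
    · rw [Int.cast_max, Int.cast_zero]
      exact max_lt a2 z1'
    · rw [Int.cast_min]
      refine lt_min ?_ z2''
      push_cast
      linarith
  · have ho : Even (⌊z.re⌋ - 1 + ⌊z.im⌋) := by
      have h1 : Odd (⌊z.re⌋ + ⌊z.im⌋) := Int.not_even_iff_odd.mp he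
      rw [show ⌊z.re⌋ - 1 + ⌊z.im⌋ = ⌊z.re⌋ + ⌊z.im⌋ - 1 by ring]
      exact h1.sub_odd odd_one
    refine ⟨_, ⟨⌊z.re⌋ - 1, ⌊z.im⌋, by omega, by omega, b0, bN, ho, rfl⟩, ⟨?_, ?_⟩, b1, b2⟩
    · rw [Int.cast_max, Int.cast_zero]
      refine max_lt ?_ z1'
      push_cast
      linarith
    · rw [Int.cast_min]
      refine lt_min ?_ z2''
      push_cast
      linarith

theorem FB_dist {U : Set ℂ} (hM : 1 ≤ M) (hU : U ∈ FB M N) {z w : ℂ} (hz : z ∈ closure U) (hw : w ∈ closure U) :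
    dist z w ≤ 3 := by
  obtain ⟨c, d, b, h1, h2, h3, h4, h5, h6, h7, h8⟩ := FB_box hM hU
  rw [h8] at hz hw
  obtain ⟨⟨z1, z2⟩, z3, z4⟩ := hz
  obtain ⟨⟨w1, w2⟩, w3, w4⟩ := hw
  have hd : (d : ℝ) ≤ c + 2 := by exact_mod_cast h2
  push_cast at z4 w4
  rw [dist_eq_norm]
  refine (Complex.norm_le_abs_re_add_abs_im _).trans ?_
  have k1 : |(z - w).re| ≤ 2 := by
    rw [Complex.sub_re, abs_le]
    constructor <;> linarith
  have k2 : |(z - w).im| ≤ 1 := by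
    rw [Complex.sub_im, abs_le]
    constructor <;> linarith
  linarith

end Pool.N0
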