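import Pool.Agent.N0.A2

/-!
MODULE A7 (difficulty 2).  Convex domains are discs.

RECIPE.  `disc_of_convex`: `exists_homeomorph_image_interior_closure_frontier_eq_unitBall` (in `Mathlib.Analysis.Convex.GaugeRescale`) for `s = U` (`interior U = U`): a homeomorphism `h : ℂ ≃ₜ ℂ` with `h '' U = ball 0 1`, `h '' closure U = closedBall 0 1`, `h '' frontier U = sphere 0 1`; `Φ = h.symm`.
`OB_sides`: the frontier of `OB M N` is the frontier of the open box `Bx (Ioo 0 (2 M)) (Ioo 0 N)` (`closure_Bx`, `interior_Bx`, `frontier_compl`), a simple closed curve by the first statement.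
-/

open Set Metric Topology

namespace Pool.N0

theorem disc_of_convex {U : Set ℂ} (ho : IsOpen U) (hc : Convex ℝ U) (hb : Bornology.IsBounded U) (hne : U.Nonempty) :
    JS.DiscX (closure U) (frontier U) U := by
  obtain ⟨h, h1, h2, h3⟩ := exists_homeomorph_image_interior_closure_frontier_eq_unitBall hc
    (by rwa [ho.interior_eq]) hb
  rw [ho.interior_eq] at h1
  refine ⟨h.symm, h.symm.continuous.continuousOn, h.symm.injective.injOn, ?_, ?_, ?_⟩
  · rw [← h2, ← image_comp]; simp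
  · rw [← h3, ← image_comp]; simp
  · rw [← h1, ← image_comp]; simp

private theorem a7_pos {M N : ℤ} (hM : 1 ≤ M) (hN : 1 ≤ N) : (0 : ℝ) < ((2 * M : ℤ) : ℝ) ∧ (0 : ℝ) < (N : ℝ) := by
  have h1 : (1 : ℝ) ≤ M := by exact_mod_cast hM
  have h2 : (1 : ℝ) ≤ N := by exact_mod_cast hN
  refine ⟨by push_cast; linarith, by linarith⟩

private theorem a7_front {M N : ℤ} (hM : 1 ≤ M) (hN : 1 ≤ N) : frontier (OB M N) =
    frontier (Bx (Ioo 0 ((2 * M : ℤ) : ℝ)) (Ioo 0 (N : ℝ))) := by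
  obtain ⟨h1, h2⟩ := a7_pos hM hN
  rw [OB, frontier_compl, frontier, interior_Bx, frontier_Bx h1 h2, (isClosed_Bx isClosed_Icc isClosed_Icc).closure_eq]

theorem OB_jordan {M N : ℤ} (hM : 1 ≤ M) (hN : 1 ≤ N) : JS.JorX (frontier (OB M N)) := by
  obtain ⟨h1, h2⟩ := a7_pos hM hN
  rw [a7_front hM hN]
  obtain ⟨Φ, hc, hi, -, hs, -⟩ := disc_of_convex (U := Bx (Ioo 0 ((2 * M : ℤ) : ℝ)) (Ioo 0 (N : ℝ)))
    (isOpen_Bx isOpen_Ioo isOpen_Ioo) (convex_Bx ordConnected_Ioo ordConnected_Ioo)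
    ((isCompact_Bx 0 ((2 * M : ℤ) : ℝ) 0 (N : ℝ)).isBounded.subset
      (fun z hz => ⟨Ioo_subset_Icc_self hz.1, Ioo_subset_Icc_self hz.2⟩))
    ⟨⟨((2 * M : ℤ) : ℝ) / 2, (N : ℝ) / 2⟩, ⟨by simp only [mem_Ioo]; constructor <;> linarith,
      by simp only [mem_Ioo]; constructor <;> linarith⟩⟩
  exact ⟨Φ, hc.mono sphere_subset_closedBall, hi.mono sphere_subset_closedBall, hs⟩

theorem OB_closure {M N : ℤ} (hM : 1 ≤ M) (hN : 1 ≤ N) : closure (OB M N) =
    Bx (Iic ((0 : ℤ) : ℝ)) univ ∪ Bx (Ici ((2 * M : ℤ) : ℝ)) univ ∪ Bx univ (Iic ((0 : ℤ) : ℝ)) ∪ Bx univ (Ici (N : ℝ)) := by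
  rw [OB, closure_compl, interior_Bx]
  ext z
  simp only [Bx, mem_compl_iff, mem_setOf_eq, mem_Ioo, mem_union, mem_Iic, mem_Ici, mem_univ, and_true, true_and, Int.cast_zero]
  constructor
  · intro h
    by_contra hc
    push Not at hc
    exact h ⟨⟨hc.1.1.1, hc.1.1.2⟩, hc.1.2, hc.2⟩
  · rintro (((h | h) | h) | h) ⟨⟨h1, h2⟩, h3, h4⟩ <;> linarith

end Pool.N0
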