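import Pool.Agent.N0.A3
import Pool.Agent.N0.A6
import Pool.Agent.N0.A7

/-!
MODULE A8 (difficulty 3).  The local picture at an edge: faces.
-/

open Set Metric Topology

namespace Pool.N0

variable {M N : ℤ} {θ U : Set ℂ}

private theorem a8_boxes (hM : 1 ≤ M) (hN : 2 ≤ N) (hU : U ∈ FB M N ∨ U = OB M N) {z : ℂ} (hz : z ∈ closure U) :
    ∃ I J : Set ℝ, LatI I ∧ LatI J ∧ z ∈ Bx I J ∧ Bx I J ⊆ closure U := by
  rcases hU with hU | rfl
  · obtain ⟨c, d, b, -, -, -, -, -, -, -, h⟩ := FB_box hM hU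
    rw [h] at hz ⊢
    exact ⟨_, _, latI_Icc c d, latI_Icc b (b + 1), hz, Subset.rfl⟩
  · rw [OB_closure hM (by omega)] at hz ⊢
    rcases hz with ((hz | hz) | hz) | hz
    · exact ⟨_, _, latI_Iic 0, latI_univ, hz, fun w hw => Or.inl (Or.inl (Or.inl hw))⟩
    · exact ⟨_, _, latI_Ici (2 * M), latI_univ, hz, fun w hw => Or.inl (Or.inl (Or.inr hw))⟩
    · exact ⟨_, _, latI_univ, latI_Iic 0, hz, fun w hw => Or.inl (Or.inr hw)⟩
    · exact ⟨_, _, latI_univ, latI_Ici N, hz, fun w hw => Or.inr hw⟩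

theorem face_near (hM : 1 ≤ M) (hN : 2 ≤ N) (hθ : θ ∈ EB M N) (hU : U ∈ FB M N ∨ U = OB M N) {z : ℂ}
    (hz : z ∈ closure U) (hd : infDist z θ < 1) :
    ∃ w ∈ θ ∩ closure U, dist z w = infDist z θ ∧ segment ℝ z w ⊆ closure U := by
  obtain ⟨I, J, hI, hJ, hzB, hsub⟩ := a8_boxes hM hN hU hz
  obtain ⟨p, q, r, s, rfl, hform, -⟩ := EB_form hθ
  have hpq : p ≤ q := by omega
  have hrs : r ≤ s := by omega
  have hpq' : (p : ℝ) ≤ q := by exact_mod_cast hpq
  have hrs' : (r : ℝ) ≤ s := by exact_mod_cast hrs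
  have hw := pr_mem_of hI hJ hpq hrs hzB hd
  exact ⟨pr p q r s z, ⟨pr_mem_box hpq' hrs' z, hsub hw⟩, (infDist_box hpq' hrs' z).symm,
    ((convex_Bx hI.ord hJ.ord).segment_subset hzB hw).trans hsub⟩

theorem face_star (hM : 1 ≤ M) (hN : 2 ≤ N) (hU : U ∈ FB M N ∨ U = OB M N) {v : ℂ} (hv : v ∈ VB M N) {ρ : ℝ}
    (hρ : ρ ≤ 1) (h : (closure U ∩ ball v ρ).Nonempty) :
    v ∈ closure U ∧ StarConvex ℝ v (closure U ∩ ball v ρ) := by
  obtain ⟨a, b, -, -, -, -, rfl⟩ := hv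
  have key : ∀ z ∈ closure U ∩ ball (⟨(a : ℝ), (b : ℝ)⟩ : ℂ) ρ, ∃ I J : Set ℝ, LatI I ∧ LatI J ∧ z ∈ Bx I J ∧
      Bx I J ⊆ closure U ∧ (⟨(a : ℝ), (b : ℝ)⟩ : ℂ) ∈ Bx I J := by
    rintro z ⟨hz, hb⟩
    obtain ⟨I, J, hI, hJ, hzB, hsub⟩ := a8_boxes hM hN hU hz
    refine ⟨I, J, hI, hJ, hzB, hsub, ?_⟩
    have h1 : pr (a : ℝ) a b b z = ⟨(a : ℝ), (b : ℝ)⟩ := by
      have h2 : ∀ c x : ℝ, cl c c x = c := by
        intro c x
        unfold cl
        exact max_eq_left (min_le_left _ _)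
      unfold pr
      rw [h2, h2]
    have h3 := pr_mem_of hI hJ (le_refl a) (le_refl b) hzB (by
      rw [infDist_box le_rfl le_rfl, h1]
      exact lt_of_lt_of_le (mem_ball.1 hb) hρ)
    rw [h1] at h3
    exact h3
  refine ⟨?_, ?_⟩
  · obtain ⟨z, hz⟩ := h
    obtain ⟨I, J, -, -, -, hsub, hv⟩ := key z hz
    exact hsub hv
  · intro z hz
    obtain ⟨I, J, hI, hJ, hzB, hsub, hv⟩ := key z hz
    intro α β hα hβ hαβ
    have h0 : 0 < ρ := pos_of_mem_ball hz.2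
    exact ⟨hsub ((convex_Bx hI.ord hJ.ord) hv hzB hα hβ hαβ),
      (convex_ball _ _) (mem_ball_self h0) hz.2 hα hβ hαβ⟩

private theorem a8_cast {a b : ℤ} : ((a : ℝ) ≤ b) ↔ a ≤ b := by exact_mod_cast Iff.rfl

theorem face_meet (hM : 1 ≤ M) (hN : 2 ≤ N) (hθ : θ ∈ EB M N) (hU : U ∈ FB M N ∨ U = OB M N)
    (h : (θ ∩ closure U).Nonempty) : θ ⊆ closure U ∨ ∃ v ∈ VB M N, θ ∩ closure U = {v} := by
  obtain ⟨p, q, r, s, rfl, hform, hp, hq, hr, hs⟩ := EB_form hθ
  obtain ⟨z, ⟨⟨z1, z2⟩, z3, z4⟩, hz⟩ := h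
  rcases hU with hU | rfl
  · obtain ⟨c, d, b, hcd, -, hc, hd, hb, hbN, -, hcl⟩ := FB_box hM hU
    rw [hcl] at hz ⊢
    obtain ⟨⟨y1, y2⟩, y3, y4⟩ := hz
    have k1 : p ≤ d := a8_cast.1 (z1.trans y2)
    have k2 : c ≤ q := a8_cast.1 (y1.trans z2)
    have k3 : r ≤ b + 1 := a8_cast.1 (z3.trans y4)
    have k4 : b ≤ s := a8_cast.1 (y3.trans z4)
    by_cases hin : c ≤ p ∧ q ≤ d ∧ b ≤ r ∧ s ≤ b + 1
    · left
      rintro w ⟨⟨w1, w2⟩, w3, w4⟩
      exact ⟨⟨(a8_cast.2 hin.1).trans w1, w2.trans (a8_cast.2 hin.2.1)⟩, (a8_cast.2 hin.2.2.1).trans w3,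
        w4.trans (a8_cast.2 hin.2.2.2)⟩
    · right
      have hx : ∃ a e : ℤ, 0 ≤ a ∧ a ≤ 2 * M ∧ 0 ≤ e ∧ e ≤ N ∧ p ≤ a ∧ a ≤ q ∧ c ≤ a ∧ a ≤ d ∧ r ≤ e ∧ e ≤ s ∧ b ≤ e ∧
          e ≤ b + 1 ∧ (a ≤ p ∨ a ≤ c) ∧ (q ≤ a ∨ d ≤ a) ∧ (e ≤ r ∨ e ≤ b) ∧ (s ≤ e ∨ b + 1 ≤ e) := by
        refine ⟨max p c, max r b, ?_⟩
        omega
      obtain ⟨a, e, a1, a2, a3, a4, a5, a6, a7, a8, a9, a10, a11, a12, a13, a14, a15, a16⟩ := hx
      refine ⟨⟨(a : ℝ), (e : ℝ)⟩, ⟨a, e, a1, a2, a3, a4, rfl⟩, ?_⟩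
      ext w
      simp only [mem_singleton_iff]
      constructor
      · rintro ⟨⟨⟨w1, w2⟩, w3, w4⟩, ⟨w5, w6⟩, w7, w8⟩
        apply Complex.ext
        · apply le_antisymm
          · rcases a14 with h | h
            · exact w2.trans (a8_cast.2 h)
            · exact w6.trans (a8_cast.2 h)
          · rcases a13 with h | h
            · exact (a8_cast.2 h).trans w1
            · exact (a8_cast.2 h).trans w5
        · apply le_antisymm
          · rcases a16 with h | h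
            · exact w4.trans (a8_cast.2 h)
            · exact w8.trans (a8_cast.2 h)
          · rcases a15 with h | h
            · exact (a8_cast.2 h).trans w3
            · exact (a8_cast.2 h).trans w7
      · rintro rfl
        exact ⟨⟨⟨a8_cast.2 a5, a8_cast.2 a6⟩, a8_cast.2 a9, a8_cast.2 a10⟩, ⟨a8_cast.2 a7, a8_cast.2 a8⟩,
          a8_cast.2 a11, a8_cast.2 a12⟩
  · rw [OB_closure hM (by omega)] at hz ⊢
    simp only [Bx, mem_union, mem_ofPred_eq, mem_Iic, mem_Ici, mem_univ, and_true, true_and] at hz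
    have hz' : p ≤ 0 ∨ 2 * M ≤ q ∨ r ≤ 0 ∨ N ≤ s := by
      rcases hz with ((h | h) | h) | h
      · left; exact a8_cast.1 (z1.trans h)
      · right; left; exact a8_cast.1 (h.trans z2)
      · right; right; left; exact a8_cast.1 (z3.trans h)
      · right; right; right; exact a8_cast.1 (h.trans z4)
    by_cases hin : (q ≤ 0 ∨ 2 * M ≤ p) ∨ s ≤ 0 ∨ N ≤ r
    · left
      rintro w ⟨⟨w1, w2⟩, w3, w4⟩
      simp only [Bx, mem_union, mem_ofPred_eq, mem_Iic, mem_Ici, mem_univ, and_true, true_and]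
      rcases hin with (h | h) | h | h
      · exact Or.inl (Or.inl (Or.inl (w2.trans (a8_cast.2 h))))
      · exact Or.inl (Or.inl (Or.inr ((a8_cast.2 h).trans w1)))
      · exact Or.inl (Or.inr (w4.trans (a8_cast.2 h)))
      · exact Or.inr ((a8_cast.2 h).trans w3)
    · right
      have hx : ∃ a e : ℤ, 0 ≤ a ∧ a ≤ 2 * M ∧ 0 ≤ e ∧ e ≤ N ∧ p ≤ a ∧ a ≤ q ∧ r ≤ e ∧ e ≤ s ∧
          (a = 0 ∨ a = 2 * M ∨ e = 0 ∨ e = N) ∧
          (q = p + 1 → s = r ∧ e = r ∧ 0 < r ∧ r < N ∧ (a = 0 ∧ p = 0 ∨ a = 2 * M ∧ q = 2 * M)) ∧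
          (s = r + 1 → q = p ∧ a = p ∧ 0 < p ∧ p < 2 * M ∧ (e = 0 ∧ r = 0 ∨ e = N ∧ s = N)) := by
        by_cases g1 : p = 0 ∧ q = 1
        · exact ⟨0, r, by omega⟩
        by_cases g2 : q = 2 * M ∧ q = p + 1
        · exact ⟨2 * M, r, by omega⟩
        by_cases g3 : r = 0 ∧ s = 1
        · exact ⟨p, 0, by omega⟩
        · exact ⟨p, N, by omega⟩
      obtain ⟨a, e, a1, a2, a3, a4, a5, a6, a7, a8, a9, a10, a11⟩ := hx
      refine ⟨⟨(a : ℝ), (e : ℝ)⟩, ⟨a, e, a1, a2, a3, a4, rfl⟩, ?_⟩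
      ext w
      simp only [mem_singleton_iff]
      constructor
      · rintro ⟨⟨⟨w1, w2⟩, w3, w4⟩, hw⟩
        simp only [Bx, mem_union, mem_ofPred_eq, mem_Iic, mem_Ici, mem_univ, and_true, true_and] at hw
        rcases hform with ⟨hq1, hs1⟩ | ⟨hq1, hs1⟩
        · obtain ⟨-, rfl, hr0, hrN, hc⟩ := a10 hq1
          have e1 : w.im = e := le_antisymm (w4.trans (a8_cast.2 hs1.le)) w3
          have e2 : (0 : ℝ) < e := by exact_mod_cast hr0
          have e3 : (e : ℝ) < N := by exact_mod_cast hrN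
          apply Complex.ext _ e1
          have e4 : w.re ≤ 0 ∨ ((2 * M : ℤ) : ℝ) ≤ w.re := by
            rcases hw with ((h | h) | h) | h
            · left; exact_mod_cast h
            · right; exact h
            · exfalso; rw [e1] at h; push_cast at h; linarith
            · exfalso; rw [e1] at h; linarith
          have e5 : (q : ℝ) = p + 1 := by exact_mod_cast hq1
          rcases hc with ⟨rfl, hp0⟩ | ⟨rfl, hq0⟩
          · have e6 : (p : ℝ) = 0 := by exact_mod_cast hp0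
            have e7 : (1 : ℝ) ≤ M := by exact_mod_cast hM
            show w.re = ((0 : ℤ) : ℝ)
            push_cast at e4 ⊢
            rcases e4 with e4 | e4
            · linarith
            · linarith
          · have e6 : (q : ℝ) = ((2 * M : ℤ) : ℝ) := by exact_mod_cast hq0
            have e7 : (1 : ℝ) ≤ M := by exact_mod_cast hM
            show w.re = ((2 * M : ℤ) : ℝ)
            push_cast at e4 e6 ⊢
            rcases e4 with e4 | e4
            · linarith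
            · linarith
        · obtain ⟨-, rfl, hr0, hrN, hc⟩ := a11 hs1
          have e1 : w.re = a := le_antisymm (w2.trans (a8_cast.2 hq1.le)) w1
          have e2 : (0 : ℝ) < a := by exact_mod_cast hr0
          have e3 : (a : ℝ) < ((2 * M : ℤ) : ℝ) := by exact_mod_cast hrN
          refine Complex.ext e1 ?_
          have e4 : w.im ≤ 0 ∨ (N : ℝ) ≤ w.im := by
            rcases hw with ((h | h) | h) | h
            · exfalso; rw [e1] at h; push_cast at h; linarith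
            · exfalso; rw [e1] at h; linarith
            · left; exact_mod_cast h
            · right; exact h
          have e5 : (s : ℝ) = r + 1 := by exact_mod_cast hs1
          have e7 : (2 : ℝ) ≤ N := by exact_mod_cast hN
          rcases hc with ⟨rfl, hp0⟩ | ⟨rfl, hq0⟩
          · have e6 : (r : ℝ) = 0 := by exact_mod_cast hp0
            show w.im = ((0 : ℤ) : ℝ)
            push_cast
            rcases e4 with e4 | e4
            · linarith
            · linarith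
          · have e6 : (s : ℝ) = (e : ℝ) := by exact_mod_cast hq0
            show w.im = (e : ℝ)
            rcases e4 with e4 | e4
            · linarith
            · linarith
      · rintro rfl
        refine ⟨⟨⟨a8_cast.2 a5, a8_cast.2 a6⟩, a8_cast.2 a7, a8_cast.2 a8⟩, ?_⟩
        simp only [Bx, mem_union, mem_ofPred_eq, mem_Iic, mem_Ici, mem_univ, and_true, true_and]
        rcases a9 with rfl | rfl | rfl | rfl
        · exact Or.inl (Or.inl (Or.inl le_rfl))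
        · exact Or.inl (Or.inl (Or.inr le_rfl))
        · exact Or.inl (Or.inr le_rfl)
        · exact Or.inr le_rfl

private theorem a8_corner {x0 y0 ρ ex ey : ℝ} (h : (⟨x0, y0⟩ : ℂ) ∈ θ) (hρ : 0 < ρ) (hex : ex ^ 2 = 1)
    (hey : ey ^ 2 = 1) : (⟨x0 + ex * (ρ / 2), y0 + ey * (ρ / 2)⟩ : ℂ) ∈ thickening ρ θ := by
  rw [mem_thickening_iff]
  refine ⟨_, h, ?_⟩
  rw [Complex.dist_eq_re_im, Real.sqrt_lt' hρ]
  have h1 : (x0 + ex * (ρ / 2) - x0) ^ 2 = ex ^ 2 * (ρ / 2) ^ 2 := by ring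
  have h2 : (y0 + ey * (ρ / 2) - y0) ^ 2 = ey ^ 2 * (ρ / 2) ^ 2 := by ring
  show (x0 + ex * (ρ / 2) - x0) ^ 2 + (y0 + ey * (ρ / 2) - y0) ^ 2 < ρ ^ 2
  rw [h1, h2, hex, hey]
  nlinarith

private theorem a8_union {A B C D : Set ℂ} (hA : IsPreconnected A) (hB : IsPreconnected B) (hC : IsPreconnected C)
    (hD : IsPreconnected D) (hAB : A = ∅ ∨ B = ∅) (hCD : C = ∅ ∨ D = ∅) (hAC : A.Nonempty → C.Nonempty → (A ∩ C).Nonempty)
    (hAD : A.Nonempty → D.Nonempty → (A ∩ D).Nonempty) (hBC : B.Nonempty → C.Nonempty → (B ∩ C).Nonempty)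
    (hBD : B.Nonempty → D.Nonempty → (B ∩ D).Nonempty) : IsPreconnected (A ∪ B ∪ C ∪ D) := by
  have key : ∀ X Y : Set ℂ, IsPreconnected X → IsPreconnected Y → (X.Nonempty → Y.Nonempty → (X ∩ Y).Nonempty) →
      IsPreconnected (X ∪ Y) := by
    intro X Y hX hY h
    rcases X.eq_empty_or_nonempty with rfl | hX'
    · rwa [empty_union]
    rcases Y.eq_empty_or_nonempty with rfl | hY'
    · rwa [union_empty]
    · exact IsPreconnected.union' (h hX' hY') hX hY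
  rw [union_assoc]
  rcases hAB with rfl | rfl <;> rcases hCD with rfl | rfl
  · rw [empty_union, empty_union]; exact key _ _ hB hD hBD
  · rw [empty_union, union_empty]; exact key _ _ hB hC hBC
  · rw [union_empty, empty_union]; exact key _ _ hA hD hAD
  · rw [union_empty, union_empty]; exact key _ _ hA hC hAC

theorem face_conn (hM : 1 ≤ M) (hN : 2 ≤ N) (hθ : θ ∈ EB M N) (hU : U ∈ FB M N ∨ U = OB M N) {ρ : ℝ}
    (hρ : ρ ≤ 1 / 2) : IsPreconnected (U ∩ thickening ρ θ) := by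
  obtain ⟨p, q, r, s, hθ', hform, hp, hq, hr, hs⟩ := EB_form hθ
  have hcθ : Convex ℝ (thickening ρ θ) := by
    rw [hθ']
    exact (convex_Bx ordConnected_Icc ordConnected_Icc).thickening ρ
  rcases hU with hU | rfl
  · obtain ⟨c, d, b, -, -, -, -, -, -, hU', -⟩ := FB_box hM hU
    rw [hU']
    exact ((convex_Bx ordConnected_Ioo ordConnected_Ioo).inter hcθ).isPreconnected
  · have hsplit : OB M N ∩ thickening ρ θ = (Bx (Iio 0) univ ∩ thickening ρ θ) ∪
        (Bx (Ioi ((2 * M : ℤ) : ℝ)) univ ∩ thickening ρ θ) ∪ (Bx univ (Iio 0) ∩ thickening ρ θ) ∪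
        (Bx univ (Ioi (N : ℝ)) ∩ thickening ρ θ) := by
      rw [← union_inter_distrib_right, ← union_inter_distrib_right, ← union_inter_distrib_right]
      congr 1
      ext z
      simp only [OB, Bx, mem_compl_iff, mem_ofPred_eq, mem_Icc, mem_union, mem_Iio, mem_Ioi, mem_univ, and_true, true_and]
      constructor
      · intro h
        by_contra hc
        push Not at hc
        exact h ⟨⟨hc.1.1.1, hc.1.1.2⟩, hc.1.2, hc.2⟩
      · rintro (((h | h) | h) | h) ⟨⟨h1, h2⟩, h3, h4⟩ <;> linarith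
    rw [hsplit]
    have hcoord : ∀ z ∈ thickening ρ θ, 0 < ρ ∧ (p : ℝ) - 1 / 2 < z.re ∧ z.re < q + 1 / 2 ∧ (r : ℝ) - 1 / 2 < z.im ∧
        z.im < s + 1 / 2 := by
      intro z hz
      rw [mem_thickening_iff] at hz
      obtain ⟨w, hw, hd⟩ := hz
      rw [hθ'] at hw
      obtain ⟨⟨w1, w2⟩, w3, w4⟩ := hw
      have h1 : |z.re - w.re| < ρ := lt_of_le_of_lt (by
        rw [dist_eq_norm]
        exact Complex.abs_re_le_norm (z - w)) hd
      have h2 : |z.im - w.im| < ρ := lt_of_le_of_lt (by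
        rw [dist_eq_norm]
        exact Complex.abs_im_le_norm (z - w)) hd
      rw [abs_lt] at h1 h2
      refine ⟨lt_of_le_of_lt dist_nonneg hd, by linarith, by linarith, by linarith, by linarith⟩
    have hA : ∀ z ∈ Bx (Iio 0) univ ∩ thickening ρ θ, 0 < ρ ∧ p = 0 := by
      rintro z ⟨⟨h1, -⟩, h2⟩
      obtain ⟨h3, h4, -⟩ := hcoord z h2
      have h1' : z.re < 0 := h1
      refine ⟨h3, ?_⟩
      have : (p : ℝ) < 1 := by linarith
      have : p < 1 := by exact_mod_cast this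
      omega
    have hB : ∀ z ∈ Bx (Ioi ((2 * M : ℤ) : ℝ)) univ ∩ thickening ρ θ, 0 < ρ ∧ q = 2 * M := by
      rintro z ⟨⟨h1, -⟩, h2⟩
      obtain ⟨h3, -, h4, -⟩ := hcoord z h2
      have h1' : ((2 * M : ℤ) : ℝ) < z.re := h1
      refine ⟨h3, ?_⟩
      have h5 : ((2 * M : ℤ) : ℝ) < ((q + 1 : ℤ) : ℝ) := by push_cast at h1' ⊢; linarith
      have : 2 * M < q + 1 := by exact_mod_cast h5
      omega
    have hC : ∀ z ∈ Bx univ (Iio 0) ∩ thickening ρ θ, 0 < ρ ∧ r = 0 := by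
      rintro z ⟨⟨-, h1⟩, h2⟩
      obtain ⟨h3, -, -, h4, -⟩ := hcoord z h2
      have h1' : z.im < 0 := h1
      refine ⟨h3, ?_⟩
      have : (r : ℝ) < 1 := by linarith
      have : r < 1 := by exact_mod_cast this
      omega
    have hD : ∀ z ∈ Bx univ (Ioi (N : ℝ)) ∩ thickening ρ θ, 0 < ρ ∧ s = N := by
      rintro z ⟨⟨-, h1⟩, h2⟩
      obtain ⟨h3, -, -, -, h4⟩ := hcoord z h2
      have h1' : (N : ℝ) < z.im := h1
      refine ⟨h3, ?_⟩
      have h5 : (N : ℝ) < ((s + 1 : ℤ) : ℝ) := by push_cast; linarith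
      have : N < s + 1 := by exact_mod_cast h5
      omega
    have hmem : ∀ a b : ℤ, p ≤ a → a ≤ q → r ≤ b → b ≤ s → (⟨(a : ℝ), (b : ℝ)⟩ : ℂ) ∈ θ := by
      intro a b h1 h2 h3 h4
      rw [hθ']
      exact ⟨⟨a8_cast.2 h1, a8_cast.2 h2⟩, a8_cast.2 h3, a8_cast.2 h4⟩
    have hpq : p ≤ q := by omega
    have hrs : r ≤ s := by omega
    refine a8_union ((convex_Bx ordConnected_Iio ordConnected_univ).inter hcθ).isPreconnected
      ((convex_Bx ordConnected_Ioi ordConnected_univ).inter hcθ).isPreconnected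
      ((convex_Bx ordConnected_univ ordConnected_Iio).inter hcθ).isPreconnected
      ((convex_Bx ordConnected_univ ordConnected_Ioi).inter hcθ).isPreconnected ?_ ?_ ?_ ?_ ?_ ?_
    · by_contra hc
      push Not at hc
      obtain ⟨⟨z, hz⟩, w, hw⟩ := hc
      have h1 := (hA z hz).2
      have h2 := (hB w hw).2
      omega
    · by_contra hc
      push Not at hc
      obtain ⟨⟨z, hz⟩, w, hw⟩ := hc
      have h1 := (hC z hz).2
      have h2 := (hD w hw).2
      omega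
    · rintro ⟨z, hz⟩ ⟨w, hw⟩
      obtain ⟨h0, h1⟩ := hA z hz
      have h2 := (hC w hw).2
      have h3 := a8_corner (ex := -1) (ey := -1) (hmem p r le_rfl hpq le_rfl hrs) h0 (by norm_num) (by norm_num)
      have h4 : (p : ℝ) = 0 := by exact_mod_cast h1
      have h5 : (r : ℝ) = 0 := by exact_mod_cast h2
      refine ⟨_, ⟨⟨?_, mem_univ _⟩, h3⟩, ⟨mem_univ _, ?_⟩, h3⟩
      · show (p : ℝ) + -1 * (ρ / 2) < 0
        linarith
      · show (r : ℝ) + -1 * (ρ / 2) < 0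
        linarith
    · rintro ⟨z, hz⟩ ⟨w, hw⟩
      obtain ⟨h0, h1⟩ := hA z hz
      have h2 := (hD w hw).2
      have h3 := a8_corner (ex := -1) (ey := 1) (hmem p s le_rfl hpq hrs le_rfl) h0 (by norm_num) (by norm_num)
      have h4 : (p : ℝ) = 0 := by exact_mod_cast h1
      have h5 : (s : ℝ) = N := by exact_mod_cast h2
      refine ⟨_, ⟨⟨?_, mem_univ _⟩, h3⟩, ⟨mem_univ _, ?_⟩, h3⟩
      · show (p : ℝ) + -1 * (ρ / 2) < 0
        linarith
      · show (N : ℝ) < (s : ℝ) + 1 * (ρ / 2)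
        linarith
    · rintro ⟨z, hz⟩ ⟨w, hw⟩
      obtain ⟨h0, h1⟩ := hB z hz
      have h2 := (hC w hw).2
      have h3 := a8_corner (ex := 1) (ey := -1) (hmem q r hpq le_rfl le_rfl hrs) h0 (by norm_num) (by norm_num)
      have h4 : (q : ℝ) = ((2 * M : ℤ) : ℝ) := by exact_mod_cast h1
      have h5 : (r : ℝ) = 0 := by exact_mod_cast h2
      refine ⟨_, ⟨⟨?_, mem_univ _⟩, h3⟩, ⟨mem_univ _, ?_⟩, h3⟩
      · show ((2 * M : ℤ) : ℝ) < (q : ℝ) + 1 * (ρ / 2)
        linarith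
      · show (r : ℝ) + -1 * (ρ / 2) < 0
        linarith
    · rintro ⟨z, hz⟩ ⟨w, hw⟩
      obtain ⟨h0, h1⟩ := hB z hz
      have h2 := (hD w hw).2
      have h3 := a8_corner (ex := 1) (ey := 1) (hmem q s hpq le_rfl hrs le_rfl) h0 (by norm_num) (by norm_num)
      have h4 : (q : ℝ) = ((2 * M : ℤ) : ℝ) := by exact_mod_cast h1
      have h5 : (s : ℝ) = N := by exact_mod_cast h2
      refine ⟨_, ⟨⟨?_, mem_univ _⟩, h3⟩, ⟨mem_univ _, ?_⟩, h3⟩
      · show ((2 * M : ℤ) : ℝ) < (q : ℝ) + 1 * (ρ / 2)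
        linarith
      · show (N : ℝ) < (s : ℝ) + 1 * (ρ / 2)
        linarith

end Pool.N0
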