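import Pool.Agent.N0.BDefs
import Pool.Agent.N0.A4
import Pool.Agent.N0.A5
import Pool.Agent.N0.A6
import Pool.Agent.N0.A7
import Pool.Agent.JS.SpF

/-!
MODULE B1 (difficulty 3).  The outer domain of the wall; faces of the wall in the sphere.

RECIPE.  `OB_sep`: let `J = frontier (OB M N)`, `IsJordan J` (`OB_jordan`, `JS.JorX J` for `X = ℂ` is definitionally `JS.IsJordan J`), `IsJordan.jct` gives `Jsep J I E`.  The open box `B = Bx (Ioo 0 (2 M)) (Ioo 0 N)` is open, convex, bounded, `B ∪ J ∪ OB = univ`, `frontier B = J`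
(`OB` is the complement of `closure B`, `interior (closure B) = B`).  `B ⊆ Jᶜ = I ∪ E` is preconnected, so `B ⊆ I` or `B ⊆ E`, and `B` is clopen in `Jᶜ` (its frontier is `J`), so `B = I` or `B = E`; `E` is unbounded, so `B = I`, and `E = Jᶜ \ B = OB`.
`face_iff`: the sets in `F0` are nonempty, preconnected, disjoint from `⋃₀ E0` (`FB_disjoint`, `OB_disjoint`, `p` is not in the range of `σ`), open, with frontier in `⋃₀ E0` (for `σ '' U`: `closure (σ '' U) = σ '' closure U`, compact; for the outer face: its complement is `σ '' (closed box)`; it is open since the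
closed box is compact), pairwise disjoint and they cover the complement of `⋃₀ E0` (`cover`).  An open preconnected set disjoint from the closed set `G` whose frontier is in `G` is a component (`FaceX`), because it is clopen in `Gᶜ`.  Conversely a `FaceX` set contains a point, which lies in a set of `F0`; `FaceX.eq`-like argument.
The outer face is preconnected: `OB` is connected (`OB_sep`) and unbounded, so `p ∈ closure (σ '' OB)` (`Chart.mem_closure`), `IsPreconnected.subset_closure`.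
-/

open Set Metric Topology Filter
open Pool.JS Pool.ETM

namespace Pool.N0

theorem b1_frontier {M N : ℤ} (hM : 1 ≤ M) (hN : 1 ≤ N) : frontier (OB M N) =
    Bx (Icc 0 ((2 * M : ℤ) : ℝ)) (Icc 0 (N : ℝ)) \ Bx (Ioo 0 ((2 * M : ℤ) : ℝ)) (Ioo 0 (N : ℝ)) := by
  have hcl : IsClosed (Bx (Icc 0 ((2 * M : ℤ) : ℝ)) (Icc 0 (N : ℝ))) := isClosed_Bx isClosed_Icc isClosed_Icc
  rw [OB, frontier_compl, frontier, hcl.closure_eq, interior_Bx]

theorem OB_sep {M N : ℤ} (hM : 1 ≤ M) (hN : 1 ≤ N) :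
    Jsep (frontier (OB M N)) (Bx (Ioo 0 ((2 * M : ℤ) : ℝ)) (Ioo 0 (N : ℝ))) (OB M N) := by
  have hJ : IsJordan (frontier (OB M N)) := OB_jordan hM hN
  obtain ⟨U, V, hs⟩ := hJ.jct
  have hM' : (0 : ℝ) < ((2 * M : ℤ) : ℝ) := by exact_mod_cast (by omega : 0 < 2 * M)
  have hN' : (0 : ℝ) < (N : ℝ) := by exact_mod_cast (by omega : 0 < N)
  have hBo : IsOpen (Bx (Ioo 0 ((2 * M : ℤ) : ℝ)) (Ioo 0 (N : ℝ))) := isOpen_Bx isOpen_Ioo isOpen_Ioo
  have hcl : IsClosed (Bx (Icc 0 ((2 * M : ℤ) : ℝ)) (Icc 0 (N : ℝ))) := isClosed_Bx isClosed_Icc isClosed_Icc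
  have hOo : IsOpen (OB M N) := hcl.isOpen_compl
  have hBK : Bx (Ioo 0 ((2 * M : ℤ) : ℝ)) (Ioo 0 (N : ℝ)) ⊆ Bx (Icc 0 ((2 * M : ℤ) : ℝ)) (Icc 0 (N : ℝ)) :=
    fun z hz => ⟨Ioo_subset_Icc_self hz.1, Ioo_subset_Icc_self hz.2⟩
  have hdis : Disjoint (Bx (Ioo 0 ((2 * M : ℤ) : ℝ)) (Ioo 0 (N : ℝ))) (OB M N) := by
    rw [Set.disjoint_left]
    intro z hz hz'
    exact hz' (hBK hz)
  have hfr := b1_frontier hM hN
  have hun : Bx (Ioo 0 ((2 * M : ℤ) : ℝ)) (Ioo 0 (N : ℝ)) ∪ OB M N = (frontier (OB M N))ᶜ := by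
    rw [hfr]
    ext z
    constructor
    · rintro (h | h) h'
      · exact h'.2 h
      · exact h h'.1
    · intro h
      by_cases hz : z ∈ Bx (Icc 0 ((2 * M : ℤ) : ℝ)) (Icc 0 (N : ℝ))
      · left
        by_contra h'
        exact h ⟨hz, h'⟩
      · right
        exact hz
  have hBne : (Bx (Ioo 0 ((2 * M : ℤ) : ℝ)) (Ioo 0 (N : ℝ))).Nonempty :=
    ⟨⟨((2 * M : ℤ) : ℝ) / 2, (N : ℝ) / 2⟩, ⟨by linarith, by linarith⟩, ⟨by linarith, by linarith⟩⟩
  have hBb : Bornology.IsBounded (Bx (Ioo 0 ((2 * M : ℤ) : ℝ)) (Ioo 0 (N : ℝ))) :=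
    (isCompact_Bx _ _ _ _).isBounded.subset hBK
  have hBc : IsPreconnected (Bx (Ioo 0 ((2 * M : ℤ) : ℝ)) (Ioo 0 (N : ℝ))) :=
    (convex_Bx ordConnected_Ioo ordConnected_Ioo).isPreconnected
  have hV : V ⊆ OB M N := by
    have h1 : V ⊆ Bx (Ioo 0 ((2 * M : ℤ) : ℝ)) (Ioo 0 (N : ℝ)) ∪ OB M N := by
      rw [hun, ← hs.union]
      exact subset_union_right
    rcases hs.connV.isPreconnected.subset_or_subset hBo hOo hdis h1 with h | h
    · exact absurd (hBb.subset h) hs.bddV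
    · exact h
  have hBU : Bx (Ioo 0 ((2 * M : ℤ) : ℝ)) (Ioo 0 (N : ℝ)) ⊆ U := by
    have h1 : Bx (Ioo 0 ((2 * M : ℤ) : ℝ)) (Ioo 0 (N : ℝ)) ⊆ U ∪ V := by
      rw [hs.union, ← hun]
      exact subset_union_left
    rcases hBc.subset_or_subset hs.openU hs.openV hs.disj h1 with h | h
    · exact h
    · obtain ⟨z, hz⟩ := hBne
      exact absurd (hV (h hz)) (Set.disjoint_left.mp hdis hz)
  have hUB : U ⊆ Bx (Ioo 0 ((2 * M : ℤ) : ℝ)) (Ioo 0 (N : ℝ)) := by
    have h1 : U ⊆ Bx (Ioo 0 ((2 * M : ℤ) : ℝ)) (Ioo 0 (N : ℝ)) ∪ OB M N := by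
      rw [hun, ← hs.union]
      exact subset_union_left
    rcases hs.connU.isPreconnected.subset_or_subset hBo hOo hdis h1 with h | h
    · exact h
    · obtain ⟨z, hz⟩ := hBne
      exact absurd (h (hBU hz)) (Set.disjoint_left.mp hdis hz)
  have hUeq : U = Bx (Ioo 0 ((2 * M : ℤ) : ℝ)) (Ioo 0 (N : ℝ)) := hUB.antisymm hBU
  have hVeq : V = OB M N := by
    refine hV.antisymm ?_
    intro z hz
    have h1 : z ∈ U ∪ V := by
      rw [hs.union, ← hun]
      exact Or.inr hz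
    rcases h1 with h | h
    · exact absurd hz (Set.disjoint_left.mp hdis (hUB h))
    · exact h
  rw [← hUeq, ← hVeq]
  rw [← hVeq] at hs
  exact hs

variable {X : Type*} [TopologicalSpace X] [CompactSpace X] [T2Space X] {p : X} {σ : ℂ → X} {M N : ℤ}

theorem b1_sUnion : ⋃₀ E0 σ M N = σ '' ⋃₀ EB M N := by
  ext x
  constructor
  · rintro ⟨e, ⟨e', he', rfl⟩, z, hz, rfl⟩
    exact ⟨z, ⟨e', he', hz⟩, rfl⟩
  · rintro ⟨z, ⟨e', he', hz⟩, rfl⟩
    exact ⟨σ '' e', ⟨e', he', rfl⟩, z, hz, rfl⟩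

theorem b1_notp (h : Chart p σ) (z : ℂ) : σ z ≠ p := by
  intro hz
  have h1 : σ z ∈ range σ := mem_range_self z
  rw [h.range] at h1
  exact h1 hz

theorem b1_closure (h : Chart p σ) {A : Set ℂ} (hA : IsCompact (closure A)) :
    closure (σ '' A) ⊆ σ '' closure A :=
  closure_minimal (image_mono subset_closure) (hA.image h.emb.continuous).isClosed

/-- an open preconnected set with frontier in `G` is a face -/
theorem b1_face {G W : Set X} (hne : W.Nonempty) (hc : IsPreconnected W) (hs : W ⊆ Gᶜ) (hfr : frontier W ⊆ G) :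
    FaceX G W := by
  refine ⟨hne, hc, hs, ?_⟩
  intro C hC hCG hCW
  by_contra hcon
  rw [Set.not_subset] at hcon
  obtain ⟨x, hx, hxW⟩ := hcon
  have hne2 : (C ∩ Wᶜ).Nonempty := ⟨x, hx, hxW⟩
  have h1 : ¬ (C ∩ frontier W).Nonempty := by
    rintro ⟨y, hy, hy'⟩
    exact hCG hy (hfr hy')
  have h2 : C ⊆ interior W ∪ (closure W)ᶜ := by
    intro y hy
    by_cases hyc : y ∈ closure W
    · left
      by_contra hyi
      exact h1 ⟨y, hy, hyc, hyi⟩
    · right
      exact hyc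
  have h3 : Disjoint (interior W) (closure W)ᶜ := by
    rw [Set.disjoint_left]
    intro y hy hy'
    exact hy' (subset_closure (interior_subset hy))
  rcases hC.subset_or_subset isOpen_interior isClosed_closure.isOpen_compl h3 h2 with h4 | h4
  · exact hxW (interior_subset (h4 hx))
  · obtain ⟨y, hy, hyW⟩ := hCW
    exact h4 hy (subset_closure hyW)

theorem b1_faceB (h : Chart p σ) (hM : 1 ≤ M) {U : Set ℂ} (hU : U ∈ FB M N) :
    FaceX (⋃₀ E0 σ M N) (σ '' U) := by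
  obtain ⟨c, d, b, h1, _, _, _, _, _, h7, h8⟩ := FB_box hM hU
  have hcd : (c : ℝ) < d := by exact_mod_cast h1
  rw [b1_sUnion]
  have hcU : IsCompact (closure U) := by
    rw [h8]
    exact isCompact_Bx _ _ _ _
  have hoU : IsOpen U := by
    rw [h7]
    exact isOpen_Bx isOpen_Ioo isOpen_Ioo
  refine b1_face ?_ ?_ ?_ ?_
  · refine Set.Nonempty.image σ ?_
    rw [h7]
    exact ⟨⟨((c : ℝ) + d) / 2, b + 1 / 2⟩, ⟨by linarith, by linarith⟩, ⟨by linarith, by linarith⟩⟩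
  · refine IsPreconnected.image ?_ σ h.emb.continuous.continuousOn
    rw [h7]
    exact (convex_Bx ordConnected_Ioo ordConnected_Ioo).isPreconnected
  · rintro _ ⟨z, hz, rfl⟩ ⟨w, hw, hwz⟩
    have := h.emb.injective hwz
    subst this
    exact Set.disjoint_left.mp (FB_disjoint hM hU) hz hw
  · intro x hx
    obtain ⟨z, hz, rfl⟩ := b1_closure h hcU hx.1
    refine ⟨z, FB_frontier hM hU ⟨hz, ?_⟩, rfl⟩
    intro hzi
    apply hx.2
    rw [(h.emb.isOpenMap U hoU).interior_eq]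
    exact ⟨z, interior_subset hzi, rfl⟩

theorem b1_outer (h : Chart p σ) : insert p (σ '' OB M N) =
    (σ '' Bx (Icc 0 ((2 * M : ℤ) : ℝ)) (Icc 0 (N : ℝ)))ᶜ := by
  ext x
  constructor
  · rintro (rfl | ⟨z, hz, rfl⟩) ⟨w, hw, hwz⟩
    · exact b1_notp h w hwz
    · have := h.emb.injective hwz
      subst this
      exact hz hw
  · intro hx
    by_cases hxp : x = p
    · exact Or.inl hxp
    · right
      have h1 : x ∈ range σ := by
        rw [h.range]
        exact hxp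
      obtain ⟨z, rfl⟩ := h1
      exact ⟨z, fun hz => hx ⟨z, hz, rfl⟩, rfl⟩

theorem b1_faceO (h : Chart p σ) (hM : 1 ≤ M) (hN : 1 ≤ N) :
    FaceX (⋃₀ E0 σ M N) (insert p (σ '' OB M N)) := by
  rw [b1_sUnion]
  have hsep := OB_sep hM hN
  have hK : IsCompact (Bx (Icc 0 ((2 * M : ℤ) : ℝ)) (Icc 0 (N : ℝ))) := isCompact_Bx _ _ _ _
  refine b1_face ⟨p, mem_insert _ _⟩ ?_ ?_ ?_
  · refine IsPreconnected.subset_closure (hsep.connV.isPreconnected.image σ h.emb.continuous.continuousOn)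
      (subset_insert _ _) ?_
    refine insert_subset ?_ subset_closure
    exact (Chart.mem_closure h).mpr hsep.bddV
  · rintro _ (rfl | ⟨z, hz, rfl⟩) ⟨w, hw, hwz⟩
    · exact b1_notp h w hwz
    · have := h.emb.injective hwz
      subst this
      exact Set.disjoint_left.mp OB_disjoint hz hw
  · rw [b1_outer h, frontier_compl]
    intro x hx
    have h1 := hx.1
    rw [(hK.image h.emb.continuous).isClosed.closure_eq] at h1
    obtain ⟨z, hz, rfl⟩ := h1
    refine ⟨z, OB_frontier hM hN ?_, rfl⟩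
    rw [OB, frontier_compl]
    refine ⟨subset_closure hz, ?_⟩
    intro hzi
    apply hx.2
    exact interior_maximal (image_mono interior_subset) (h.emb.isOpenMap _ isOpen_interior) ⟨z, hzi, rfl⟩

/-- the faces of the network of level 0 -/
theorem face_iff (h : Chart p σ) (hM : 1 ≤ M) (hN : 1 ≤ N) {W : Set X} : FaceX (⋃₀ E0 σ M N) W ↔ W ∈ F0 p σ M N := by
  have hA : ∀ W' ∈ F0 p σ M N, FaceX (⋃₀ E0 σ M N) W' := by
    rintro W' (⟨U, hU, rfl⟩ | rfl)
    · exact b1_faceB h hM hU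
    · exact b1_faceO h hM hN
  refine ⟨fun hW => ?_, hA W⟩
  obtain ⟨x, hx⟩ := hW.ne
  have hxG := hW.sub hx
  rw [b1_sUnion] at hxG
  have hB : ∃ W' ∈ F0 p σ M N, x ∈ W' := by
    by_cases hxp : x = p
    · exact ⟨_, Or.inr rfl, Or.inl hxp⟩
    · have h1 : x ∈ range σ := by
        rw [h.range]
        exact hxp
      obtain ⟨z, rfl⟩ := h1
      rcases cover hM hN (z := z) (fun hz => hxG ⟨z, hz, rfl⟩) with ⟨U, hU, hzU⟩ | hz
      · exact ⟨_, Or.inl ⟨U, hU, rfl⟩, z, hzU, rfl⟩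
      · exact ⟨_, Or.inr rfl, Or.inr ⟨z, hz, rfl⟩⟩
  obtain ⟨W', hW', hxW'⟩ := hB
  have hF := hA W' hW'
  have heq : W = W' := (hF.max W hW.conn hW.sub ⟨x, hx, hxW'⟩).antisymm (hW.max W' hF.conn hF.sub ⟨x, hxW', hx⟩)
  rw [heq]
  exact hW'

end Pool.N0
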