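import Pool.Agent.N0.BDefs
import Pool.Agent.N0.A4
import Pool.Agent.N0.A5
import Pool.Agent.N0.A6
import Pool.Agent.N0.A7
import Pool.Agent.N0.B1
import Pool.Agent.JS.SpG

/-!
MODULE B2 (difficulty 3).  The network of level 0 is a good graph.

RECIPE.  `σ` is injective and continuous: `GrX` is transported from `grX_wall` (`ArcX.image` or composition with the parametrisation; images of intersections: `Set.image_inter` for injective maps).  `val`, `simple`: the map `e ↦ σ '' e` is injective; `Set.ncard_image_of_injective`-like argument for `valence`.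
`finF`: `face_iff`; `FB M N` is finite (pairs of integers in a bounded range).  `disc` for `σ '' U`, `U ∈ FB`: `disc_of_convex` (`FB_box`: open, convex, bounded, nonempty), composed with `σ`, and `closure (σ '' U) = σ '' closure U`, `frontier (σ '' U) = σ '' frontier U`
(`closure U` is compact, `σ` an open embedding).  `disc` for the outer face `W`: `J = σ '' frontier (OB M N)` is a `JorX`, `p ∉ J`, `exists_inner` gives `Jsep (σ ⁻¹' J) I E` and `SepX J (σ '' I) (σ '' E ∪ {p})`; `σ ⁻¹' J = frontier (OB M N)`, `Jsep.unique` and `OB_sep` give `E = OB M N`; `SepX.symm`, `SepX.disc`, `SepX.frU`.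
`closure_face`: closures of faces.
-/

open Set Metric Topology Filter
open Pool.JS Pool.ETM

namespace Pool.N0

variable {X : Type*} [TopologicalSpace X] [CompactSpace X] [T2Space X] {p : X} {σ : ℂ → X} {M N : ℤ}

private theorem b2_compl (h : Chart p σ) (S : Set ℂ) : (σ '' S)ᶜ = insert p (σ '' Sᶜ) := by
  ext x
  constructor
  · intro hx
    by_cases hxp : x = p
    · exact Or.inl hxp
    · obtain ⟨z, rfl⟩ := h.exists_eq hxp
      exact Or.inr ⟨z, fun hz => hx ⟨z, hz, rfl⟩, rfl⟩
  · rintro (rfl | ⟨z, hz, rfl⟩)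
    · rintro ⟨w, -, hw⟩
      exact h.ne w hw
    · rintro ⟨w, hw, hwz⟩
      exact hz (h.inj hwz ▸ hw)

private theorem b2_interior (h : Chart p σ) (S : Set ℂ) : interior (σ '' S) = σ '' interior S := by
  apply Subset.antisymm
  · intro x hx
    obtain ⟨z, hz, rfl⟩ := interior_subset hx
    refine ⟨z, ?_, rfl⟩
    rw [mem_interior]
    refine ⟨σ ⁻¹' interior (σ '' S), ?_, isOpen_interior.preimage h.cont, hx⟩
    intro w hw
    obtain ⟨v, hv, hvw⟩ := interior_subset hw
    exact h.inj hvw ▸ hv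
  · exact h.emb.isOpenMap.image_interior_subset S

private theorem b2_closure (h : Chart p σ) {S : Set ℂ} (hS : IsCompact (closure S)) :
    closure (σ '' S) = σ '' closure S := by
  apply Subset.antisymm
  · exact closure_minimal (image_mono subset_closure) (h.isClosed_image hS)
  · exact image_closure_subset_closure_image h.cont

theorem closure_face (h : Chart p σ) {U : Set ℂ} (hM : 1 ≤ M) (hU : U ∈ FB M N) :
    closure (σ '' U) = σ '' closure U ∧ frontier (σ '' U) = σ '' frontier U := by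
  obtain ⟨c, d, b, -, -, -, -, -, -, -, hc⟩ := FB_box hM hU
  have hcp : IsCompact (closure U) := by
    rw [hc]
    exact isCompact_Bx _ _ _ _
  have h1 := b2_closure h hcp
  refine ⟨h1, ?_⟩
  rw [frontier, frontier, h1, b2_interior h, image_sdiff h.inj]

private theorem b2_K (M N : ℤ) : IsCompact (OB M N)ᶜ := by
  rw [OB, compl_compl]
  exact isCompact_Bx _ _ _ _

private theorem b2_W (h : Chart p σ) : insert p (σ '' OB M N) = (σ '' (OB M N)ᶜ)ᶜ := by
  rw [b2_compl h, compl_compl]

private theorem b2_openW (h : Chart p σ) : IsOpen (insert p (σ '' OB M N)) := by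
  rw [b2_W h]
  exact (h.isClosed_image (b2_K M N)).isOpen_compl

theorem closure_outer (h : Chart p σ) :
    closure (insert p (σ '' OB M N)) = insert p (σ '' closure (OB M N)) ∧
      frontier (insert p (σ '' OB M N)) = σ '' frontier (OB M N) := by
  constructor
  · rw [b2_W h, closure_compl, b2_interior h, b2_compl h, interior_compl, compl_compl]
  · rw [b2_W h, frontier_compl, frontier, (h.isClosed_image (b2_K M N)).closure_eq, b2_interior h, ← image_sdiff h.inj]
    congr 1
    rw [← frontier_compl (OB M N), frontier, (b2_K M N).isClosed.closure_eq]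

private theorem b2_FB (M N : ℤ) : (FB M N).Finite := by
  refine (((finite_Icc (-1 : ℤ) (2 * M)).prod (finite_Icc (0 : ℤ) N)).image
    (fun x : ℤ × ℤ => Bx (Ioo ((max x.1 0 : ℤ) : ℝ) ((min (x.1 + 2) (2 * M) : ℤ) : ℝ))
      (Ioo (x.2 : ℝ) (x.2 + 1)))).subset ?_
  rintro U ⟨a, b, h1, h2, h3, h4, -, rfl⟩
  exact ⟨(a, b), ⟨⟨h1, h2.le⟩, h3, h4.le⟩, rfl⟩

private theorem b2_disc (h : Chart p σ) {D J U : Set ℂ} (hd : DiscX D J U) : DiscX (σ '' D) (σ '' J) (σ '' U) := by
  obtain ⟨Φ, h1, h2, h3, h4, h5⟩ := hd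
  refine ⟨σ ∘ Φ, h.cont.comp_continuousOn h1, h.inj.comp_injOn h2, ?_, ?_, ?_⟩
  · rw [image_comp, h3]
  · rw [image_comp, h4]
  · rw [image_comp, h5]

theorem good0 [Sph X] (h : Chart p σ) (hM : 1 ≤ M) (hN : 1 ≤ N) : Good (V0 σ M N) (E0 σ M N) := by
  have hG := grX_wall hM hN
  have hinj : Function.Injective (fun e : Set ℂ => σ '' e) := h.inj.image_injective
  refine ⟨⟨⟨?_, ?_, ?_, ?_⟩, ?_⟩, ?_, ?_, ?_, ?_, ?_⟩
  · exact hG.finV.image σ
  · refine (hG.finE.image (fun e : Set ℂ => σ '' e)).subset ?_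
    rintro e ⟨e', he', rfl⟩
    exact ⟨e', he', rfl⟩
  · rintro e ⟨e', he', rfl⟩
    obtain ⟨a, ha, b, hb, harc, hab⟩ := hG.arc e' he'
    refine ⟨σ a, ⟨a, ha, rfl⟩, σ b, ⟨b, hb, rfl⟩, harc.image h.cont.continuousOn h.inj.injOn, ?_⟩
    rw [V0, ← image_inter h.inj, hab, image_pair]
  · rintro e ⟨e₁, he₁, rfl⟩ e' ⟨e₂, he₂, rfl⟩ hne
    rw [← image_inter h.inj]
    refine image_mono (hG.inter e₁ he₁ e₂ he₂ ?_)
    rintro rfl
    exact hne rfl
  · rintro v ⟨v', hv', rfl⟩
    obtain ⟨e, he, hve⟩ := vert_wall hM hN hv'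
    exact ⟨σ '' e, ⟨e, he, rfl⟩, v', hve, rfl⟩
  · exact ⟨σ '' hE 0 0, hE 0 0, Or.inl ⟨0, 0, le_refl _, by omega, le_refl _, by omega, rfl⟩, rfl⟩
  · rintro v ⟨v', hv', rfl⟩
    have hfin : {e ∈ EB M N | v' ∈ e}.Finite := hG.finE.subset fun e he => he.1
    have h1 : {e | e ∈ E0 σ M N ∧ σ v' ∈ e} ⊆ (fun e : Set ℂ => σ '' e) '' {e ∈ EB M N | v' ∈ e} := by
      rintro e ⟨⟨e', he', rfl⟩, w, hw, hwv⟩
      exact ⟨e', ⟨he', h.inj hwv ▸ hw⟩, rfl⟩
    exact ((ncard_le_ncard h1 (hfin.image _)).trans (ncard_image_le hfin)).trans (valence hv')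
  · rintro e ⟨e₁, he₁, rfl⟩ e' ⟨e₂, he₂, rfl⟩ he
    rw [V0, ← image_inter h.inj, ← image_inter h.inj] at he
    rw [simple he₁ he₂ (hinj he)]
  · refine ((b2_FB M N).image (fun U : Set ℂ => σ '' U)).union (finite_singleton (insert p (σ '' OB M N))) |>.subset ?_
    intro W hW
    rcases (face_iff h hM hN).1 hW with ⟨U, hU, rfl⟩ | rfl
    · exact Or.inl ⟨U, hU, rfl⟩
    · exact Or.inr rfl
  · intro W hW
    rcases (face_iff h hM hN).1 hW with ⟨U, hU, rfl⟩ | rfl
    · obtain ⟨c, d, b, hcd, -, -, -, -, -, hUe, hc⟩ := FB_box hM hU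
      have hoU : IsOpen U := by
        rw [hUe]
        exact isOpen_Bx isOpen_Ioo isOpen_Ioo
      have hcU : Convex ℝ U := by
        rw [hUe]
        exact convex_Bx ordConnected_Ioo ordConnected_Ioo
      have hbU : Bornology.IsBounded U := by
        have : IsCompact (closure U) := by
          rw [hc]
          exact isCompact_Bx _ _ _ _
        exact this.isBounded.subset subset_closure
      have hnU : U.Nonempty := by
        rw [hUe]
        have hcd' : (c : ℝ) < d := by exact_mod_cast hcd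
        obtain ⟨x, hx⟩ := exists_between hcd'
        exact ⟨⟨x, b + 1 / 2⟩, hx, by constructor <;> simp only <;> linarith⟩
      refine ⟨h.emb.isOpenMap _ hoU, ?_⟩
      rw [(closure_face h hM hU).1, (closure_face h hM hU).2]
      exact b2_disc h (disc_of_convex hoU hcU hbU hnU)
    · refine ⟨b2_openW h, ?_⟩
      have hJ : JorX (σ '' frontier (OB M N)) :=
        (OB_jordan hM hN).image h.cont.continuousOn h.inj.injOn
      have hp : p ∉ σ '' frontier (OB M N) := by
        rintro ⟨z, -, hz⟩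
        exact h.ne z hz
      obtain ⟨I, E, hs, hX⟩ := exists_inner hJ hp h
      rw [preimage_image_eq _ h.inj] at hs
      obtain ⟨-, rfl⟩ := hs.unique (OB_sep hM hN)
      have hd := hX.symm.disc hJ
      rw [union_singleton] at hd
      rw [(closure_outer h).2]
      exact hd

end Pool.N0
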