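import Pool.Agent.N0.BDefs
import Pool.Agent.N0.A5
import Pool.Agent.N0.A6
import Pool.Agent.N0.A8
import Pool.Agent.N0.B1
import Pool.Agent.N0.B2

/-!
MODULE B3 (difficulty 3).  Third stars of level 0 are small.

RECIPE.  `St0 S` is the union of the closed faces meeting `S`.  The closed faces are `σ '' closure U` with `U ∈ FB` (euclidean diameter at most 3: `FB_dist`) and the outer one `insert p (σ '' closure OB)`.
Call a set `S ⊆ X` *near type A with centre z₀ and radius R* if `S ⊆ σ '' closedBall z₀ R`, and *type B with radius R* if `S ⊆ insert p (σ '' {z | infDist z (closure (OB M N)) ≤ R})`.  If `S` is of type A, radius `R`, then `St0 S` is of type A with radius `R + 3` if it does not meet the closed outer face, and of type B with radius `2 R + 3` if it does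
(every point of `closedBall z₀ R` has distance at most `2 R` from `closure OB`, and the faces have diameter 3).  If `S` is of type B with radius `R`, `St0 S` is of type B with radius `R + 3`.  Start: a closed face is of type A with radius 3 or type B with radius 0.  So `St0 (St0 F)` is of type A with radius 9 or of type B with radius at most
`24`, and adding the sets `D0 σ ρ θ`, `θ ⊆ S`, `ρ ≤ 1` (contained in the `ρ`-neighbourhood of `θ`), adds at most 1 to the radius.  Type A with radius 10: two points have distance `< η / 20` by `c1` (`20 ≤ 100`), so `diam ≤ η / 20 < η`.  Type B with radius `≤ 25`: a point `z` of `Bx (Icc 100 ..) (Icc 100 ..)` has distance at least 100 from `closure OB` (`OB_closure`), so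
by `c2` all points have distance `< η / 20` from `p`: `diam ≤ η / 10 < η`.  (`Metric.diam_le_of_forall_dist_le`.)
-/

open Set Metric Topology Filter
open Pool.JS Pool.ETM

namespace Pool.N0

variable {X : Type*} [MetricSpace X] [CompactSpace X] {P : Set X} {η ε : ℝ} {p : X} {σ : ℂ → X} {M N : ℤ}

/-- the star of level 0 -/
def St0 (σ : ℂ → X) (M N : ℤ) (S : Set X) : Set X :=
  ⋃₀ {F | (∃ U ∈ Fc (E0 σ M N), F = closure U) ∧ (F ∩ S).Nonempty}

/-- `S` together with the neighbourhoods of the edges contained in `S` -/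
def DSt0 (σ : ℂ → X) (M N : ℤ) (ρ : ℝ) (S : Set X) : Set X :=
  S ∪ ⋃₀ {D | ∃ θ ∈ E0 σ M N, θ ⊆ S ∧ D = D0 σ ρ θ}

private def b3Q (p : X) (σ : ℂ → X) (M N : ℤ) (a b : ℝ) (S : Set X) : Prop :=
  (∃ z₀ : ℂ, S ⊆ σ '' closedBall z₀ a) ∨ S ⊆ insert p (σ '' {z | infDist z (closure (OB M N)) ≤ b})

private theorem b3_sub (p : X) (σ : ℂ → X) (M N : ℤ) {b : ℝ} (hb : 0 ≤ b) :
    insert p (σ '' closure (OB M N)) ⊆ insert p (σ '' {z | infDist z (closure (OB M N)) ≤ b}) :=
  insert_subset_insert (image_mono fun z hz => show infDist z (closure (OB M N)) ≤ b from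
    (infDist_zero_of_mem hz).le.trans hb)

private theorem b3_sub' (p : X) (σ : ℂ → X) (M N : ℤ) {b b' : ℝ} (hb : b ≤ b') :
    insert p (σ '' {z | infDist z (closure (OB M N)) ≤ b}) ⊆
      insert p (σ '' {z | infDist z (closure (OB M N)) ≤ b'}) :=
  insert_subset_insert (image_mono fun z hz => show infDist z (closure (OB M N)) ≤ b' from le_trans hz hb)

private theorem b3_mono {S : Set X} {a b a' b' : ℝ} (ha : a ≤ a') (hb : b ≤ b') (h : b3Q p σ M N a b S) :
    b3Q p σ M N a' b' S := by
  rcases h with ⟨z₀, h⟩ | h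
  · exact Or.inl ⟨z₀, h.trans (image_mono (closedBall_subset_closedBall ha))⟩
  · exact Or.inr (h.trans (b3_sub' p σ M N hb))

private theorem b3_face (h : Lev0 P η p σ M N ε) {U : Set X} (hU : U ∈ Fc (E0 σ M N)) :
    (∃ U' ∈ FB M N, closure U = σ '' closure U') ∨ closure U = insert p (σ '' closure (OB M N)) := by
  have hN : 1 ≤ N := le_trans (by norm_num) h.hN
  rcases (face_iff h.chart h.hM hN).1 hU with ⟨U', hU', rfl⟩ | rfl
  · exact Or.inl ⟨U', hU', (closure_face h.chart h.hM hU').1⟩
  · exact Or.inr (closure_outer h.chart).1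

private theorem b3_ne (M N : ℤ) (hM : 1 ≤ M) (hN : 1 ≤ N) : (closure (OB M N)).Nonempty := by
  rw [OB_closure hM hN]
  exact ⟨0, Or.inl (Or.inl (Or.inl ⟨by simp, mem_univ _⟩))⟩

private theorem b3_start (h : Lev0 P η p σ M N ε) {U : Set X} (hU : U ∈ Fc (E0 σ M N)) :
    b3Q p σ M N 3 0 (closure U) := by
  rcases b3_face h hU with ⟨U', hU', he⟩ | he
  · left
    rcases (closure U').eq_empty_or_nonempty with h0 | ⟨z, hz⟩
    · refine ⟨0, ?_⟩
      rw [he, h0, image_empty]
      exact empty_subset _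
    · refine ⟨z, ?_⟩
      rw [he]
      exact image_mono fun w hw => FB_dist h.hM hU' hw hz
  · right
    rw [he]
    exact b3_sub p σ M N (le_refl 0)

private theorem b3_step (h : Lev0 P η p σ M N ε) {S : Set X} {a b : ℝ} (hb : 0 ≤ b) (hS : b3Q p σ M N a b S) :
    b3Q p σ M N (a + 3) (max (2 * a + 3) (b + 3)) (St0 σ M N S) := by
  rcases hS with ⟨z₀, hS⟩ | hS
  · by_cases hm : (insert p (σ '' closure (OB M N)) ∩ S).Nonempty
    · right
      obtain ⟨q, hq, hqS⟩ := hm
      obtain ⟨z₁, hz₁, rfl⟩ := hS hqS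
      have hz₁' : z₁ ∈ closure (OB M N) := by
        rcases hq with hq | ⟨w, hw, hwz⟩
        · exact absurd hq (h.chart.ne z₁)
        · exact h.chart.inj hwz ▸ hw
      rintro x ⟨F, ⟨⟨U, hU, rfl⟩, y, hyF, hyS⟩, hx⟩
      rcases b3_face h hU with ⟨U', hU', he⟩ | he
      · right
        rw [he] at hx hyF
        obtain ⟨w, hw, rfl⟩ := hx
        obtain ⟨z, hz, rfl⟩ := hyF
        obtain ⟨z', hz', hzz⟩ := hS hyS
        rw [h.chart.inj hzz] at hz'
        refine ⟨w, show infDist w (closure (OB M N)) ≤ max (2 * a + 3) (b + 3) from ?_, rfl⟩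
        have k1 : infDist w (closure (OB M N)) ≤ dist w z₁ := infDist_le_dist_of_mem hz₁'
        have k2 : dist w z ≤ 3 := FB_dist h.hM hU' hw hz
        have k3 : dist z z₀ ≤ a := hz'
        have k4 : dist z₁ z₀ ≤ a := hz₁
        have k5 : dist w z₁ ≤ dist w z + dist z z₀ + dist z₀ z₁ := dist_triangle4 _ _ _ _
        rw [dist_comm z₀ z₁] at k5
        refine le_trans ?_ (le_max_left _ _)
        linarith
      · rw [he] at hx
        exact b3_sub p σ M N (le_trans (by linarith) (le_max_right (2 * a + 3) (b + 3))) hx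
    · left
      refine ⟨z₀, ?_⟩
      rintro x ⟨F, ⟨⟨U, hU, rfl⟩, y, hyF, hyS⟩, hx⟩
      rcases b3_face h hU with ⟨U', hU', he⟩ | he
      · rw [he] at hx hyF
        obtain ⟨w, hw, rfl⟩ := hx
        obtain ⟨z, hz, rfl⟩ := hyF
        obtain ⟨z', hz', hzz⟩ := hS hyS
        rw [h.chart.inj hzz] at hz'
        refine ⟨w, ?_, rfl⟩
        have k2 : dist w z ≤ 3 := FB_dist h.hM hU' hw hz
        have k3 : dist z z₀ ≤ a := hz'
        have k5 : dist w z₀ ≤ dist w z + dist z z₀ := dist_triangle _ _ _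
        exact mem_closedBall.2 (by linarith)
      · rw [he] at hyF
        exact absurd ⟨y, hyF, hyS⟩ hm
  · right
    rintro x ⟨F, ⟨⟨U, hU, rfl⟩, y, hyF, hyS⟩, hx⟩
    rcases b3_face h hU with ⟨U', hU', he⟩ | he
    · right
      rw [he] at hx hyF
      obtain ⟨w, hw, rfl⟩ := hx
      obtain ⟨z, hz, rfl⟩ := hyF
      refine ⟨w, show infDist w (closure (OB M N)) ≤ max (2 * a + 3) (b + 3) from ?_, rfl⟩
      have hz' : infDist z (closure (OB M N)) ≤ b := by
        rcases hS hyS with hq | ⟨w, hw, hwz⟩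
        · exact absurd hq (h.chart.ne z)
        · rw [← h.chart.inj hwz]
          exact hw
      have k2 : dist w z ≤ 3 := FB_dist h.hM hU' hw hz
      have k3 : infDist w (closure (OB M N)) ≤ infDist z (closure (OB M N)) + dist w z := infDist_le_infDist_add_dist
      refine le_trans ?_ (le_max_right _ _)
      linarith
    · rw [he] at hx
      exact b3_sub p σ M N (le_trans (by linarith) (le_max_right (2 * a + 3) (b + 3))) hx

private theorem b3_D (h : Lev0 P η p σ M N ε) {S : Set X} {a b ρ : ℝ} (hρ : ρ ≤ 1) (hS : b3Q p σ M N a b S) :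
    b3Q p σ M N (a + 1) (b + 1) (DSt0 σ M N ρ S) := by
  rcases hS with ⟨z₀, hS⟩ | hS
  · left
    refine ⟨z₀, ?_⟩
    rintro x (hx | ⟨D, ⟨θ, ⟨θ', hθ', rfl⟩, hθS, rfl⟩, hx⟩)
    · exact image_mono (closedBall_subset_closedBall (by linarith)) (hS hx)
    · rw [D0, preimage_image_eq _ h.chart.inj] at hx
      obtain ⟨w, hw, rfl⟩ := hx
      obtain ⟨v, hv, hwv⟩ := mem_thickening_iff.1 hw
      obtain ⟨v', hv', hvv⟩ := hS (hθS ⟨v, hv, rfl⟩)
      rw [h.chart.inj hvv] at hv'
      have k3 : dist v z₀ ≤ a := hv'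
      have k5 : dist w z₀ ≤ dist w v + dist v z₀ := dist_triangle _ _ _
      exact ⟨w, mem_closedBall.2 (by linarith), rfl⟩
  · right
    rintro x (hx | ⟨D, ⟨θ, ⟨θ', hθ', rfl⟩, hθS, rfl⟩, hx⟩)
    · exact b3_sub' p σ M N (by linarith) (hS hx)
    · rw [D0, preimage_image_eq _ h.chart.inj] at hx
      obtain ⟨w, hw, rfl⟩ := hx
      obtain ⟨v, hv, hwv⟩ := mem_thickening_iff.1 hw
      have hv' : infDist v (closure (OB M N)) ≤ b := by
        rcases hS (hθS ⟨v, hv, rfl⟩) with hq | ⟨w, hw, hwz⟩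
        · exact absurd hq (h.chart.ne v)
        · rw [← h.chart.inj hwz]
          exact hw
      have k3 : infDist w (closure (OB M N)) ≤ infDist v (closure (OB M N)) + dist w v := infDist_le_infDist_add_dist
      exact Or.inr ⟨w, show infDist w (closure (OB M N)) ≤ b + 1 by linarith, rfl⟩

private theorem b3_far (h : Lev0 P η p σ M N ε) {z : ℂ} (hz : infDist z (closure (OB M N)) ≤ 25) :
    dist (σ z) p < η / 20 := by
  have hN : 1 ≤ N := le_trans (by norm_num) h.hN
  apply h.c2
  rintro ⟨⟨h1, h2⟩, h3, h4⟩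
  have h5 : 100 ≤ infDist z (closure (OB M N)) := by
    rw [le_infDist (b3_ne M N h.hM hN)]
    intro w hw
    have hre : |z.re - w.re| ≤ dist z w := by
      rw [dist_eq_norm, ← Complex.sub_re]
      exact Complex.abs_re_le_norm _
    have him : |z.im - w.im| ≤ dist z w := by
      rw [dist_eq_norm, ← Complex.sub_im]
      exact Complex.abs_im_le_norm _
    rw [OB_closure h.hM hN] at hw
    rcases hw with ((⟨hw, -⟩ | ⟨hw, -⟩) | ⟨-, hw⟩) | ⟨-, hw⟩
    · have hw' : w.re ≤ ((0 : ℤ) : ℝ) := hw
      push_cast at hw'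
      linarith [le_abs_self (z.re - w.re)]
    · have hw' : ((2 * M : ℤ) : ℝ) ≤ w.re := hw
      push_cast at hw'
      linarith [neg_abs_le (z.re - w.re)]
    · have hw' : w.im ≤ ((0 : ℤ) : ℝ) := hw
      push_cast at hw'
      linarith [le_abs_self (z.im - w.im)]
    · have hw' : (N : ℝ) ≤ w.im := hw
      linarith [neg_abs_le (z.im - w.im)]
  linarith

private theorem b3_diam (h : Lev0 P η p σ M N ε) (hη : 0 < η) {T : Set X} (hT : b3Q p σ M N 10 25 T) :
    diam T < η := by
  rcases hT with ⟨z₀, hT⟩ | hT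
  · refine lt_of_le_of_lt (diam_le_of_forall_dist_le (C := η / 20) (by linarith) ?_) (by linarith)
    intro x hx y hy
    obtain ⟨z, hz, rfl⟩ := hT hx
    obtain ⟨w, hw, rfl⟩ := hT hy
    have k1 : dist z z₀ ≤ 10 := hz
    have k2 : dist w z₀ ≤ 10 := hw
    have k3 : dist z w ≤ dist z z₀ + dist w z₀ := dist_triangle_right _ _ _
    exact (h.c1 z w (by linarith)).le
  · have key : ∀ x ∈ T, dist x p ≤ η / 20 := by
      intro x hx
      rcases hT hx with hq | ⟨w, hw, rfl⟩
      · rw [hq, dist_self]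
        linarith
      · exact (b3_far h hw).le
    refine lt_of_le_of_lt (diam_le_of_forall_dist_le (C := η / 10) (by linarith) ?_) (by linarith)
    intro x hx y hy
    have k3 : dist x y ≤ dist x p + dist y p := dist_triangle_right _ _ _
    linarith [key x hx, key y hy]

theorem star0 (h : Lev0 P η p σ M N ε) (hη : 0 < η) {U : Set X} (hU : U ∈ Fc (E0 σ M N)) {S : Set X}
    (hS : S = closure U ∨ S = St0 σ M N (closure U) ∨ S = St0 σ M N (St0 σ M N (closure U))) :
    diam (DSt0 σ M N (20 * ε) S) < η := by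
  have hρ : 20 * ε ≤ 1 := by
    have := h.hε'
    have := h.hε
    linarith
  have q0 := b3_start h hU
  have q1 : b3Q p σ M N 6 9 (St0 σ M N (closure U)) :=
    b3_mono (by norm_num) (by norm_num) (b3_step h (le_refl 0) q0)
  have q2 : b3Q p σ M N 9 24 (St0 σ M N (St0 σ M N (closure U))) :=
    b3_mono (by norm_num) (by norm_num) (b3_step h (by norm_num) q1)
  have qS : b3Q p σ M N 9 24 S := by
    rcases hS with rfl | rfl | rfl
    · exact b3_mono (by norm_num) (by norm_num) q0
    · exact b3_mono (by norm_num) (by norm_num) q1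
    · exact q2
  exact b3_diam h hη (b3_mono (by norm_num) (by norm_num) (b3_D h hρ qS))

end Pool.N0
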