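import Pool.Agent.N0.Defs
import Pool.Agent.ETM.Ctx

/-!
# The network of level 0 in the sphere and the networks of level `k`: definitions

`p : X` is the point at infinity of the chart `σ : ℂ → X`.
-/

open Set Metric Topology Filter
open Pool.JS Pool.ETM

namespace Pool.N0

variable {X : Type*}

/-- vertices of level 0 -/
def V0 (σ : ℂ → X) (M N : ℤ) : Set X := σ '' VB M N

/-- edges of level 0 -/
def E0 (σ : ℂ → X) (M N : ℤ) : Set (Set X) := {e | ∃ e' ∈ EB M N, e = σ '' e'}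

/-- faces of level 0 -/
def F0 (p : X) (σ : ℂ → X) (M N : ℤ) : Set (Set X) :=
  {W | (∃ U ∈ FB M N, W = σ '' U) ∨ W = insert p (σ '' OB M N)}

/-- the coordinate of level 0, an inverse of `σ` -/
noncomputable def tau (σ : ℂ → X) : X → ℂ := Function.invFun σ

/-- the neighbourhood of the edge `θ` of level 0 -/
noncomputable def D0 (σ : ℂ → X) (ρ : ℝ) (θ : Set X) : Set X := σ '' thickening ρ (σ ⁻¹' θ)

section

variable [TopologicalSpace X]

/-- the neighbourhood of the edge `θ` of level `k` (`g = f^[k]`) -/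
noncomputable def Dk (σ : ℂ → X) (ρ : ℝ) (g : X → X) (θ : Set X) : Set X :=
  ⋃₀ {C | IsPreconnected C ∧ θ ⊆ C ∧ C ⊆ g ⁻¹' D0 σ ρ (g '' θ)}

end

/-- the standing assumptions on the chart of level 0 (block C proves that they can be satisfied) -/
structure Lev0 [MetricSpace X] (P : Set X) (η : ℝ) (p : X) (σ : ℂ → X) (M N : ℤ) (ε : ℝ) : Prop where
  chart : Chart p σ
  hM : 1 ≤ M
  hN : 2 ≤ N
  hε : 0 < ε
  hε' : 400 * ε ≤ 1
  c1 : ∀ z w : ℂ, dist z w ≤ 100 → dist (σ z) (σ w) < η / 20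
  c2 : ∀ z : ℂ, z ∉ Bx (Icc 100 (2 * M - 100)) (Icc 100 (N - 100)) → dist (σ z) p < η / 20
  c3 : ∀ z : ℂ, σ z ∈ P → 40 * ε ≤ infDist z (⋃₀ EB M N)

end Pool.N0
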