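import Pool.Agent.N0.BDefs
import Pool.Agent.N0.A3
import Pool.Agent.N0.A5
import Pool.Agent.JS.SpA

/-!
MODULE C1 (difficulty 3).  The choice of the chart of level 0.

RECIPE.  Take any point `p`, a chart `σ₀` (`exists_chart`).  (1) There is `R ≥ 1` with `dist (σ₀ z) p < η / 40` for `‖z‖ ≥ R`: the set `{x | η / 40 ≤ dist x p}` is closed and does not contain `p`, its preimage is compact (`Chart.isCompact_preimage`), so bounded.
(2) There is `δ ∈ (0, 1)` such that `dist z w < δ` implies `dist (σ₀ z) (σ₀ w) < η / 20`: uniform continuity on `closedBall 0 (R + 2)` (`IsCompact.uniformContinuousOn_of_continuous`), and if `‖z‖ ≥ R + 1` then both points have norm at least `R` and (1) gives `η / 40 + η / 40`.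
(3) `s > 0` with `100 * s < δ` ; an integer `M ≥ 101 + R / s`, `N = 2 * M`.  The finite set `B = σ₀ ⁻¹' P`.  Choose `u, v ∈ [0, 1)` with `(b.re / s) - u ∉ ℤ` and `(b.im / s) - v ∉ ℤ` for `b ∈ B` (finitely many fractional parts `Int.fract (b.re / s)` are excluded: `Set.Infinite` of `Ico 0 1`).
`σ z = σ₀ (s * (z - M - M I) + s * (u + v I))`: chart at `p` (homeomorphism of the plane composed with `σ₀`).  `c1`: the distance is multiplied by `s`.  `c2`: if `z.re < 100` then the real part of the argument is `≤ s (100 - M) + s ≤ - R`; if `z.re > 2 M - 100` it is `≥ s (M - 100) ≥ R`; same for the imaginary part: norm at least `R`.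
`c3`: if `σ z ∈ P`, the argument is in `B`, so `z.re = b.re / s - u + M` is not an integer, `z.im` is not an integer, and `z ∉ ⋃₀ EB` (an edge has integer real part or integer imaginary part); the set `⋃₀ EB` is closed (finite union of compact sets), nonempty, so `infDist z (⋃₀ EB) > 0`; there are finitely many such `z`: take `ε` the minimum of `1 / 400` and
these numbers divided by 40.  (`EB M N` is finite: `JS.GrX.finE` of `grX_wall` or directly.)
-/

open Set Metric Topology Filter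
open Pool.JS Pool.ETM

namespace Pool.N0

variable {X : Type*} [MetricSpace X] [CompactSpace X] [Nonempty X] [Sph X] {P : Set X} {η : ℝ}

theorem c1_EBfin (M N : ℤ) : (EB M N).Finite := by
  have h1 : (((fun ab : ℤ × ℤ => hE ab.1 ab.2) '' (Icc 0 (2 * M) ×ˢ Icc 0 N)) ∪
      ((fun ab : ℤ × ℤ => vE ab.1 ab.2) '' (Icc 0 (2 * M) ×ˢ Icc 0 N))).Finite :=
    (((finite_Icc _ _).prod (finite_Icc _ _)).image _).union (((finite_Icc _ _).prod (finite_Icc _ _)).image _)
  refine h1.subset ?_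
  rintro e (⟨a, b, h2, h3, h4, h5, rfl⟩ | ⟨a, b, h2, h3, h4, h5, _, rfl⟩)
  · exact Or.inl ⟨(a, b), ⟨⟨h2, h3.le⟩, ⟨h4, h5⟩⟩, rfl⟩
  · exact Or.inr ⟨(a, b), ⟨⟨h2, h3⟩, ⟨h4, h5.le⟩⟩, rfl⟩

theorem c1_closed (M N : ℤ) : IsClosed (⋃₀ EB M N) := by
  rw [sUnion_eq_biUnion]
  exact (c1_EBfin M N).isClosed_biUnion fun e he => (EB_compact he).1.isClosed

theorem c1_int {M N : ℤ} {z : ℂ} (hz : z ∈ ⋃₀ EB M N) : (∃ a : ℤ, z.re = a) ∨ ∃ b : ℤ, z.im = b := by
  obtain ⟨e, he, hze⟩ := hz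
  rcases he with ⟨a, b, _, _, _, _, rfl⟩ | ⟨a, b, _, _, _, _, _, rfl⟩
  · exact Or.inr ⟨b, le_antisymm hze.2.2 hze.2.1⟩
  · exact Or.inl ⟨a, le_antisymm hze.1.2 hze.1.1⟩

theorem c1_fract {w s u x : ℝ} {M : ℤ} (hs : 0 < s) (hu : u ∈ Ico (0 : ℝ) 1) (hw : w = s * (x + (u - M))) {a : ℤ}
    (hx : x = a) : Int.fract (w / s) = u := by
  have h1 : w / s = u + ((a - M : ℤ) : ℝ) := by
    rw [hw, hx, mul_div_cancel_left₀ _ hs.ne']
    push_cast
    ring
  rw [h1, Int.fract_add_intCast]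
  exact Int.fract_eq_self.2 hu

theorem c1_min {α : Type*} {S : Set α} (hS : S.Finite) (g : α → ℝ) (hg : ∀ z ∈ S, 0 < g z) :
    ∃ ε : ℝ, 0 < ε ∧ 400 * ε ≤ 1 ∧ ∀ z ∈ S, 40 * ε ≤ g z := by
  rcases S.eq_empty_or_nonempty with h1 | h1
  · refine ⟨1 / 400, by norm_num, by norm_num, ?_⟩
    intro z hz
    rw [h1] at hz
    exact absurd hz (notMem_empty z)
  · obtain ⟨z₀, hz₀, h2⟩ := hS.exists_minimalFor g S h1
    have h4 : ∀ z ∈ S, g z₀ ≤ g z := by
      intro z hz
      rcases le_total (g z₀) (g z) with h5 | h5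
      · exact h5
      · exact h2 hz h5
    refine ⟨min (1 / 400) (g z₀ / 40), lt_min (by norm_num) (div_pos (hg z₀ hz₀) (by norm_num)), ?_, ?_⟩
    · have h3 := min_le_left (1 / 400) (g z₀ / 40)
      linarith
    · intro z hz
      have h3 := min_le_right (1 / 400) (g z₀ / 40)
      have h5 := h4 z hz
      linarith

theorem exists_lev0 (hP : P.Finite) (hη : 0 < η) :
    ∃ (p : X) (σ : ℂ → X) (M N : ℤ) (ε : ℝ), Lev0 P η p σ M N ε := by
  classical
  obtain ⟨p⟩ := (inferInstance : Nonempty X)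
  obtain ⟨σ₀, h₀⟩ := exists_chart p
  -- (1)
  obtain ⟨R, hR1, hR⟩ : ∃ R : ℝ, 1 ≤ R ∧ ∀ z : ℂ, R ≤ ‖z‖ → dist (σ₀ z) p < η / 40 := by
    have hcl : IsClosed {x | η / 40 ≤ dist x p} := isClosed_le continuous_const (by fun_prop)
    have hpn : p ∉ {x | η / 40 ≤ dist x p} := by
      intro h1
      have h2 : η / 40 ≤ dist p p := h1
      rw [dist_self] at h2
      linarith
    obtain ⟨R₀, hR₀⟩ := (h₀.isCompact_preimage hcl hpn).isBounded.subset_closedBall 0
    refine ⟨max R₀ 0 + 1, by linarith [le_max_right R₀ 0], ?_⟩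
    intro z hz
    by_contra hcon
    have h1 : z ∈ closedBall (0 : ℂ) R₀ := hR₀ (show η / 40 ≤ dist (σ₀ z) p from not_lt.1 hcon)
    rw [mem_closedBall, dist_zero_right] at h1
    linarith [le_max_left R₀ 0]
  -- (2)
  obtain ⟨δ, hδ, hδ1, hδ2⟩ : ∃ δ : ℝ, 0 < δ ∧ δ ≤ 1 ∧ ∀ z w : ℂ, dist z w < δ → dist (σ₀ z) (σ₀ w) < η / 20 := by
    have h1 := (isCompact_closedBall (0 : ℂ) (R + 2)).uniformContinuousOn_of_continuous h₀.cont.continuousOn
    obtain ⟨δ, hδ, h2⟩ := Metric.uniformContinuousOn_iff.1 h1 (η / 20) (by linarith)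
    refine ⟨min δ 1, lt_min hδ one_pos, min_le_right _ _, ?_⟩
    intro z w hzw
    have h3 : dist z w < δ := lt_of_lt_of_le hzw (min_le_left _ _)
    have h4 : dist z w < 1 := lt_of_lt_of_le hzw (min_le_right _ _)
    have h5 : |‖z‖ - ‖w‖| ≤ dist z w := by
      rw [dist_eq_norm]
      exact abs_norm_sub_norm_le z w
    have h6 := abs_le.1 (h5.trans h4.le)
    by_cases h7 : ‖z‖ ≤ R + 1
    · refine h2 z ?_ w ?_ h3
      · rw [mem_closedBall, dist_zero_right]
        linarith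
      · rw [mem_closedBall, dist_zero_right]
        linarith [h6.1]
    · rw [not_le] at h7
      have k1 := hR z (by linarith)
      have k2 := hR w (by linarith [h6.2])
      have k3 := dist_triangle_right (σ₀ z) (σ₀ w) p
      linarith
  -- (3)
  set s : ℝ := δ / 200 with hs
  have hs0 : 0 < s := by positivity
  set M : ℤ := ⌈101 + R / s⌉ with hM
  have hMle : 101 + R / s ≤ (M : ℝ) := Int.le_ceil _
  have hRs : 0 < R / s := div_pos (by linarith) hs0
  have hsM : R ≤ s * (M - 101) := by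
    have h1 : R / s ≤ (M : ℝ) - 101 := by linarith
    rw [div_le_iff₀ hs0] at h1
    linarith
  have hM1 : 1 ≤ M := by
    have h1 : (1 : ℝ) ≤ (M : ℝ) := by linarith
    exact_mod_cast h1
  have hBfin : (σ₀ ⁻¹' P).Finite := hP.preimage h₀.inj.injOn
  obtain ⟨u, hu, hu2⟩ := (Ico_infinite (zero_lt_one (α := ℝ))).exists_notMem_finite
    (hBfin.image fun b => Int.fract (b.re / s))
  obtain ⟨v, hv, hv2⟩ := (Ico_infinite (zero_lt_one (α := ℝ))).exists_notMem_finite
    (hBfin.image fun b => Int.fract (b.im / s))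
  set c : ℂ := ⟨u - M, v - M⟩ with hc
  have hsC : (s : ℂ) ≠ 0 := by exact_mod_cast hs0.ne'
  set φ : ℂ ≃ₜ ℂ := (Homeomorph.addRight c).trans (Homeomorph.mulLeft₀ (s : ℂ) hsC) with hφ
  have hφz : ∀ z, φ z = (s : ℂ) * (z + c) := fun z => rfl
  have hre : ∀ z, (φ z).re = s * (z.re + (u - M)) := by
    intro z
    rw [hφz, Complex.re_ofReal_mul]
    rfl
  have him : ∀ z, (φ z).im = s * (z.im + (v - M)) := by
    intro z
    rw [hφz, Complex.im_ofReal_mul]
    rfl
  have hch : Chart p (fun z => σ₀ (φ z)) := by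
    refine ⟨h₀.emb.comp φ.isOpenEmbedding, ?_⟩
    rw [← h₀.range]
    exact φ.surjective.range_comp σ₀
  have hSfin : ((fun z => σ₀ (φ z)) ⁻¹' P).Finite := hP.preimage hch.inj.injOn
  have hne : (⋃₀ EB M (2 * M)).Nonempty := by
    have h1 : hE 0 0 ∈ EB M (2 * M) := Or.inl ⟨0, 0, le_rfl, by omega, le_rfl, by omega, rfl⟩
    obtain ⟨z, hz⟩ := (EB_compact h1).2.2
    exact ⟨z, _, h1, hz⟩
  obtain ⟨ε, hε, hε1, hε2⟩ := c1_min hSfin (fun z => infDist z (⋃₀ EB M (2 * M))) (by
    intro z hz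
    refine ((c1_closed M (2 * M)).notMem_iff_infDist_pos hne).1 ?_
    intro hzE
    rcases c1_int hzE with ⟨a, ha⟩ | ⟨a, ha⟩
    · exact hu2 ⟨φ z, hz, c1_fract hs0 hu (hre z) ha⟩
    · exact hv2 ⟨φ z, hz, c1_fract hs0 hv (him z) ha⟩)
  refine ⟨p, fun z => σ₀ (φ z), M, 2 * M, ε, hch, hM1, by omega, hε, hε1, ?_, ?_, fun z hz => hε2 z hz⟩
  · intro z w hzw
    refine hδ2 _ _ ?_
    rw [hφz, hφz, dist_eq_norm, ← mul_sub, add_sub_add_right_eq_sub, norm_mul, Complex.norm_real, Real.norm_eq_abs,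
      abs_of_pos hs0, ← dist_eq_norm]
    have h1 : s * dist z w ≤ s * 100 := mul_le_mul_of_nonneg_left hzw hs0.le
    have h2 : s * 100 = δ / 2 := by
      rw [hs]
      ring
    linarith
  · intro z hz
    have hlt : dist (σ₀ (φ z)) p < η / 40 := by
      refine hR _ ?_
      have hcase : ∀ (x t : ℝ), t ∈ Ico (0 : ℝ) 1 → (x < 100 ∨ 2 * M - 100 < x) → R ≤ |s * (x + (t - M))| := by
        intro x t ht hx
        rcases hx with hx | hx
        · have h1 : s * (x + (t - M)) ≤ s * (101 - M) := mul_le_mul_of_nonneg_left (by linarith [ht.2]) hs0.le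
          have h2 : s * (101 - M) ≤ -R := by linarith
          have h3 : -(s * (x + (t - M))) ≤ |s * (x + (t - M))| := neg_le_abs _
          linarith
        · have h1 : s * (M - 101) ≤ s * (x + (t - M)) := mul_le_mul_of_nonneg_left (by linarith [ht.1]) hs0.le
          have h3 := le_abs_self (s * (x + (t - M)))
          linarith
      by_cases h1 : z.re ∈ Icc (100 : ℝ) (2 * M - 100)
      · have h2 : z.im ∉ Icc (100 : ℝ) (((2 * M : ℤ) : ℝ) - 100) := fun h3 => hz ⟨h1, h3⟩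
        refine le_trans ?_ (Complex.abs_im_le_norm (φ z))
        rw [him]
        refine hcase _ _ hv ?_
        by_contra h3
        rw [not_or, not_lt, not_lt] at h3
        refine h2 ⟨h3.1, ?_⟩
        push_cast
        exact h3.2
      · refine le_trans ?_ (Complex.abs_re_le_norm (φ z))
        rw [hre]
        refine hcase _ _ hu ?_
        by_contra h3
        rw [not_or, not_lt, not_lt] at h3
        exact h1 h3
    linarith

end Pool.N0
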