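import Pool.Agent.N0.BDefs
import Pool.Agent.N0.A3
import Pool.Agent.N0.A5
import Pool.Agent.JS.SpA

/-!
MODULE D1 (difficulty 2).  The neighbourhoods of the edges of level 0.

RECIPE.  `tau` is the inverse of the open embedding `σ` (`Function.leftInverse_invFun`); continuity of `tau` at `σ z`: `IsOpenEmbedding.continuousAt_iff` (see `JS.eilenbergX` in JS/SpG).  `E0_form`: `θ = σ '' e`, `σ ⁻¹' θ = e` by injectivity, `tau σ '' θ = e`.
`D0`: `thickening ρ e` is open, convex (`Convex.thickening`, `EB_compact`), nonempty (`ρ > 0`), so simply connected (a convex set is contractible: `Convex.contractibleSpace`, `SimplyConnectedSpace` of a contractible space), and `IsSimplyConnected` is preserved by the embedding `σ` (`Topology.IsEmbedding.isSimplyConnected_image` or the lemmas next to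
`IsSimplyConnected` in `Mathlib.AlgebraicTopology.FundamentalGroupoid.SimplyConnected`).  `D0 ∩ P = ∅`: for `z ∈ thickening (20 ε) e` we have `infDist z (⋃₀ EB) ≤ infDist z e < 20 ε` (`infDist_le_infDist_of_subset`), but `c3` says `≥ 40 ε` if `σ z ∈ P`.
`diam`: two points of the thickening have distance at most `1 + 2 * 20 * ε ≤ 100` (`EB_dist`), `c1`, `Metric.diam_le_of_forall_dist_le`, `η > 0`.
-/

open Set Metric Topology Filter
open Pool.JS Pool.ETM

namespace Pool.N0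

section

variable {X : Type*} [TopologicalSpace X] {p : X} {σ : ℂ → X}

theorem tau_sigma (h : Chart p σ) (z : ℂ) : tau σ (σ z) = z := by
  exact Function.leftInverse_invFun h.inj z

theorem sigma_tau (h : Chart p σ) {x : X} (hx : x ≠ p) : σ (tau σ x) = x := by
  obtain ⟨z, rfl⟩ := h.exists_eq hx
  rw [tau_sigma h]

theorem tau_cont (h : Chart p σ) : ContinuousOn (tau σ) {p}ᶜ := by
  intro x hx
  obtain ⟨z, rfl⟩ := h.exists_eq (y := x) hx
  refine ContinuousAt.continuousWithinAt ?_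
  rw [← h.emb.continuousAt_iff]
  have h1 : tau σ ∘ σ = id := by
    funext w
    exact tau_sigma h w
  rw [h1]
  exact continuousAt_id

theorem E0_form (h : Chart p σ) {M N : ℤ} {θ : Set X} (hθ : θ ∈ E0 σ M N) :
    σ ⁻¹' θ ∈ EB M N ∧ θ = σ '' (σ ⁻¹' θ) ∧ tau σ '' θ = σ ⁻¹' θ := by
  obtain ⟨e, he, rfl⟩ := hθ
  rw [preimage_image_eq _ h.inj]
  refine ⟨he, rfl, ?_⟩
  rw [image_image]
  simp only [tau_sigma h, image_id']

end

variable {X : Type*} [MetricSpace X] [CompactSpace X] {P : Set X} {η ε : ℝ} {p : X} {σ : ℂ → X} {M N : ℤ} {θ : Set X}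

theorem D0_open (h : Lev0 P η p σ M N ε) (hθ : θ ∈ E0 σ M N) : IsOpen (D0 σ (20 * ε) θ) ∧ θ ⊆ D0 σ (20 * ε) θ := by
  obtain ⟨_, h2, _⟩ := E0_form h.chart hθ
  refine ⟨h.chart.emb.isOpenMap _ isOpen_thickening, ?_⟩
  intro x hx
  rw [h2] at hx
  have hpos : 0 < 20 * ε := by linarith [h.hε]
  exact image_mono (self_subset_thickening hpos _) hx

theorem D0_sc (h : Lev0 P η p σ M N ε) (hθ : θ ∈ E0 σ M N) : IsSimplyConnected (D0 σ (20 * ε) θ) := by
  obtain ⟨h1, _, _⟩ := E0_form h.chart hθ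
  obtain ⟨_, hc, hne⟩ := EB_compact h1
  have hpos : 0 < 20 * ε := by linarith [h.hε]
  unfold D0
  rw [h.chart.emb.isEmbedding.isSimplyConnected_image]
  have hc2 : Convex ℝ (thickening (20 * ε) (σ ⁻¹' θ)) := hc.thickening _
  have hne2 : (thickening (20 * ε) (σ ⁻¹' θ)).Nonempty := hne.mono (self_subset_thickening hpos _)
  have : ContractibleSpace (thickening (20 * ε) (σ ⁻¹' θ)) := hc2.contractibleSpace hne2
  show SimplyConnectedSpace (thickening (20 * ε) (σ ⁻¹' θ))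
  infer_instance

theorem D0_avoid (h : Lev0 P η p σ M N ε) (hθ : θ ∈ E0 σ M N) :
    Disjoint (D0 σ (20 * ε) θ) P ∧ p ∉ D0 σ (20 * ε) θ := by
  obtain ⟨h1, _, _⟩ := E0_form h.chart hθ
  constructor
  · rw [Set.disjoint_left]
    rintro _ ⟨z, hz, rfl⟩ hP
    have h3 := h.c3 z hP
    obtain ⟨w, hw, hzw⟩ := mem_thickening_iff.1 hz
    have h4 : infDist z (⋃₀ EB M N) ≤ dist z w := infDist_le_dist_of_mem ⟨_, h1, hw⟩
    linarith [h.hε]
  · rintro ⟨z, _, hz⟩
    exact h.chart.ne z hz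

theorem D0_diam (h : Lev0 P η p σ M N ε) (hη : 0 < η) (hθ : θ ∈ E0 σ M N) : diam (D0 σ (20 * ε) θ) < η := by
  obtain ⟨h1, _, _⟩ := E0_form h.chart hθ
  have h5 : diam (D0 σ (20 * ε) θ) ≤ η / 20 := by
    refine diam_le_of_forall_dist_le (by positivity) ?_
    rintro _ ⟨z, hz, rfl⟩ _ ⟨w, hw, rfl⟩
    obtain ⟨z', hz', hzz⟩ := mem_thickening_iff.1 hz
    obtain ⟨w', hw', hww⟩ := mem_thickening_iff.1 hw
    refine (h.c1 z w ?_).le
    have h2 := EB_dist h1 hz' hw'
    have h3 := dist_triangle4 z z' w' w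
    rw [dist_comm w' w] at h3
    linarith [h.hε']
  linarith

theorem D0_tau (h : Lev0 P η p σ M N ε) (hθ : θ ∈ E0 σ M N) :
    tau σ '' D0 σ (20 * ε) θ = thickening (20 * ε) (tau σ '' θ) := by
  obtain ⟨_, _, h3⟩ := E0_form h.chart hθ
  rw [h3]
  unfold D0
  rw [image_image]
  simp only [tau_sigma h.chart, image_id']

theorem E0_avoid (h : Lev0 P η p σ M N ε) : Disjoint (⋃₀ E0 σ M N) P := by
  rw [Set.disjoint_left]
  rintro x ⟨θ, hθ, hx⟩ hP
  obtain ⟨e, he, rfl⟩ := hθ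
  obtain ⟨z, hz, rfl⟩ := hx
  have h3 := h.c3 z hP
  have h4 : infDist z (⋃₀ EB M N) ≤ dist z z := infDist_le_dist_of_mem ⟨e, he, hz⟩
  rw [dist_self] at h4
  linarith [h.hε]

end Pool.N0
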