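import Pool.Agent.N0.LEs
import Pool.Agent.N0.D1
import Pool.Agent.N0.A5

/-!
MODULE D2 (difficulty 3).  The neighbourhoods of the edges of level `k` (`g = f^[k]`).

RECIPE.  `θ ∈ pullE g (E0 ..)`: there is `e ∈ E0` with `IsComp θ (g ⁻¹' e)` (`IsComp U S` is `FaceX Sᶜ U`: nonempty, preconnected, contained in `S`, maximal).  Let `x ∈ θ` and let `W` be the component of `g ⁻¹' D0 σ ρ e` containing `x` (`connectedComponentIn`; `FaceX`: `exists_face` of JS/ThA or directly).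
`θ ⊆ W` by maximality (`e ⊆ D0`).  `comp_sc` (with `D0_open`, `D0_sc`, `D0_avoid`): `W` open, `g` injective on `W`, `g '' W = D0 σ ρ e`.  `g` is continuous and open, so `g` restricted to `W` is a homeomorphism onto `D0 e`; hence `W ∩ g ⁻¹' e` is preconnected (image of the connected set `e` under the continuous inverse), contained in `g ⁻¹' e`,
and meets `θ`: so `W ∩ g ⁻¹' e ⊆ θ`, and `θ = W ∩ g ⁻¹' e`, `g '' θ = e`.  Finally `Dk σ ρ g θ = W`: `W` is one of the sets `C`, and every `C` is preconnected, contained in `g ⁻¹' D0 (g '' θ)` and meets `W`, so `C ⊆ W`.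
`Dk_unique`: `Dk θ` and `Dk θ'` are components of the same set with a common point, so equal, and `θ = Dk ∩ g ⁻¹' (g '' θ)`.
`Dk_open_image`: `g` restricted to `Dk` is an open injective continuous map: the inverse is continuous.
-/

open Set Metric Topology Filter
open Pool.JS Pool.ETM

namespace Pool.N0

variable {X : Type*} [MetricSpace X] [CompactSpace X] [Sph X] {P : Set X} {η ε : ℝ} {p : X} {σ : ℂ → X} {M N : ℤ}
  {θ θ' : Set X} {g : X → X}

theorem d2_comp {X : Type*} [TopologicalSpace X] {S : Set X} {x : X} (hx : x ∈ S) :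
    IsComp (connectedComponentIn S x) S where
  ne := ⟨x, mem_connectedComponentIn hx⟩
  conn := isPreconnected_connectedComponentIn
  sub := by
    rw [compl_compl]
    exact connectedComponentIn_subset S x
  max := by
    rintro C hC hCs ⟨y, hyC, hy⟩
    rw [compl_compl] at hCs
    rw [connectedComponentIn_eq hy]
    exact hC.subset_connectedComponentIn hyC hCs

theorem d2_preconn {X Y : Type*} [TopologicalSpace X] [TopologicalSpace Y] {g : X → Y} (hg : IsOpenMap g)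
    {W : Set X} (hW : IsOpen W) (hi : InjOn g W) {e : Set Y} (he : IsPreconnected e) (hs : e ⊆ g '' W) :
    IsPreconnected (W ∩ g ⁻¹' e) := by
  have h1 : IsPreconnected ((fun y : W => g y) ⁻¹' e) := by
    apply he.preimage_of_isOpenMap
    · intro a b hab
      exact Subtype.ext (hi a.2 b.2 hab)
    · exact hg.comp hW.isOpenMap_subtype_val
    · intro y hy
      obtain ⟨a, ha, rfl⟩ := hs hy
      exact ⟨⟨a, ha⟩, rfl⟩
  have h2 := h1.image Subtype.val continuous_subtype_val.continuousOn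
  have h3 : Subtype.val '' ((fun y : W => g y) ⁻¹' e) = W ∩ g ⁻¹' e := by
    ext a
    constructor
    · rintro ⟨b, hb, rfl⟩
      exact ⟨b.2, hb⟩
    · rintro ⟨ha, ha'⟩
      exact ⟨⟨a, ha⟩, ha', rfl⟩
  rwa [h3] at h2

theorem d2_inv {X Y : Type*} [TopologicalSpace X] [TopologicalSpace Y] [Nonempty X] {g : X → Y} (hg : IsOpenMap g)
    {W : Set X} (hW : IsOpen W) (hi : InjOn g W) : ContinuousOn (Function.invFunOn g W) (g '' W) := by
  rw [_root_.continuousOn_iff']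
  intro t ht
  refine ⟨g '' (t ∩ W), hg _ (ht.inter hW), ?_⟩
  ext y
  constructor
  · rintro ⟨hy, a, ha, rfl⟩
    refine ⟨⟨a, ⟨?_, ha⟩, rfl⟩, a, ha, rfl⟩
    rw [mem_preimage, hi.leftInvOn_invFunOn ha] at hy
    exact hy
  · rintro ⟨⟨a, ⟨hat, ha⟩, rfl⟩, -⟩
    refine ⟨?_, a, ha, rfl⟩
    rw [mem_preimage, hi.leftInvOn_invFunOn ha]
    exact hat

theorem d2_main (hg : Dyn g P) (h : Lev0 P η p σ M N ε) (hθ : θ ∈ pullE g (E0 σ M N)) :
    g '' θ ∈ E0 σ M N ∧ IsComp (Dk σ (20 * ε) g θ) (g ⁻¹' D0 σ (20 * ε) (g '' θ)) ∧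
      θ = Dk σ (20 * ε) g θ ∩ g ⁻¹' (g '' θ) ∧ θ.Nonempty ∧
      IsOpen (Dk σ (20 * ε) g θ) ∧ InjOn g (Dk σ (20 * ε) g θ) ∧
      g '' Dk σ (20 * ε) g θ = D0 σ (20 * ε) (g '' θ) := by
  obtain ⟨e, he, hc⟩ := hθ
  obtain ⟨x, hx⟩ := hc.ne
  obtain ⟨hDo, heD⟩ := D0_open h he
  have hθe : θ ⊆ g ⁻¹' e := by
    have := hc.sub
    rwa [compl_compl] at this
  have hxD : x ∈ g ⁻¹' D0 σ (20 * ε) e := heD (hθe hx)
  obtain ⟨W, hWd⟩ : ∃ W, W = connectedComponentIn (g ⁻¹' D0 σ (20 * ε) e) x := ⟨_, rfl⟩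
  have hW : IsComp W (g ⁻¹' D0 σ (20 * ε) e) := by
    rw [hWd]
    exact d2_comp hxD
  have hxW : x ∈ W := by
    rw [hWd]
    exact mem_connectedComponentIn hxD
  have hθW : θ ⊆ W := by
    apply hW.max θ hc.conn _ ⟨x, hx, hxW⟩
    rw [compl_compl]
    exact hθe.trans (preimage_mono heD)
  obtain ⟨hWo, hWi, hWim⟩ := comp_sc hg hDo (D0_sc h he) (D0_avoid h he).1 hW
  have hec : IsPreconnected e := by
    obtain ⟨e', he', rfl⟩ := he
    exact (EB_compact he').2.1.isPreconnected.image σ h.chart.emb.continuous.continuousOn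
  have hpre := d2_preconn hg.opn hWo hWi hec (heD.trans hWim.ge)
  have hθ1 : W ∩ g ⁻¹' e ⊆ θ := by
    apply hc.max _ hpre _ ⟨x, ⟨hxW, hθe hx⟩, hx⟩
    rw [compl_compl]
    exact inter_subset_right
  have hθ2 : θ = W ∩ g ⁻¹' e := Subset.antisymm (subset_inter hθW hθe) hθ1
  have hgθ : g '' θ = e := by
    rw [hθ2, image_inter_preimage, hWim]
    exact inter_eq_self_of_subset_right heD
  have hDk : Dk σ (20 * ε) g θ = W := by
    apply Subset.antisymm
    · apply sUnion_subset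
      rintro C ⟨hC1, hC2, hC3⟩
      apply hW.max C hC1 _ ⟨x, hC2 hx, hxW⟩
      rw [compl_compl]
      rw [hgθ] at hC3
      exact hC3
    · apply subset_sUnion_of_mem
      refine ⟨hW.conn, hθW, ?_⟩
      have := hW.sub
      rw [compl_compl] at this
      rw [hgθ]
      exact this
  rw [hDk, hgθ]
  exact ⟨he, hW, hθ2, ⟨x, hx⟩, hWo, hWi, hWim⟩

theorem lift_edge (hg : Dyn g P) (h : Lev0 P η p σ M N ε) (hθ : θ ∈ pullE g (E0 σ M N)) :
    g '' θ ∈ E0 σ M N ∧ IsComp (Dk σ (20 * ε) g θ) (g ⁻¹' D0 σ (20 * ε) (g '' θ)) ∧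
      θ = Dk σ (20 * ε) g θ ∩ g ⁻¹' (g '' θ) := by
  obtain ⟨h1, h2, h3, -⟩ := d2_main hg h hθ
  exact ⟨h1, h2, h3⟩

theorem lift_D (hg : Dyn g P) (h : Lev0 P η p σ M N ε) (hθ : θ ∈ pullE g (E0 σ M N)) :
    IsOpen (Dk σ (20 * ε) g θ) ∧ InjOn g (Dk σ (20 * ε) g θ) ∧
      g '' Dk σ (20 * ε) g θ = D0 σ (20 * ε) (g '' θ) ∧ θ ⊆ Dk σ (20 * ε) g θ := by
  obtain ⟨h1, h2, h3, h4, h5, h6, h7⟩ := d2_main hg h hθ
  refine ⟨h5, h6, h7, ?_⟩
  intro y hy
  rw [h3] at hy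
  exact hy.1

theorem Dk_unique (hg : Dyn g P) (h : Lev0 P η p σ M N ε) (hθ : θ ∈ pullE g (E0 σ M N))
    (hθ' : θ' ∈ pullE g (E0 σ M N)) (he : g '' θ = g '' θ')
    (hne : (Dk σ (20 * ε) g θ ∩ Dk σ (20 * ε) g θ').Nonempty) : θ = θ' := by
  obtain ⟨h1, h2, h3, -⟩ := d2_main hg h hθ
  obtain ⟨h1', h2', h3', -⟩ := d2_main hg h hθ'
  rw [← he] at h2' h3'
  have h4 : Dk σ (20 * ε) g θ = Dk σ (20 * ε) g θ' := by
    apply Subset.antisymm
    · exact h2'.max _ h2.conn h2.sub hne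
    · apply h2.max _ h2'.conn h2'.sub
      rw [inter_comm]
      exact hne
  rw [h3, h3', h4]

/-- the inverse branch on the neighbourhood of an edge, in the coordinate of level 0 -/
theorem lift_inverse (hg : Dyn g P) (h : Lev0 P η p σ M N ε) (hθ : θ ∈ pullE g (E0 σ M N)) :
    ∃ G : ℂ → X, ContinuousOn G (thickening (20 * ε) (tau σ '' (g '' θ))) ∧
      (∀ z ∈ thickening (20 * ε) (tau σ '' (g '' θ)), G z ∈ Dk σ (20 * ε) g θ ∧ tau σ (g (G z)) = z) ∧
      ∀ x ∈ Dk σ (20 * ε) g θ, tau σ (g x) ∈ thickening (20 * ε) (tau σ '' (g '' θ)) ∧ G (tau σ (g x)) = x := by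
  obtain ⟨h1, h2, h3, ⟨x₀, -⟩, h5, h6, h7⟩ := d2_main hg h hθ
  have : Nonempty X := ⟨x₀⟩
  have hT := D0_tau h h1
  have hp := (D0_avoid h h1).2
  have hσ : ∀ z ∈ thickening (20 * ε) (tau σ '' (g '' θ)), σ z ∈ D0 σ (20 * ε) (g '' θ) := by
    intro z hz
    rw [← hT] at hz
    obtain ⟨y, hy, rfl⟩ := hz
    rw [sigma_tau h.chart (fun h0 => hp (h0 ▸ hy))]
    exact hy
  refine ⟨fun z => Function.invFunOn g (Dk σ (20 * ε) g θ) (σ z), ?_, ?_, ?_⟩
  · have hc := d2_inv hg.opn h5 h6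
    rw [h7] at hc
    exact hc.comp h.chart.emb.continuous.continuousOn hσ
  · intro z hz
    have hz' := hσ z hz
    rw [← h7] at hz'
    refine ⟨Function.invFunOn_mem hz', ?_⟩
    rw [Function.invFunOn_eq hz', tau_sigma h.chart]
  · intro x hx
    have hgx : g x ∈ D0 σ (20 * ε) (g '' θ) := by
      rw [← h7]
      exact ⟨x, hx, rfl⟩
    refine ⟨?_, ?_⟩
    · rw [← hT]
      exact ⟨g x, hgx, rfl⟩
    · show Function.invFunOn g (Dk σ (20 * ε) g θ) (σ (tau σ (g x))) = x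
      rw [sigma_tau h.chart (fun h0 => hp (h0 ▸ hgx))]
      exact h6.leftInvOn_invFunOn hx

end Pool.N0
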