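import Pool.Agent.N0.D1
import Pool.Agent.N0.D2
import Pool.Agent.N0.A5

/-!
MODULE D3 (difficulty 2).  The coordinate of level `k`.

RECIPE.  `Q x = tau σ (g x)`.  Everything follows from `lift_edge`, `lift_D`, `lift_inverse`, `D0_*`: `g x ∈ D0 ..` does not contain `p`, `tau_cont`, continuity of `g`.  `Qsc`: `Dk` is the image of the convex open nonempty set `thickening ..` under the map `G`, which is an embedding on it
(continuous with the continuous left inverse `Q`); or: `D0` is simply connected (`D0_sc`) and `g` restricted to `Dk` is a homeomorphism onto `D0`.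
`Qseg`: `θ = Dk ∩ g ⁻¹' e`, `e = g '' θ = σ '' e'`, `e' ∈ EB`, `EB_ends`: `e' ∩ VB = {a, b}`, `dist a b = 1`, `e' = segment ℝ a b`; `v, v' ∈ θ ∩ g ⁻¹' V0`: `Q v, Q v' ∈ e' ∩ VB` are different because `Q` is injective on `Dk`, so `{Q v, Q v'} = {a, b}`; `segment_symm`.
-/

open Set Metric Topology Filter
open Pool.JS Pool.ETM

namespace Pool.N0

variable {X : Type*} [MetricSpace X] [CompactSpace X] [Sph X] {P : Set X} {η ε : ℝ} {p : X} {σ : ℂ → X} {M N : ℤ}
  {θ : Set X} {g : X → X}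

theorem Qcont (hg : Dyn g P) (h : Lev0 P η p σ M N ε) (hθ : θ ∈ pullE g (E0 σ M N)) :
    ContinuousOn (fun x => tau σ (g x)) (Dk σ (20 * ε) g θ) ∧ InjOn (fun x => tau σ (g x)) (Dk σ (20 * ε) g θ) ∧
      (fun x => tau σ (g x)) '' Dk σ (20 * ε) g θ = thickening (20 * ε) ((fun x => tau σ (g x)) '' θ) := by
  obtain ⟨he, -, -⟩ := lift_edge hg h hθ
  obtain ⟨-, -, him, -⟩ := lift_D hg h hθ
  obtain ⟨G, -, -, hG⟩ := lift_inverse hg h hθ
  obtain ⟨-, hp⟩ := D0_avoid h he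
  refine ⟨?_, ?_, ?_⟩
  · refine (tau_cont h.chart).comp hg.cont.continuousOn ?_
    intro x hx hxp
    apply hp
    rw [← him, ← mem_singleton_iff.1 hxp]
    exact ⟨x, hx, rfl⟩
  · intro x hx y hy hxy
    have h1 := (hG x hx).2
    have h2 := (hG y hy).2
    rw [← h1, ← h2]
    exact congrArg G hxy
  · have e1 : (fun x => tau σ (g x)) '' Dk σ (20 * ε) g θ = tau σ '' (g '' Dk σ (20 * ε) g θ) := by
      rw [image_image]
    have e2 : (fun x => tau σ (g x)) '' θ = tau σ '' (g '' θ) := by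
      rw [image_image]
    rw [e1, e2, him, D0_tau h he]

theorem Qsc (hg : Dyn g P) (h : Lev0 P η p σ M N ε) (hθ : θ ∈ pullE g (E0 σ M N)) :
    IsSimplyConnected (Dk σ (20 * ε) g θ) := by
  obtain ⟨he, -, -⟩ := lift_edge hg h hθ
  obtain ⟨G, hGc, hG1, hG2⟩ := lift_inverse hg h hθ
  obtain ⟨-, -, e3⟩ := E0_form h.chart he
  obtain ⟨hQ, -, -⟩ := Qcont hg h hθ
  have hT : IsSimplyConnected (thickening (20 * ε) (tau σ '' (g '' θ))) := by
    have h0 := D0_sc h he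
    unfold D0 at h0
    rw [h.chart.emb.isEmbedding.isSimplyConnected_image, ← e3] at h0
    exact h0
  let e : (thickening (20 * ε) (tau σ '' (g '' θ)) : Set ℂ) ≃ₜ (Dk σ (20 * ε) g θ : Set X) :=
    { toFun := fun z => ⟨G z.1, (hG1 z.1 z.2).1⟩
      invFun := fun x => ⟨tau σ (g x.1), (hG2 x.1 x.2).1⟩
      left_inv := fun z => Subtype.ext (hG1 z.1 z.2).2
      right_inv := fun x => Subtype.ext (hG2 x.1 x.2).2
      continuous_toFun := by
        apply Continuous.subtype_mk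
        exact continuousOn_iff_continuous_domRestrict.1 hGc
      continuous_invFun := by
        apply Continuous.subtype_mk
        exact continuousOn_iff_continuous_domRestrict.1 hQ }
  exact (e.toHomotopyEquiv.simplyConnectedSpace_iff).1 hT

theorem Qavoid (hg : Dyn g P) (h : Lev0 P η p σ M N ε) (hθ : θ ∈ pullE g (E0 σ M N)) :
    Disjoint (Dk σ (20 * ε) g θ) (g ⁻¹' P) := by
  obtain ⟨he, -, -⟩ := lift_edge hg h hθ
  obtain ⟨-, -, him, -⟩ := lift_D hg h hθ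
  obtain ⟨hd, -⟩ := D0_avoid h he
  rw [Set.disjoint_left]
  intro x hx hxP
  have hx' : g x ∈ D0 σ (20 * ε) (g '' θ) := by
    rw [← him]
    exact ⟨x, hx, rfl⟩
  exact Set.disjoint_left.1 hd hx' hxP

theorem Qseg (hg : Dyn g P) (h : Lev0 P η p σ M N ε) (hθ : θ ∈ pullE g (E0 σ M N)) {v v' : X}
    (hv : v ∈ g ⁻¹' V0 σ M N) (hv' : v' ∈ g ⁻¹' V0 σ M N) (hne : v ≠ v') (h1 : v ∈ θ) (h2 : v' ∈ θ) :
    (fun x => tau σ (g x)) '' θ = segment ℝ (tau σ (g v)) (tau σ (g v')) ∧ ‖tau σ (g v) - tau σ (g v')‖ = 1 := by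
  obtain ⟨he, -, -⟩ := lift_edge hg h hθ
  obtain ⟨-, -, -, hsub⟩ := lift_D hg h hθ
  obtain ⟨e1, e2, e3⟩ := E0_form h.chart he
  obtain ⟨-, hinj, -⟩ := Qcont hg h hθ
  obtain ⟨a, ha, b, hb, hab, hd, hseg⟩ := EB_ends e1
  have hQ : (fun x => tau σ (g x)) '' θ = σ ⁻¹' (g '' θ) := by
    rw [← e3, image_image]
  have key : ∀ u, u ∈ g ⁻¹' V0 σ M N → u ∈ θ → tau σ (g u) ∈ ({a, b} : Set ℂ) := by
    intro u hu huθ
    rw [← hab]
    obtain ⟨z, hz, hzu⟩ := hu
    have hz' : tau σ (g u) = z := by rw [← hzu]; exact tau_sigma h.chart z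
    rw [hz']
    refine ⟨?_, hz⟩
    show σ z ∈ g '' θ
    rw [hzu]
    exact ⟨u, huθ, rfl⟩
  have hne' : tau σ (g v) ≠ tau σ (g v') := fun hh => hne (hinj (hsub h1) (hsub h2) hh)
  rw [hQ, hseg]
  rcases key v hv h1 with k1 | k1 <;> rcases key v' hv' h2 with k2 | k2
  · exact absurd (k1.trans k2.symm) hne'
  · rw [mem_singleton_iff] at k2
    rw [k1, k2, ← dist_eq_norm]
    exact ⟨rfl, hd⟩
  · rw [mem_singleton_iff] at k1
    rw [k1, k2, ← dist_eq_norm, dist_comm]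
    exact ⟨segment_symm _ _ _, hd⟩
  · rw [mem_singleton_iff] at k1 k2
    exact absurd (k1.trans k2.symm) hne'

end Pool.N0
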