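import Pool.Agent.N0.D1
import Pool.Agent.N0.D2
import Pool.Agent.N0.D3

/-!
MODULE D4 (difficulty 3).  Local picture at level `k`: two edges; balls around vertices.
-/

open Set Metric Topology Filter
open Pool.JS Pool.ETM

namespace Pool.N0

variable {X : Type*} [MetricSpace X] [CompactSpace X] [Sph X] {P : Set X} {η ε : ℝ} {p : X} {σ : ℂ → X} {M N : ℤ}
  {θ θ' : Set X} {g : X → X}

/-- a point of `Dk` is mapped to a point different from `p` -/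
theorem d4_ne (hg : Dyn g P) (h : Lev0 P η p σ M N ε) (hθ : θ ∈ pullE g (E0 σ M N)) {x : X}
    (hx : x ∈ Dk σ (20 * ε) g θ) : σ (tau σ (g x)) = g x := by
  have h1 : g x ∈ D0 σ (20 * ε) (g '' θ) := by
    rw [← (lift_D hg h hθ).2.2.1]
    exact mem_image_of_mem g hx
  have h2 : g x ≠ p := by
    intro he
    rw [he] at h1
    exact (D0_avoid h (lift_edge hg h hθ).1).2 h1
  exact sigma_tau h.chart h2

theorem d4_key (hg : Dyn g P) (h : Lev0 P η p σ M N ε) (hθ : θ ∈ pullE g (E0 σ M N))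
    (hθ' : θ' ∈ pullE g (E0 σ M N)) {z : X} (hz : z ∈ Dk σ (20 * ε) g θ) (hz' : z ∈ Dk σ (20 * ε) g θ')
    {S : Set ℂ} (hS : IsPreconnected S) (hzS : tau σ (g z) ∈ S)
    (hS1 : S ⊆ thickening (20 * ε) (tau σ '' (g '' θ))) (hS2 : S ⊆ thickening (20 * ε) (tau σ '' (g '' θ')))
    {x : X} (hx : x ∈ Dk σ (20 * ε) g θ) (hxS : tau σ (g x) ∈ S) : x ∈ Dk σ (20 * ε) g θ' := by
  obtain ⟨G, hG1, hG2, hG3⟩ := lift_inverse hg h hθ
  have hC : IsPreconnected (G '' S) := hS.image G (hG1.mono hS1)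
  have hzC : z ∈ G '' S := ⟨tau σ (g z), hzS, (hG3 z hz).2⟩
  have hxC : x ∈ G '' S := ⟨tau σ (g x), hxS, (hG3 x hx).2⟩
  have hsub : G '' S ⊆ g ⁻¹' D0 σ (20 * ε) (g '' θ') := by
    rintro _ ⟨w, hw, rfl⟩
    obtain ⟨h1, h2⟩ := hG2 w (hS1 hw)
    have h3 := d4_ne hg h hθ h1
    rw [h2] at h3
    have h4 := (E0_form h.chart (lift_edge hg h hθ').1).2.2
    have h5 := hS2 hw
    rw [h4] at h5
    show g (G w) ∈ σ '' thickening (20 * ε) (σ ⁻¹' (g '' θ'))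
    exact ⟨w, h5, h3⟩
  have hcomp : FaceX (g ⁻¹' D0 σ (20 * ε) (g '' θ'))ᶜ (Dk σ (20 * ε) g θ') := (lift_edge hg h hθ').2.1
  exact hcomp.max (G '' S) hC (by rw [compl_compl]; exact hsub) ⟨z, hzC, hz'⟩ hxC

theorem two_edges (hg : Dyn g P) (h : Lev0 P η p σ M N ε) (hθ : θ ∈ pullE g (E0 σ M N))
    (hθ' : θ' ∈ pullE g (E0 σ M N)) (hne : θ ≠ θ') {r : ℝ} (hr : r ≤ 10 * ε) {z : X} (hz : z ∈ Dk σ (20 * ε) g θ)
    (hz' : z ∈ Dk σ (20 * ε) g θ') (hd : infDist (tau σ (g z)) ((fun x => tau σ (g x)) '' θ) ≤ r)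
    (hd' : infDist (tau σ (g z)) ((fun x => tau σ (g x)) '' θ') ≤ r) :
    ∃ v ∈ g ⁻¹' V0 σ M N, v ∈ θ ∧ v ∈ θ' ∧ ‖tau σ (g z) - tau σ (g v)‖ ≤ 3 / 2 * r := by
  have hr0 : 0 ≤ r := le_trans infDist_nonneg hd
  have hε := h.hε
  have hε' := h.hε'
  obtain ⟨hE1, hE2, hE3⟩ := E0_form h.chart (lift_edge hg h hθ).1
  obtain ⟨hE1', hE2', hE3'⟩ := E0_form h.chart (lift_edge hg h hθ').1
  have him : (fun x => tau σ (g x)) '' θ = σ ⁻¹' (g '' θ) := by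
    rw [← hE3, image_image]
  have him' : (fun x => tau σ (g x)) '' θ' = σ ⁻¹' (g '' θ') := by
    rw [← hE3', image_image]
  rw [him] at hd
  rw [him'] at hd'
  have hgne : g '' θ ≠ g '' θ' := by
    intro he
    exact hne (Dk_unique hg h hθ hθ' he ⟨z, hz, hz'⟩)
  have hene : σ ⁻¹' (g '' θ) ≠ σ ⁻¹' (g '' θ') := by
    intro he
    apply hgne
    rw [hE2, hE2', he]
  obtain ⟨v₀, hv₀, hint, hdist⟩ := EB_close hE1 hE1' hene (r := r) (by linarith) hd hd'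
  have hv1 : v₀ ∈ σ ⁻¹' (g '' θ) := (hint.symm ▸ mem_singleton v₀ : v₀ ∈ σ ⁻¹' (g '' θ) ∩ σ ⁻¹' (g '' θ')).1
  have hv2 : v₀ ∈ σ ⁻¹' (g '' θ') := (hint.symm ▸ mem_singleton v₀ : v₀ ∈ σ ⁻¹' (g '' θ) ∩ σ ⁻¹' (g '' θ')).2
  have hsq : √2 ≤ 3 / 2 := by
    rw [Real.sqrt_le_left (by norm_num)]
    norm_num
  have hdist2 : dist (tau σ (g z)) v₀ ≤ 3 / 2 * r := hdist.trans (mul_le_mul_of_nonneg_right hsq hr0)
  have hseg : segment ℝ (tau σ (g z)) v₀ ⊆ closedBall v₀ (3 / 2 * r) :=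
    (convex_closedBall v₀ (3 / 2 * r)).segment_subset (mem_closedBall.mpr hdist2)
      (mem_closedBall_self (by positivity))
  have hthick : ∀ e : Set ℂ, v₀ ∈ e → segment ℝ (tau σ (g z)) v₀ ⊆ thickening (20 * ε) e := by
    intro e he w hw
    rw [mem_thickening_iff]
    refine ⟨v₀, he, ?_⟩
    have := mem_closedBall.mp (hseg hw)
    linarith
  have hS1 : segment ℝ (tau σ (g z)) v₀ ⊆ thickening (20 * ε) (tau σ '' (g '' θ)) :=
    hthick _ (by rw [hE3]; exact hv1)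
  have hS2 : segment ℝ (tau σ (g z)) v₀ ⊆ thickening (20 * ε) (tau σ '' (g '' θ')) :=
    hthick _ (by rw [hE3']; exact hv2)
  obtain ⟨G, hG1, hG2, hG3⟩ := lift_inverse hg h hθ
  obtain ⟨hv3, hv4⟩ := hG2 v₀ (hS1 (right_mem_segment ℝ _ _))
  have hv5 : G v₀ ∈ Dk σ (20 * ε) g θ' :=
    d4_key hg h hθ hθ' hz hz' (convex_segment _ _).isPreconnected (left_mem_segment ℝ _ _) hS1 hS2 hv3
      (by rw [hv4]; exact right_mem_segment ℝ _ _)
  have hgv : σ v₀ = g (G v₀) := by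
    have := d4_ne hg h hθ hv3
    rwa [hv4] at this
  refine ⟨G v₀, ?_, ?_, ?_, ?_⟩
  · show g (G v₀) ∈ V0 σ M N
    rw [← hgv]
    exact mem_image_of_mem σ hv₀
  · rw [(lift_edge hg h hθ).2.2]
    refine ⟨hv3, ?_⟩
    show g (G v₀) ∈ g '' θ
    rw [← hgv]
    exact hv1
  · rw [(lift_edge hg h hθ').2.2]
    refine ⟨hv5, ?_⟩
    show g (G v₀) ∈ g '' θ'
    rw [← hgv]
    exact hv2
  · rw [hv4, ← dist_eq_norm]
    exact hdist2

theorem ball_sub (hg : Dyn g P) (h : Lev0 P η p σ M N ε) (hθ : θ ∈ pullE g (E0 σ M N))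
    (hθ' : θ' ∈ pullE g (E0 σ M N)) {v x : X} (hv : v ∈ θ) (hv' : v ∈ θ') (hx : x ∈ Dk σ (20 * ε) g θ)
    (hxv : ‖tau σ (g x) - tau σ (g v)‖ < 20 * ε) : x ∈ Dk σ (20 * ε) g θ' := by
  have hε := h.hε
  have hseg : segment ℝ (tau σ (g v)) (tau σ (g x)) ⊆ ball (tau σ (g v)) (20 * ε) :=
    (convex_ball _ _).segment_subset (mem_ball_self (by linarith)) (by rw [mem_ball, dist_eq_norm]; exact hxv)
  have hthick : ∀ e : Set ℂ, tau σ (g v) ∈ e → segment ℝ (tau σ (g v)) (tau σ (g x)) ⊆ thickening (20 * ε) e := by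
    intro e he w hw
    rw [mem_thickening_iff]
    exact ⟨tau σ (g v), he, mem_ball.mp (hseg hw)⟩
  exact d4_key hg h hθ hθ' ((lift_D hg h hθ).2.2.2 hv) ((lift_D hg h hθ').2.2.2 hv')
    (convex_segment _ _).isPreconnected (left_mem_segment ℝ _ _)
    (hthick _ (mem_image_of_mem _ (mem_image_of_mem _ hv)))
    (hthick _ (mem_image_of_mem _ (mem_image_of_mem _ hv'))) hx (right_mem_segment ℝ _ _)

end Pool.N0
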