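import Pool.Agent.N0.A8
import Pool.Agent.N0.B1
import Pool.Agent.N0.B2
import Pool.Agent.N0.D1
import Pool.Agent.N0.D2
import Pool.Agent.N0.D3

/-!
MODULE D5 (difficulty 4).  Local picture at level `k`: faces near an edge.

RECIPE.  `U ∈ Fc (pullE g E0)` is a component of `g ⁻¹' U₀`, `U₀ ∈ Fc E0` (hypothesis `hU`; `face_iff`: `U₀ = σ '' B` with `B ∈ FB`, or `U₀ = insert p (σ '' OB)`; put `B = OB` in the second case); `comp_image`: `g '' closure U = closure U₀`.  `closure_face`, `closure_outer`: `σ ⁻¹' closure U₀ = closure B`, `σ ⁻¹' U₀ = B`.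
`e = tau σ '' (g '' θ) ∈ EB`, `T = thickening (20 ε) e`, `G` the inverse branch on `T` (`lift_inverse`), a homeomorphism of `T` onto the open set `Dk θ`.
(1) `G '' (B ∩ T) ⊆ U`: `B ∩ T` is preconnected (`face_conn`), so `G '' (B ∩ T)` is preconnected, contained in `g ⁻¹' U₀`; it meets `U`: since `x ∈ closure U ∩ Dk θ`, and `Dk θ` is open, there is `y ∈ U ∩ Dk θ`, and `y = G (Q y)`, `Q y ∈ B ∩ T` because `g y ∈ U₀`.  Maximality of `U`.
(2) hence for `w ∈ closure B ∩ T`: `G w ∈ closure U` (`T` is open: `closure B ∩ T ⊆ closure (B ∩ T)`, and `G` is continuous on `T`).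
Let `x ∈ closure U ∩ Dk θ`, `z = Q x ∈ T`, `σ z = g x ∈ closure U₀`, so `z ∈ closure B`.  `face_near`: `w ∈ e ∩ closure B`, `dist z w = infDist z e`, `segment ℝ z w ⊆ closure B`; `face_meet`: `e ⊆ closure B`, then `θ = G '' e ⊆ closure U` by (2); or `e ∩ closure B = {v₀}`, `v₀ ∈ VB`, `w = v₀`.  Then `v = G v₀`: `v ∈ θ`, `g v = σ v₀ ∈ V0`,
`v ∈ closure U` by (2), `‖Q x - Q v‖ = dist z w`.  The segment from `z` to `v₀` is in `closure B ∩ ball v₀ (20 ε) ⊆ T`; its image under `G` is a path from `x` to `v` in `closure U ∩ {y ∈ Dk θ | ‖Q y - Q v‖ < 20 ε}` (`JoinedIn.image`-like: `JoinedIn` of the segment (`Convex`: `(convex_segment _ _).isPathConnected`) and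
`JoinedIn.map_continuousOn` or build the path by hand).
-/

open Set Metric Topology Filter
open Pool.JS Pool.ETM

namespace Pool.N0

variable {X : Type*} [MetricSpace X] [CompactSpace X] [Sph X] {P : Set X} {η ε : ℝ} {p : X} {σ : ℂ → X} {M N : ℤ}
  {θ U : Set X} {g : X → X}

omit [CompactSpace X] [Sph X] in
theorem d5_face [CompactSpace X] (h : Lev0 P η p σ M N ε) {U₀ : Set X} (hU₀ : U₀ ∈ Fc (E0 σ M N)) :
    ∃ B : Set ℂ, (B ∈ FB M N ∨ B = OB M N) ∧ (∀ z, σ z ∈ U₀ ↔ z ∈ B) ∧ ∀ z, σ z ∈ closure U₀ ↔ z ∈ closure B := by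
  have hi := h.chart.inj
  have hp := h.chart.ne
  have hN : 1 ≤ N := by linarith [h.hN]
  rcases (face_iff h.chart h.hM hN).1 hU₀ with ⟨B, hB, rfl⟩ | rfl
  · refine ⟨B, Or.inl hB, fun z => hi.mem_set_image, fun z => ?_⟩
    rw [(closure_face h.chart h.hM hB).1]
    exact hi.mem_set_image
  · refine ⟨OB M N, Or.inr rfl, fun z => ?_, fun z => ?_⟩
    · rw [mem_insert_iff, hi.mem_set_image]
      exact or_iff_right (hp z)
    · rw [(closure_outer h.chart).1, mem_insert_iff, hi.mem_set_image]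
      exact or_iff_right (hp z)

theorem third_face (hg : Dyn g P) (h : Lev0 P η p σ M N ε) (hθ : θ ∈ pullE g (E0 σ M N))
    (hU : ∃ U₀ ∈ Fc (E0 σ M N), IsComp U (g ⁻¹' U₀)) {x : X} (hx : x ∈ closure U) (hxD : x ∈ Dk σ (20 * ε) g θ) :
    θ ⊆ closure U ∨ ∃ v ∈ g ⁻¹' V0 σ M N, v ∈ θ ∧ v ∈ closure U ∧
      ‖tau σ (g x) - tau σ (g v)‖ ≤ infDist (tau σ (g x)) ((fun x => tau σ (g x)) '' θ) ∧
      JoinedIn (closure U ∩ {y | y ∈ Dk σ (20 * ε) g θ ∧ ‖tau σ (g y) - tau σ (g v)‖ < 20 * ε}) x v := by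
  obtain ⟨U₀, hU₀, hUc⟩ := hU
  obtain ⟨B, hB, hB1, hB2⟩ := d5_face h hU₀
  have hε := h.hε
  have hε' := h.hε'
  obtain ⟨hgθ, -, -⟩ := lift_edge hg h hθ
  obtain ⟨hDo, -, hDi, hθD⟩ := lift_D hg h hθ
  obtain ⟨he1, -, he3⟩ := E0_form h.chart hgθ
  obtain ⟨e, he⟩ : ∃ e : Set ℂ, e = tau σ '' (g '' θ) := ⟨_, rfl⟩
  have heB : e ∈ EB M N := by rw [he, he3]; exact he1
  have heQ : (fun x => tau σ (g x)) '' θ = e := by rw [he, image_image]
  obtain ⟨G, hGc, hG1, hG2⟩ := lift_inverse hg h hθ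
  rw [← he] at hGc hG1 hG2
  rw [heQ]
  have hTo : IsOpen (thickening (20 * ε) e) := isOpen_thickening
  have hDp : ∀ y ∈ Dk σ (20 * ε) g θ, σ (tau σ (g y)) = g y := by
    intro y hy
    apply sigma_tau h.chart
    intro hyp
    apply (D0_avoid h hgθ).2
    rw [← hDi, ← hyp]
    exact mem_image_of_mem g hy
  have hσG : ∀ z ∈ thickening (20 * ε) e, g (G z) = σ z := by
    intro z hz
    have h1 := hDp _ (hG1 z hz).1
    rw [(hG1 z hz).2] at h1
    exact h1.symm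
  have hUsub : ∀ y ∈ U, g y ∈ U₀ := by
    intro y hy
    have h1 := hUc.sub hy
    rw [compl_compl] at h1
    exact h1
  -- step 1
  have h1 : G '' (B ∩ thickening (20 * ε) e) ⊆ U := by
    have hc : IsPreconnected (G '' (B ∩ thickening (20 * ε) e)) :=
      (face_conn h.hM h.hN heB hB (by linarith)).image G (hGc.mono inter_subset_right)
    refine hUc.max _ hc ?_ ?_
    · rintro _ ⟨z, ⟨hz1, hz2⟩, rfl⟩
      rw [compl_compl]
      show g (G z) ∈ U₀
      rw [hσG z hz2]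
      exact (hB1 z).2 hz1
    · obtain ⟨y, hyD, hyU⟩ := _root_.mem_closure_iff.1 hx _ hDo hxD
      refine ⟨y, ⟨tau σ (g y), ⟨?_, (hG2 y hyD).1⟩, (hG2 y hyD).2⟩, hyU⟩
      rw [← hB1, hDp y hyD]
      exact hUsub y hyU
  -- step 2
  have h2 : ∀ w ∈ closure B, w ∈ thickening (20 * ε) e → G w ∈ closure U := by
    intro w hw hwT
    have h3 : w ∈ closure (B ∩ thickening (20 * ε) e) := by
      rw [inter_comm]
      exact hTo.inter_closure ⟨hwT, hw⟩
    have h4 : ContinuousWithinAt G (B ∩ thickening (20 * ε) e) w :=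
      (hGc.continuousAt (hTo.mem_nhds hwT)).continuousWithinAt
    exact closure_mono h1 (h4.mem_closure_image h3)
  have hzT := (hG2 x hxD).1
  have hzG := (hG2 x hxD).2
  have hzB : tau σ (g x) ∈ closure B := by
    rw [← hB2, hDp x hxD]
    have h3 : closure U ⊆ g ⁻¹' closure U₀ :=
      closure_minimal (fun y hy => subset_closure (hUsub y hy)) (isClosed_closure.preimage hg.cont)
    exact h3 hx
  obtain ⟨-, -, hne⟩ := EB_compact heB
  have hd : infDist (tau σ (g x)) e < 20 * ε := (mem_thickening_iff_infDist_lt hne).1 hzT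
  obtain ⟨w, ⟨hwe, hwB⟩, hwd, hws⟩ := face_near h.hM h.hN heB hB hzB (by linarith)
  rcases face_meet h.hM h.hN heB hB ⟨w, hwe, hwB⟩ with h3 | ⟨v₀, hv₀, h3⟩
  · left
    intro y hy
    have hyD := hθD hy
    rw [← (hG2 y hyD).2]
    refine h2 _ (h3 ?_) (hG2 y hyD).1
    rw [← heQ]
    exact ⟨y, hy, rfl⟩
  · right
    have hw : w = v₀ := by
      have h4 : w ∈ e ∩ closure B := ⟨hwe, hwB⟩
      rw [h3] at h4
      exact h4
    rw [hw] at hwe hwB hwd hws
    have hT : ∀ y ∈ segment ℝ (tau σ (g x)) v₀, dist y v₀ ≤ dist (tau σ (g x)) v₀ := by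
      intro y hy
      exact (convex_closedBall v₀ (dist (tau σ (g x)) v₀)).segment_subset (mem_closedBall.2 le_rfl)
        (mem_closedBall_self dist_nonneg) hy
    have hdv : dist (tau σ (g x)) v₀ < 20 * ε := by rw [hwd]; exact hd
    have hsT : ∀ y ∈ segment ℝ (tau σ (g x)) v₀, y ∈ thickening (20 * ε) e := by
      intro y hy
      rw [mem_thickening_iff]
      exact ⟨v₀, hwe, (hT y hy).trans_lt hdv⟩
    have hv₀T : v₀ ∈ thickening (20 * ε) e := hsT v₀ (right_mem_segment ℝ _ _)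
    have hQv : tau σ (g (G v₀)) = v₀ := (hG1 v₀ hv₀T).2
    refine ⟨G v₀, ?_, ?_, h2 v₀ hwB hv₀T, ?_, ?_⟩
    · show g (G v₀) ∈ V0 σ M N
      rw [hσG v₀ hv₀T]
      exact ⟨v₀, hv₀, rfl⟩
    · have h4 := hwe
      rw [← heQ] at h4
      obtain ⟨y, hy, hyv⟩ := h4
      have h5 : tau σ (g y) = v₀ := hyv
      rw [← h5, (hG2 y (hθD hy)).2]
      exact hy
    · rw [hQv, ← dist_eq_norm, hwd]
    · have h4 : JoinedIn (segment ℝ (tau σ (g x)) v₀) (tau σ (g x)) v₀ :=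
        ((convex_segment (tau σ (g x)) v₀).isPathConnected ⟨_, left_mem_segment ℝ _ _⟩).joinedIn _
          (left_mem_segment ℝ _ _) _ (right_mem_segment ℝ _ _)
      have h5 := h4.map_continuousOn (f := G) (hGc.mono hsT)
      rw [hzG] at h5
      refine h5.mono ?_
      rintro _ ⟨y, hy, rfl⟩
      refine ⟨h2 y (hws hy) (hsT y hy), (hG1 y (hsT y hy)).1, ?_⟩
      rw [(hG1 y (hsT y hy)).2, hQv, ← dist_eq_norm]
      exact (hT y hy).trans_lt hdv

end Pool.N0
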