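import Pool.Agent.N0.BDefs
import Pool.Agent.N0.A3
import Pool.Agent.N0.A5
import Pool.Agent.N0.D1

/-!
MODULE D6 (difficulty 3).  The number `m` (3.3 of the paper proof).

RECIPE.  `K = σ '' {z | infDist z (⋃₀ EB M N) ≤ 10 ε}` is compact (the set is closed and bounded: `⋃₀ EB` is a finite union of compact sets, nonempty or not: if `EB` is empty then `infDist = 0` everywhere, but `1 ≤ M` gives the edge `hE 0 0`), `p ∉ K`.  (A) There is `ω > 0` such that for `x ∈ K`, `y ∈ X`, `dist x y < ω` implies `y ≠ p` and `‖tau σ x - tau σ y‖ < ε / 2`: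
otherwise there are sequences `x_n ∈ K`, `y_n`, `dist < 1 / (n + 1)` violating it; a subsequence of `x_n` converges to `x ∈ K`, `y_n → x ≠ p`, so `y_n ≠ p` eventually and `tau σ` is continuous at `x` (`tau_cont`, `{p}ᶜ` open); or use a Lebesgue number: cover `K` by balls `ball x (2 r_x)` with `tau σ` of oscillation `< ε / 2` and `p ∉`.
`Expd.contr` for `min ω (η / 10)` gives `m₀`; `m = max m₀ 1`.  For `n ≥ m`, `C` preconnected, `diam (f^[n] '' C) < η`: `diam C < min ω (η / 10)`.  If `x₀ ∈ C ∩ K` (`x₀ = σ (tau σ x₀)` because `x₀ ≠ p`), every `y ∈ C` has `dist x₀ y ≤ diam C < ω` (`Metric.dist_le_diam_of_mem`, sets in a compact space are bounded).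
-/

open Set Metric Topology Filter
open Pool.JS Pool.ETM

namespace Pool.N0

variable {X : Type*} [MetricSpace X] [CompactSpace X] {P : Set X} {η ε : ℝ} {p : X} {σ : ℂ → X} {M N : ℤ} {f : X → X}

theorem d6_bdd : Bornology.IsBounded (⋃₀ EB M N) := by
  rw [isBounded_iff_forall_norm_le]
  refine ⟨2 * |(M : ℝ)| + |(N : ℝ)|, ?_⟩
  rintro z ⟨e, he, hz⟩
  obtain ⟨p, q, r, s, hbox, -, hp, hq, hr, hs⟩ := EB_form he
  rw [hbox] at hz
  obtain ⟨⟨h1, h2⟩, h3, h4⟩ := hz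
  have hp' : (0 : ℝ) ≤ p := by exact_mod_cast hp
  have hq' : (q : ℝ) ≤ 2 * M := by exact_mod_cast hq
  have hr' : (0 : ℝ) ≤ r := by exact_mod_cast hr
  have hs' : (s : ℝ) ≤ N := by exact_mod_cast hs
  have hM := le_abs_self (M : ℝ)
  have hN := le_abs_self (N : ℝ)
  refine (Complex.norm_le_abs_re_add_abs_im z).trans ?_
  rw [abs_of_nonneg (by linarith : (0 : ℝ) ≤ z.re), abs_of_nonneg (by linarith : (0 : ℝ) ≤ z.im)]
  linarith

theorem d6_ne (hM : 1 ≤ M) (hN : 2 ≤ N) : (⋃₀ EB M N).Nonempty := by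
  refine ⟨⟨0, 0⟩, hE 0 0, Or.inl ⟨0, 0, le_rfl, by omega, le_rfl, by omega, rfl⟩, ?_⟩
  unfold hE Bx
  simp

theorem d6_compact (hM : 1 ≤ M) (hN : 2 ≤ N) {r : ℝ} : IsCompact {z : ℂ | infDist z (⋃₀ EB M N) ≤ r} := by
  refine Metric.isCompact_of_isClosed_isBounded ?_ ?_
  · exact isClosed_le (continuous_infDist_pt _) continuous_const
  · obtain ⟨R, hR⟩ := isBounded_iff_forall_norm_le.1 (d6_bdd (M := M) (N := N))
    rw [isBounded_iff_forall_norm_le]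
    refine ⟨R + (r + 1), ?_⟩
    intro z hz
    have hz' : infDist z (⋃₀ EB M N) < r + 1 := lt_of_le_of_lt hz (by linarith)
    obtain ⟨y, hy, hd⟩ := (infDist_lt_iff (d6_ne hM hN)).1 hz'
    have h1 := hR y hy
    rw [dist_eq_norm] at hd
    have h2 : ‖z‖ ≤ ‖y‖ + ‖z - y‖ := by
      have := norm_add_le y (z - y)
      simpa using this
    linarith

theorem exists_m (he : Expd f P η) (h : Lev0 P η p σ M N ε) : ∃ m : ℕ, 1 ≤ m ∧ ∀ n ≥ m, ∀ C : Set X,
    IsPreconnected C → diam (f^[n] '' C) < η → diam C < η / 10 ∧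
      ((∃ x ∈ C, x ≠ p ∧ infDist (tau σ x) (⋃₀ EB M N) ≤ 10 * ε) →
        p ∉ C ∧ ∀ x ∈ C, ∀ y ∈ C, ‖tau σ x - tau σ y‖ < ε) := by
  have hε := h.hε
  have hK : IsCompact (σ '' {z : ℂ | infDist z (⋃₀ EB M N) ≤ 10 * ε}) := (d6_compact h.hM h.hN).image h.chart.cont
  have ho : ∀ z : ℂ, IsOpen (({p} : Set X)ᶜ ∩ tau σ ⁻¹' ball z (ε / 4)) := fun z =>
    (tau_cont h.chart).isOpen_inter_preimage isOpen_compl_singleton isOpen_ball
  have hcov : σ '' {z : ℂ | infDist z (⋃₀ EB M N) ≤ 10 * ε} ⊆ ⋃ z : ℂ, (({p} : Set X)ᶜ ∩ tau σ ⁻¹' ball z (ε / 4)) := by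
    rintro _ ⟨z, -, rfl⟩
    refine mem_iUnion.2 ⟨z, h.chart.ne z, ?_⟩
    show tau σ (σ z) ∈ ball z (ε / 4)
    rw [tau_sigma h.chart]
    exact mem_ball_self (by linarith)
  obtain ⟨ω, hω, hleb⟩ := lebesgue_number_lemma_of_metric hK ho hcov
  obtain ⟨m₀, hm₀⟩ := he.contr (min ω (η / 10)) (lt_min hω (by have := he.pos; linarith))
  refine ⟨max m₀ 1, le_max_right _ _, ?_⟩
  intro n hn C hC hd
  have hdC := hm₀ n (le_trans (le_max_left _ _) hn) C hC hd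
  refine ⟨lt_of_lt_of_le hdC (min_le_right _ _), ?_⟩
  rintro ⟨x₀, hx₀, hx₀p, hinf⟩
  have hx₀K : x₀ ∈ σ '' {z : ℂ | infDist z (⋃₀ EB M N) ≤ 10 * ε} := ⟨tau σ x₀, hinf, sigma_tau h.chart hx₀p⟩
  obtain ⟨z, hz⟩ := hleb x₀ hx₀K
  have key : ∀ y ∈ C, y ≠ p ∧ ‖tau σ y - z‖ < ε / 4 := by
    intro y hy
    have h1 : dist y x₀ ≤ diam C := dist_le_diam_of_mem (Metric.isBounded_of_compactSpace) hy hx₀
    have h2 : y ∈ ball x₀ ω := by
      rw [mem_ball]
      exact lt_of_le_of_lt h1 (lt_of_lt_of_le hdC (min_le_left _ _))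
    have h3 := hz h2
    refine ⟨h3.1, ?_⟩
    have h4 : tau σ y ∈ ball z (ε / 4) := h3.2
    rw [mem_ball, dist_eq_norm] at h4
    exact h4
  refine ⟨fun hp => (key p hp).1 rfl, ?_⟩
  intro x hx y hy
  have h1 := (key x hx).2
  have h2 := (key y hy).2
  have h3 : ‖tau σ x - tau σ y‖ ≤ ‖tau σ x - z‖ + ‖tau σ y - z‖ := by
    have : tau σ x - tau σ y = (tau σ x - z) - (tau σ y - z) := by ring
    rw [this]
    exact norm_sub_le _ _
  linarith

end Pool.N0
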