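import Pool.Agent.N0.A3
import Pool.Agent.N0.B2
import Pool.Agent.N0.B3
import Pool.Agent.N0.C1
import Pool.Agent.N0.D3
import Pool.Agent.N0.D4
import Pool.Agent.N0.D5
import Pool.Agent.N0.D6

/-!
MODULE D7 (difficulty 4).  Assembly: the network context exists.

RECIPE.  `net_ok`: all fields for `c = ctx0 ..` by `simp only`/`show` and the theorems of the modules, with `g = f^[k]`, `hg = dyn_iter hd k`.
`good`: `pull_good hg (good0 ..) (E0_avoid h) hF` where `hF`: for `U ∈ Fc (E0 ..)`, `U` preconnected and `diam U < η` (`star0` with `S = closure U`; `U ⊆ DSt0 ..`, `Metric.diam_mono` with boundedness in the compact space), so `he.uv 0 U` gives `(U ∩ P).Subsingleton` (`f^[0] = id`).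
`avoid`: a point of an edge of level `k` is mapped by `g` into an edge of level 0 (`pullE`, `FaceX.sub`), `E0_avoid`.  `Ddiam`: `lift_D` and `D0_diam`.  `Dopen`, `Dsub`: `lift_D`.  `Dsc`, `Davoid`, `Qcont`, `Qinj`, `Qimg`, `Qseg`: module D3.  `Qinv`: `lift_inverse`, noting `(fun x => tau σ (g x)) '' θ = tau σ '' (g '' θ)` (`image_image`).
`star`: `g '' F ∈ {closure U₀}` for a closed face `F` (`pull_good` second part, `comp_image`), so `g '' St k S ⊆ St0 (g '' S)`, `g '' St k (St k F) ⊆ St0 (St0 (closure U₀))`, and `g '' Dk θ = D0 (g '' θ)` (`lift_D`), `g '' θ ∈ E0` with `g '' θ ⊆ g '' S`; so `g '' DSt k S' ⊆ DSt0 (20 ε) (St0 (St0 (closure U₀)))`; `star0`, `diam_mono`.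
`contr`, `small`: `hm`: for `small` put `C' = g '' C`; `f^[n] '' C = f^[n - k] '' C'` (`Function.iterate_add`), a point `x ∈ C ∩ nh k θ (10 ε)` gives `g x ∈ C'`, `g x ≠ p` (`x ∈ Dk`, `lift_D`, `D0_avoid`), `infDist (tau σ (g x)) (⋃₀ EB) ≤ infDist (tau σ (g x)) (Q '' θ) ≤ 10 ε`; so `p ∉ C'` and `C'` has euclidean diameter `< ε`, hence
`C' ⊆ D0 (g '' θ)` (within `10 ε + ε < 20 ε` of the edge), `C` is a preconnected subset of `g ⁻¹' D0 (g '' θ)` meeting the component `Dk θ` in `x`: `C ⊆ Dk θ` (`lift_edge`).  `two`: `two_edges`.  `ball`: `⊇` clear, `⊆` by `ball_sub`.  `third`: `third_face`, and `ball` to rewrite `B`.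
-/

open Set Metric Topology Filter
open Pool.JS Pool.ETM

namespace Pool.N0

variable {X : Type*} [MetricSpace X] [CompactSpace X] [Sph X]

/-- the context with the network data -/
noncomputable def ctx0 (f : X → X) (P : Set X) (η : ℝ) (σ : ℂ → X) (M N : ℤ) (ε : ℝ) (m : ℕ) : Ctx X where
  f := f
  P := P
  η := η
  V := fun k => f^[k] ⁻¹' V0 σ M N
  E := fun k => pullE f^[k] (E0 σ M N)
  D := fun k θ => Dk σ (20 * ε) f^[k] θ
  q := tau σ
  m := m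
  ε := ε
  s := 1
  Z := ∅
  δ := fun _ => 0
  nc := 0
  a := fun _ _ => 0
  w := 0
  nb := 0
  NN := 0
  ε₁ := 0
  k0 := 0
  n0 := 0

private theorem D7_st0_mono {σ : ℂ → X} {M N : ℤ} {S S' : Set X} (h : S ⊆ S') : St0 σ M N S ⊆ St0 σ M N S' := by
  rintro x ⟨F, ⟨hF, y, hy1, hy2⟩, hx⟩
  exact ⟨F, ⟨hF, y, hy1, h hy2⟩, hx⟩

private theorem D7_bdd (S : Set X) : Bornology.IsBounded S :=
  isCompact_univ.isBounded.subset (subset_univ S)

private theorem D7_faces {P : Set X} {η ε : ℝ} {p : X} {σ : ℂ → X} {M N : ℤ} {f : X → X} (he : Expd f P η)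
    (h : Lev0 P η p σ M N ε) : ∀ U ∈ Fc (E0 σ M N), (U ∩ P).Subsingleton := by
  intro U hU
  have hpre : IsPreconnected U := FaceX.conn hU
  have h1 : U ⊆ DSt0 σ M N (20 * ε) (closure U) := fun x hx => Or.inl (subset_closure hx)
  have h2 : diam U < η := (diam_mono h1 (D7_bdd _)).trans_lt (star0 h he.pos hU (Or.inl rfl))
  have h3 := he.uv 0 U hpre (by
    rw [Function.iterate_zero, image_id]
    exact h2)
  rw [Function.iterate_zero, preimage_id] at h3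
  exact h3

/-- closed faces of level `k` are mapped onto closed faces of level 0 -/
private theorem D7_face {P : Set X} {η ε : ℝ} {p : X} {σ : ℂ → X} {M N : ℤ} {g : X → X} (hg : Dyn g P)
    (h : Lev0 P η p σ M N ε)
    (hF : ∀ U, U ∈ Fc (pullE g (E0 σ M N)) ↔ ∃ U₀ ∈ Fc (E0 σ M N), IsComp U (g ⁻¹' U₀)) {U : Set X}
    (hU : U ∈ Fc (pullE g (E0 σ M N))) : ∃ U₀ ∈ Fc (E0 σ M N), g '' closure U = closure U₀ := by
  obtain ⟨U₀, hU₀, hc⟩ := (hF U).1 hU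
  have hgood := good0 h.chart h.hM (by have := h.hN; linarith)
  have ho : IsOpen U₀ := (hgood.disc U₀ hU₀).1
  exact ⟨U₀, hU₀, (comp_image hg ho ⟨FaceX.ne hU₀, FaceX.conn hU₀⟩ hc).2.2.1⟩

private theorem D7_small {f : X → X} {P : Set X} {η ε : ℝ} {p : X} {σ : ℂ → X} {M N : ℤ} {m : ℕ} (hd : Dyn f P)
    (h : Lev0 P η p σ M N ε)
    (hm : ∀ n ≥ m, ∀ C : Set X, IsPreconnected C → diam (f^[n] '' C) < η → diam C < η / 10 ∧
      ((∃ x ∈ C, x ≠ p ∧ infDist (tau σ x) (⋃₀ EB M N) ≤ 10 * ε) →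
        p ∉ C ∧ ∀ x ∈ C, ∀ y ∈ C, ‖tau σ x - tau σ y‖ < ε)) (k : ℕ) {θ : Set X} (hθ : θ ∈ pullE f^[k] (E0 σ M N))
    {n : ℕ} (hn : k + m ≤ n) {C : Set X} (hC : IsPreconnected C) {x : X} (hxC : x ∈ C)
    (hxD : x ∈ Dk σ (20 * ε) f^[k] θ) (hxd : infDist (tau σ (f^[k] x)) ((fun x => tau σ (f^[k] x)) '' θ) ≤ 10 * ε)
    (hdiam : diam (f^[n] '' C) < η) :
    C ⊆ Dk σ (20 * ε) f^[k] θ ∧ ∀ x ∈ C, ∀ y ∈ C, ‖tau σ (f^[k] x) - tau σ (f^[k] y)‖ < ε := by
  have hg := dyn_iter hd k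
  have hε := h.hε
  obtain ⟨hE, hcomp, -⟩ := lift_edge hg h hθ
  obtain ⟨-, -, hDimg, -⟩ := lift_D hg h hθ
  obtain ⟨e1, e2, e3⟩ := E0_form h.chart hE
  have hpre : IsPreconnected (f^[k] '' C) := hC.image _ hg.cont.continuousOn
  have hnk : f^[n] '' C = f^[n - k] '' (f^[k] '' C) := by
    rw [← image_comp, ← Function.iterate_add]
    congr 2
    omega
  rw [hnk] at hdiam
  obtain ⟨-, h2⟩ := hm (n - k) (by omega) _ hpre hdiam
  have hgx : f^[k] x ∈ D0 σ (20 * ε) (f^[k] '' θ) := by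
    rw [← hDimg]
    exact mem_image_of_mem _ hxD
  have hgp : f^[k] x ≠ p := by
    intro he
    rw [he] at hgx
    exact (D0_avoid h hE).2 hgx
  have himg : (fun x => tau σ (f^[k] x)) '' θ = σ ⁻¹' (f^[k] '' θ) := by
    rw [← e3, image_image]
  rw [himg] at hxd
  have hne : (σ ⁻¹' (f^[k] '' θ)).Nonempty := (EB_compact e1).2.2
  have hle : infDist (tau σ (f^[k] x)) (⋃₀ EB M N) ≤ 10 * ε :=
    (infDist_le_infDist_of_subset (subset_sUnion_of_mem e1) hne).trans hxd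
  obtain ⟨h3, h4⟩ := h2 ⟨_, mem_image_of_mem _ hxC, hgp, hle⟩
  have hsub : C ⊆ f^[k] ⁻¹' D0 σ (20 * ε) (f^[k] '' θ) := by
    intro y hy
    have hyC := mem_image_of_mem f^[k] hy
    have hyp : f^[k] y ≠ p := fun he => h3 (he ▸ hyC)
    refine ⟨tau σ (f^[k] y), ?_, sigma_tau h.chart hyp⟩
    rw [mem_thickening_iff_infDist_lt hne]
    have h5 := h4 _ hyC _ (mem_image_of_mem f^[k] hxC)
    have h6 := infDist_le_infDist_add_dist (s := σ ⁻¹' (f^[k] '' θ)) (x := tau σ (f^[k] y)) (y := tau σ (f^[k] x))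
    rw [dist_eq_norm] at h6
    linarith
  refine ⟨hcomp.max C hC ?_ ⟨x, hxC, hxD⟩, ?_⟩
  · rw [compl_compl]
    exact hsub
  · intro a ha b hb
    exact h4 _ (mem_image_of_mem _ ha) _ (mem_image_of_mem _ hb)

private theorem D7_ball {P : Set X} {η ε : ℝ} {p : X} {σ : ℂ → X} {M N : ℤ} {m : ℕ} {f : X → X} (hd : Dyn f P)
    (h : Lev0 P η p σ M N ε) (k : ℕ) {θ : Set X} (hθ : θ ∈ pullE f^[k] (E0 σ M N)) {v : X} (hv : v ∈ θ) :
    (ctx0 f P η σ M N ε m).B k v (20 * ε) =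
      {x | x ∈ Dk σ (20 * ε) f^[k] θ ∧ ‖tau σ (f^[k] x) - tau σ (f^[k] v)‖ < 20 * ε} := by
  have hg := dyn_iter hd k
  ext x
  constructor
  · rintro ⟨θ', hθ', hv', hx, hxv⟩
    exact ⟨ball_sub hg h hθ' hθ hv' hv hx hxv, hxv⟩
  · rintro ⟨hx, hxv⟩
    exact ⟨θ, hθ, hv, hx, hxv⟩

private theorem D7_star {f : X → X} {P : Set X} {η ε : ℝ} {p : X} {σ : ℂ → X} {M N : ℤ} {m : ℕ} (hd : Dyn f P)
    (hη : 0 < η) (h : Lev0 P η p σ M N ε) (k : ℕ)
    (hF : ∀ U, U ∈ Fc (pullE f^[k] (E0 σ M N)) ↔ ∃ U₀ ∈ Fc (E0 σ M N), IsComp U (f^[k] ⁻¹' U₀)) {F : Set X}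
    (hFF : F ∈ (ctx0 f P η σ M N ε m).Face k) :
    diam (f^[k] '' (ctx0 f P η σ M N ε m).DSt k ((ctx0 f P η σ M N ε m).St k ((ctx0 f P η σ M N ε m).St k F))) < η := by
  have hg := dyn_iter hd k
  have hface : ∀ F' ∈ (ctx0 f P η σ M N ε m).Face k, ∃ U₀ ∈ Fc (E0 σ M N), f^[k] '' F' = closure U₀ := by
    rintro F' ⟨U, hU, rfl⟩
    exact D7_face hg h hF hU
  have hSt : ∀ S : Set X, f^[k] '' (ctx0 f P η σ M N ε m).St k S ⊆ St0 σ M N (f^[k] '' S) := by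
    rintro S _ ⟨x, ⟨F', ⟨hF', y, hy1, hy2⟩, hx⟩, rfl⟩
    obtain ⟨U₀, hU₀, he⟩ := hface F' hF'
    refine ⟨closure U₀, ⟨⟨U₀, hU₀, rfl⟩, f^[k] y, ?_, mem_image_of_mem _ hy2⟩, ?_⟩
    · rw [← he]
      exact mem_image_of_mem _ hy1
    · rw [← he]
      exact mem_image_of_mem _ hx
  obtain ⟨U₀, hU₀, he⟩ := hface F hFF
  have h1 : f^[k] '' (ctx0 f P η σ M N ε m).St k ((ctx0 f P η σ M N ε m).St k F) ⊆ St0 σ M N (St0 σ M N (closure U₀)) := by
    refine (hSt _).trans (D7_st0_mono ?_)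
    rw [← he]
    exact hSt F
  have h2 : f^[k] '' (ctx0 f P η σ M N ε m).DSt k ((ctx0 f P η σ M N ε m).St k ((ctx0 f P η σ M N ε m).St k F)) ⊆
      DSt0 σ M N (20 * ε) (St0 σ M N (St0 σ M N (closure U₀))) := by
    rintro _ ⟨x, hx | ⟨D, ⟨θ, hθ, hθS, rfl⟩, hx⟩, rfl⟩
    · exact Or.inl (h1 (mem_image_of_mem _ hx))
    · right
      obtain ⟨hE, -, -⟩ := lift_edge hg h hθ
      obtain ⟨-, -, hDimg, -⟩ := lift_D hg h hθ
      refine ⟨D0 σ (20 * ε) (f^[k] '' θ), ⟨f^[k] '' θ, hE, (image_mono hθS).trans h1, rfl⟩, ?_⟩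
      rw [← hDimg]
      exact mem_image_of_mem _ hx
  exact (diam_mono h2 (D7_bdd _)).trans_lt (star0 h hη hU₀ (Or.inr (Or.inr rfl)))

theorem net_ok {f : X → X} {P : Set X} {η ε : ℝ} {p : X} {σ : ℂ → X} {M N : ℤ} {m : ℕ} (hd : Dyn f P)
    (he : Expd f P η) (h : Lev0 P η p σ M N ε) (h1 : 1 ≤ m)
    (hm : ∀ n ≥ m, ∀ C : Set X, IsPreconnected C → diam (f^[n] '' C) < η → diam C < η / 10 ∧
      ((∃ x ∈ C, x ≠ p ∧ infDist (tau σ x) (⋃₀ EB M N) ≤ 10 * ε) →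
        p ∉ C ∧ ∀ x ∈ C, ∀ y ∈ C, ‖tau σ x - tau σ y‖ < ε)) : (ctx0 f P η σ M N ε m).NetOk := by
  have hη := he.pos
  have hF := D7_faces he h
  have hgood : ∀ k : ℕ, Good (f^[k] ⁻¹' V0 σ M N) (pullE f^[k] (E0 σ M N)) ∧
      ∀ U, U ∈ Fc (pullE f^[k] (E0 σ M N)) ↔ ∃ U₀ ∈ Fc (E0 σ M N), IsComp U (f^[k] ⁻¹' U₀) := fun k =>
    pull_good (dyn_iter hd k) (good0 h.chart h.hM (by have := h.hN; linarith)) (E0_avoid h) hF
  exact
    { εpos := h.hε
      sε := h.hε'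
      mpos := h1
      good := fun k => (hgood k).1
      avoid := by
        intro k
        rw [Set.disjoint_left]
        rintro x ⟨θ, ⟨e, he', hc⟩, hx⟩ hxP
        have h2 : x ∈ (f^[k] ⁻¹' e)ᶜᶜ := hc.sub hx
        rw [compl_compl] at h2
        exact Set.disjoint_left.1 (E0_avoid h) ⟨e, he', h2⟩ hxP
      star := fun k F hFF => D7_star hd hη h k (hgood k).2 hFF
      Dopen := fun k θ hθ => (lift_D (dyn_iter hd k) h hθ).1
      Dsub := fun k θ hθ => (lift_D (dyn_iter hd k) h hθ).2.2.2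
      Dsc := fun k θ hθ => Qsc (dyn_iter hd k) h hθ
      Davoid := fun k θ hθ => Qavoid (dyn_iter hd k) h hθ
      Ddiam := by
        intro k θ hθ
        show diam (f^[k] '' Dk σ (20 * ε) f^[k] θ) < η
        rw [(lift_D (dyn_iter hd k) h hθ).2.2.1]
        exact D0_diam h hη (lift_edge (dyn_iter hd k) h hθ).1
      Qcont := fun k θ hθ => (Qcont (dyn_iter hd k) h hθ).1
      Qinj := fun k θ hθ => (Qcont (dyn_iter hd k) h hθ).2.1
      Qimg := fun k θ hθ => (Qcont (dyn_iter hd k) h hθ).2.2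
      Qinv := by
        intro k θ hθ
        obtain ⟨G, g1, -, g3⟩ := lift_inverse (dyn_iter hd k) h hθ
        refine ⟨G, ?_, fun x hx => (g3 x hx).2⟩
        show ContinuousOn G (thickening (20 * ε) ((fun x => tau σ (f^[k] x)) '' θ))
        have himg : (fun x => tau σ (f^[k] x)) '' θ = tau σ '' (f^[k] '' θ) := by
          rw [image_image]
        rw [himg]
        exact g1
      Qseg := fun k θ hθ v hv v' hv' hne h2 h3 => Qseg (dyn_iter hd k) h hθ hv hv' hne h2 h3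
      contr := fun n hn C hC hdm => (hm n hn C hC hdm).1
      small := by
        rintro k θ hθ n hn C hC ⟨x, hxC, hxD, hxd⟩ hdiam
        exact D7_small hd h hm k hθ hn hC hxC hxD hxd hdiam
      two := fun k θ hθ θ' hθ' hne r hr z hz =>
        two_edges (dyn_iter hd k) h hθ hθ' hne hr hz.1.1 hz.2.1 hz.1.2 hz.2.2
      ball := fun k θ hθ v _ hvθ => D7_ball hd h k hθ hvθ
      third := by
        rintro k θ hθ F ⟨U, hU, rfl⟩ x ⟨hxF, hxD⟩
        rcases third_face (dyn_iter hd k) h hθ (((hgood k).2 U).1 hU) hxF hxD with h2 | ⟨v, hv, hvθ, hvU, hle, hj⟩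
        · exact Or.inl h2
        · refine Or.inr ⟨v, hv, hvθ, hvU, hle, ?_⟩
          have hb := D7_ball (m := m) hd h k hθ hvθ
          show JoinedIn (closure U ∩ (ctx0 f P η σ M N ε m).B k v (20 * ε)) x v
          rw [hb]
          exact hj }

/-- the output of block N0 -/
theorem exists_net [Nonempty X] {f : X → X} {P : Set X} {η : ℝ} (hd : Dyn f P) (he : Expd f P η) :
    ∃ c : Ctx X, c.f = f ∧ c.P = P ∧ c.η = η ∧ c.NetOk := by
  obtain ⟨p, σ, M, N, ε, h⟩ := exists_lev0 (X := X) hd.finP he.pos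
  obtain ⟨m, h1, hm⟩ := exists_m he h
  exact ⟨ctx0 f P η σ M N ε m, rfl, rfl, rfl, net_ok hd he h h1 hm⟩

end Pool.N0
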