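import Pool.Agent.JS.ThDefs

/-!
# The brick wall network in the plane (unit lattice): definitions

`M`, `N` are integers (`1 ≤ M`, `2 ≤ N` in the theorems), the wall is the rectangle `[0, 2M] × [0, N]`.
-/

open Set Metric Topology

namespace Pool.N0

/-- a coordinate box -/
def Bx (I J : Set ℝ) : Set ℂ := {z | z.re ∈ I ∧ z.im ∈ J}

/-- a closed interval (maybe infinite) with integer end points -/
structure LatI (I : Set ℝ) : Prop where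
  ord : OrdConnected I
  closed : IsClosed I
  floor : ∀ x ∈ I, ((⌊x⌋ : ℤ) : ℝ) ∈ I
  ceil : ∀ x ∈ I, ((⌈x⌉ : ℤ) : ℝ) ∈ I

/-- the projection to the interval `[p, q]` -/
noncomputable def cl (p q x : ℝ) : ℝ := max p (min q x)

/-- the projection to the box `[p, q] × [r, s]` -/
noncomputable def pr (p q r s : ℝ) (z : ℂ) : ℂ := ⟨cl p q z.re, cl r s z.im⟩

/-- the horizontal unit segment from `a + b i` -/
def hE (a b : ℤ) : Set ℂ := Bx (Icc (a : ℝ) (a + 1)) (Icc (b : ℝ) b)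

/-- the vertical unit segment from `a + b i` -/
def vE (a b : ℤ) : Set ℂ := Bx (Icc (a : ℝ) a) (Icc (b : ℝ) (b + 1))

/-- the vertices of the wall -/
def VB (M N : ℤ) : Set ℂ :=
  {z | ∃ a b : ℤ, 0 ≤ a ∧ a ≤ 2 * M ∧ 0 ≤ b ∧ b ≤ N ∧ z = (⟨a, b⟩ : ℂ)}

/-- the edges of the wall -/
def EB (M N : ℤ) : Set (Set ℂ) :=
  {e | (∃ a b : ℤ, 0 ≤ a ∧ a < 2 * M ∧ 0 ≤ b ∧ b ≤ N ∧ e = hE a b) ∨
    ∃ a b : ℤ, 0 ≤ a ∧ a ≤ 2 * M ∧ 0 ≤ b ∧ b < N ∧ (Even (a + b) ∨ a = 0 ∨ a = 2 * M) ∧ e = vE a b}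

/-- the open bricks -/
def FB (M N : ℤ) : Set (Set ℂ) :=
  {U | ∃ a b : ℤ, -1 ≤ a ∧ a < 2 * M ∧ 0 ≤ b ∧ b < N ∧ Even (a + b) ∧
    U = Bx (Ioo ((max a 0 : ℤ) : ℝ) ((min (a + 2) (2 * M) : ℤ) : ℝ)) (Ioo (b : ℝ) (b + 1))}

/-- the outer face -/
def OB (M N : ℤ) : Set ℂ := (Bx (Icc 0 ((2 * M : ℤ) : ℝ)) (Icc 0 (N : ℝ)))ᶜ

end Pool.N0
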