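import Pool.Agent.N0.BDefs
import Pool.Agent.ETM.LeZ
import Pool.Agent.ETM.LeE
import Pool.Agent.ETM.LeB
import Pool.Agent.ETM.LeH
import Pool.Agent.ETM.LeC

/-!
The statements of block LE (lifting) used by block N0, proved from block LE.
-/

open Set Metric Topology Filter
open Pool.JS Pool.ETM

namespace Pool.N0

variable {X : Type*} [MetricSpace X] [CompactSpace X] [Sph X] {f g : X → X} {P : Set X}

theorem dyn_iter (h : Dyn f P) (n : ℕ) : Dyn f^[n] P := h.iterate n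

theorem comp_image (h : Dyn g P) {U V : Set X} (hU : IsOpen U) (hc : IsConnected U) (hV : IsComp V (g ⁻¹' U)) :
    IsOpen V ∧ g '' V = U ∧ g '' closure V = closure U ∧ g '' frontier V ⊆ frontier U := by
  have h1 := h.comp_isOpen hU hV
  have h2 := h.comp_image hU hc.isPreconnected hV
  have h3 := h.comp_closure hU hc.isPreconnected hV
  have h4 := h.comp_frontier hU hc.isPreconnected hV
  exact ⟨h1, h2, h3, h4.le⟩

theorem comp_sc (h : Dyn g P) {D V : Set X} (hD : IsOpen D) (hsc : IsSimplyConnected D) (hP : Disjoint D P)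
    (hV : IsComp V (g ⁻¹' D)) : IsOpen V ∧ InjOn g V ∧ g '' V = D := by
  obtain ⟨h1, h2, h3, -, -⟩ := h.sc_comp hD hsc hP hV
  exact ⟨h3, h1, h2⟩

theorem pull_good (h : Dyn g P) {V : Set X} {E : Set (Set X)} (hG : Good V E) (hav : Disjoint (⋃₀ E) P)
    (hF : ∀ U ∈ Fc E, (U ∩ P).Subsingleton) : Good (g ⁻¹' V) (pullE g E) ∧
      ∀ U, U ∈ Fc (pullE g E) ↔ ∃ U₀ ∈ Fc E, IsComp U (g ⁻¹' U₀) := by
  obtain ⟨h1, -, h3⟩ := Pool.ETM.pull_good h hG hav hF
  exact ⟨h1, h3⟩

end Pool.N0
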